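import Mathlib
import Pool.Agent.Helper467.FP.Defs
import Pool.Agent.H759R2.Kad.Inner

/-!
Amplifications `x ⊗ 1` on finite sums of a Hilbert space; commutants of amplifications of close von
Neumann algebras are uniformly close.
-/

set_option autoImplicit false

open scoped InnerProductSpace ComplexConjugate

namespace Pool.Agent.Y323.KK

open Pool.Agent.H467F

variable {H : Type} [NormedAddCommGroup H] [InnerProductSpace ℂ H] [CompleteSpace H]

/-- The Hilbert space direct sum of `n` copies of `H`. -/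
abbrev Hn (H : Type) [NormedAddCommGroup H] [InnerProductSpace ℂ H] (n : ℕ) : Type :=
  PiLp 2 (fun _ : Fin n => H)

/-- The amplification of an operator. -/
noncomputable def ampL (n : ℕ) (x : H →L[ℂ] H) : Hn H n →L[ℂ] Hn H n :=
  (PiLp.continuousLinearEquiv 2 ℂ (fun _ : Fin n => H)).symm.toContinuousLinearMap ∘L
    (ContinuousLinearMap.pi fun k => x ∘L (ContinuousLinearMap.proj k : (Fin n → H) →L[ℂ] H)) ∘L
    (PiLp.continuousLinearEquiv 2 ℂ (fun _ : Fin n => H)).toContinuousLinearMap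

theorem ampL_apply (n : ℕ) (x : H →L[ℂ] H) (ζ : Hn H n) (k : Fin n) : ampL n x ζ k = x (ζ k) := rfl

variable (H) in
/-- The amplification as a star homomorphism. -/
noncomputable def amp (n : ℕ) : (H →L[ℂ] H) →⋆ₐ[ℂ] (Hn H n →L[ℂ] Hn H n) where
  toFun := ampL n
  map_one' := by
    ext ζ
    rfl
  map_mul' x y := by
    ext ζ
    rfl
  map_zero' := by
    ext ζ
    rfl
  map_add' x y := by
    ext ζ
    rfl
  commutes' r := by
    ext ζ
    rfl
  map_star' x := by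
    rw [ContinuousLinearMap.star_eq_adjoint, ContinuousLinearMap.star_eq_adjoint,
      ContinuousLinearMap.eq_adjoint_iff]
    intro ζ η
    rw [PiLp.inner_apply, PiLp.inner_apply]
    refine Finset.sum_congr rfl (fun k _ => ?_)
    rw [ampL_apply, ampL_apply, ContinuousLinearMap.adjoint_inner_left]

theorem amp_apply (n : ℕ) (x : H →L[ℂ] H) (ζ : Hn H n) (k : Fin n) : amp H n x ζ k = x (ζ k) := rfl

theorem norm_amp_le (n : ℕ) (x : H →L[ℂ] H) : ‖amp H n x‖ ≤ ‖x‖ :=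
  NonUnitalStarAlgHom.norm_apply_le (amp H n) x

/-- Every element of the unit ball of `M` is within `γ` of the unit ball of `N`. -/
def NearB (M N : VonNeumannAlgebra H) (γ : ℝ) : Prop :=
  ∀ x ∈ M, ‖x‖ ≤ 1 → ∃ y ∈ N, ‖y‖ ≤ 1 ∧ ‖x - y‖ ≤ γ

/-- The constant of the derivation theorem. -/
noncomputable def Kc : ℝ := 5184 * 6 ^ 25 * 8 ^ 77

/-- Commutants of amplifications of close algebras are close, with a constant that does not depend
on the size of the amplification. -/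
theorem comm_near {M N : VonNeumannAlgebra H} {γ : ℝ} (hγ : 0 ≤ γ) (h : NearB M N γ) (n : ℕ)
    (T : Hn H n →L[ℂ] Hn H n) (hT : ∀ y ∈ N, T * amp H n y = amp H n y * T) (hT1 : ‖T‖ ≤ 1) :
    ∃ T₁ : Hn H n →L[ℂ] Hn H n, (∀ x ∈ M, T₁ * amp H n x = amp H n x * T₁) ∧
      ‖T₁ - T‖ ≤ Kc * (2 * γ) := by
  let π : Elt M →⋆ₙₐ[ℂ] (Hn H n →L[ℂ] Hn H n) :=
    ((amp H n).comp M.toStarSubalgebra.subtype : Elt M →⋆ₐ[ℂ] (Hn H n →L[ℂ] Hn H n))
  have hπ : ∀ x : Elt M, π x = amp H n (x : H →L[ℂ] H) := fun x => rfl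
  let D : Elt M →ₗ[ℂ] (Hn H n →L[ℂ] Hn H n) :=
    { toFun := fun x => T * π x - π x * T
      map_add' := fun x y => by
        rw [map_add, mul_add, add_mul]; abel
      map_smul' := fun r x => by
        rw [map_smul, mul_smul_comm, smul_mul_assoc, smul_sub]; rfl }
  have hb : ∀ x : Elt M, ‖D x‖ ≤ (2 * γ) * ‖x‖ := by
    intro x
    by_cases hx : x = 0
    · rw [hx, map_zero, norm_zero, norm_zero, mul_zero]
    have hx0 : 0 < ‖x‖ := norm_pos_iff.2 hx
    have hcx : ‖((‖x‖⁻¹ : ℝ) : ℂ) • (x : H →L[ℂ] H)‖ ≤ 1 := by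
      rw [norm_smul, Complex.norm_real, norm_inv, norm_norm]
      have : ‖(x : H →L[ℂ] H)‖ = ‖x‖ := rfl
      rw [this, inv_mul_cancel₀ hx0.ne']
    have hcm : ((‖x‖⁻¹ : ℝ) : ℂ) • (x : H →L[ℂ] H) ∈ M :=
      (M.toStarSubalgebra.smul_mem x.2 _)
    obtain ⟨y, hy, -, hxy⟩ := h _ hcm hcx
    have e1 : D x = ((‖x‖ : ℝ) : ℂ) • (T * amp H n (((‖x‖⁻¹ : ℝ) : ℂ) • (x : H →L[ℂ] H) - y) -
        amp H n (((‖x‖⁻¹ : ℝ) : ℂ) • (x : H →L[ℂ] H) - y) * T) := by
      have e2 : T * amp H n (((‖x‖⁻¹ : ℝ) : ℂ) • (x : H →L[ℂ] H) - y) -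
        amp H n (((‖x‖⁻¹ : ℝ) : ℂ) • (x : H →L[ℂ] H) - y) * T =
          ((‖x‖⁻¹ : ℝ) : ℂ) • (T * amp H n (x : H →L[ℂ] H) - amp H n (x : H →L[ℂ] H) * T) := by
        rw [map_sub, map_smul, mul_sub, sub_mul, hT y hy, mul_smul_comm, smul_mul_assoc, smul_sub]
        abel
      rw [e2, smul_smul, ← Complex.ofReal_mul, mul_inv_cancel₀ hx0.ne', Complex.ofReal_one,
        one_smul]
      rfl
    rw [e1, norm_smul, Complex.norm_real, norm_norm, mul_comm]
    refine mul_le_mul_of_nonneg_right ?_ hx0.le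
    set a := amp H n (((‖x‖⁻¹ : ℝ) : ℂ) • (x : H →L[ℂ] H) - y) with ha
    have ha1 : ‖a‖ ≤ γ := (norm_amp_le n _).trans hxy
    have h1 : ‖T * a‖ ≤ 1 * γ :=
      (norm_mul_le _ _).trans (mul_le_mul hT1 ha1 (norm_nonneg _) zero_le_one)
    have h2 : ‖a * T‖ ≤ γ * 1 :=
      (norm_mul_le _ _).trans (mul_le_mul ha1 hT1 (norm_nonneg _) hγ)
    have := norm_sub_le (T * a) (a * T)
    linarith
  let δ : Elt M →L[ℂ] (Hn H n →L[ℂ] Hn H n) := D.mkContinuous (2 * γ) hb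
  have hδ : ∀ a b : Elt M, δ (a * b) = π a * δ b + δ a * π b := by
    intro a b
    show T * π (a * b) - π (a * b) * T = π a * (T * π b - π b * T) + (T * π a - π a * T) * π b
    rw [map_mul]
    simp only [mul_sub, sub_mul, mul_assoc]
    abel
  obtain ⟨S, hS, hS2⟩ := H759R2.Kad.inner_bound (Elt M) (Hn H n) π δ hδ
  refine ⟨T + S, ?_, ?_⟩
  · intro x hx
    have h1 : T * amp H n x - amp H n x * T = amp H n x * S - S * amp H n x := hS2 ⟨x, hx⟩
    rw [add_mul, mul_add]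
    rw [sub_eq_sub_iff_add_eq_add] at h1
    rw [h1]; abel
  · rw [add_sub_cancel_left]
    refine hS.trans ?_
    refine mul_le_mul_of_nonneg_left ?_ (by positivity)
    exact LinearMap.mkContinuous_norm_le _ (by positivity) _

end Pool.Agent.Y323.KK
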