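import Mathlib
import Pool.Agent.W861.AM.Mean

/-!
Operator valued means: averages of bounded operator valued functions on a group with an invariant
mean, in the weak operator topology.
-/

set_option autoImplicit false

open scoped InnerProductSpace ComplexConjugate

namespace Pool.Agent.Y323.KK

open Pool.Agent.W861.AM

section cmean

variable {G : Type*}

/-- Bounded complex function. -/
def CBd (f : G → ℂ) : Prop := ∃ C : ℝ, ∀ x, ‖f x‖ ≤ C

theorem CBd.re {f : G → ℂ} (h : CBd f) : Bd (fun x => (f x).re) := by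
  obtain ⟨C, hC⟩ := h
  exact ⟨C, fun x => (Complex.abs_re_le_norm _).trans (hC x)⟩

theorem CBd.im {f : G → ℂ} (h : CBd f) : Bd (fun x => (f x).im) := by
  obtain ⟨C, hC⟩ := h
  exact ⟨C, fun x => (Complex.abs_im_le_norm _).trans (hC x)⟩

/-- The complex extension of a mean. -/
def cmu (μ : (G → ℝ) → ℝ) (f : G → ℂ) : ℂ := ⟨μ fun x => (f x).re, μ fun x => (f x).im⟩

variable {μ : (G → ℝ) → ℝ}

theorem cmu_add (h : IsMean μ) {f g : G → ℂ} (hf : CBd f) (hg : CBd g) :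
    cmu μ (fun x => f x + g x) = cmu μ f + cmu μ g := by
  apply Complex.ext
  · exact h.add _ _ hf.re hg.re
  · exact h.add _ _ hf.im hg.im

theorem cmu_smul (h : IsMean μ) {f : G → ℂ} (hf : CBd f) (c : ℂ) :
    cmu μ (fun x => c * f x) = c * cmu μ f := by
  apply Complex.ext
  · show μ (fun x => (c * f x).re) = c.re * μ (fun x => (f x).re) - c.im * μ (fun x => (f x).im)
    have e : (fun x => (c * f x).re) = fun x => c.re * (f x).re + (-c.im) * (f x).im := by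
      funext x
      rw [Complex.mul_re]
      ring
    rw [e, h.add _ _ (hf.re.smul _) (hf.im.smul _), h.smul _ _ hf.re, h.smul _ _ hf.im]
    ring
  · show μ (fun x => (c * f x).im) = c.re * μ (fun x => (f x).im) + c.im * μ (fun x => (f x).re)
    have e : (fun x => (c * f x).im) = fun x => c.re * (f x).im + c.im * (f x).re := by
      funext x
      rw [Complex.mul_im]
    rw [e, h.add _ _ (hf.im.smul _) (hf.re.smul _), h.smul _ _ hf.re, h.smul _ _ hf.im]

theorem cmu_norm_le (h : IsMean μ) {f : G → ℂ} {C : ℝ} (hC : ∀ x, ‖f x‖ ≤ C) :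
    ‖cmu μ f‖ ≤ 2 * C := by
  have h1 := h.abs_le (f := fun x => (f x).re) (fun x => (Complex.abs_re_le_norm _).trans (hC x))
  have h2 := h.abs_le (f := fun x => (f x).im) (fun x => (Complex.abs_im_le_norm _).trans (hC x))
  have := Complex.norm_le_abs_re_add_abs_im (cmu μ f)
  have e1 : (cmu μ f).re = μ (fun x => (f x).re) := rfl
  have e2 : (cmu μ f).im = μ (fun x => (f x).im) := rfl
  rw [e1, e2] at this
  linarith

end cmean

section op

variable {L : Type*} [NormedAddCommGroup L] [InnerProductSpace ℂ L] {G : Type*}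

/-- Bounded operator valued function. -/
def OBd (F : G → L →L[ℂ] L) : Prop := ∃ C : ℝ, ∀ g, ‖F g‖ ≤ C

/-- `T` is the mean of the operator valued function `F`. -/
def IsLim (μ : (G → ℝ) → ℝ) (F : G → L →L[ℂ] L) (T : L →L[ℂ] L) : Prop :=
  ∀ ξ η : L, (⟪η, T ξ⟫_ℂ).re = μ (fun g => (⟪η, F g ξ⟫_ℂ).re)

theorem OBd.form {F : G → L →L[ℂ] L} (h : OBd F) (ξ η : L) : CBd (fun g => ⟪η, F g ξ⟫_ℂ) := by
  obtain ⟨C, hC⟩ := h
  refine ⟨‖η‖ * (C * ‖ξ‖), fun g => (norm_inner_le_norm _ _).trans ?_⟩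
  exact mul_le_mul_of_nonneg_left (((F g).le_opNorm ξ).trans
    (mul_le_mul_of_nonneg_right (hC g) (norm_nonneg _))) (norm_nonneg _)

theorem OBd.nonneg [Nonempty G] {F : G → L →L[ℂ] L} {C : ℝ} (hC : ∀ g, ‖F g‖ ≤ C) : 0 ≤ C :=
  (norm_nonneg _).trans (hC (Classical.arbitrary G))

variable {μ : (G → ℝ) → ℝ}

theorem IsLim.unique {F : G → L →L[ℂ] L} {T S : L →L[ℂ] L} (h1 : IsLim μ F T)
    (h2 : IsLim μ F S) : T = S := by
  ext ξ
  rw [← sub_eq_zero, ← norm_eq_zero]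
  have e : (⟪T ξ - S ξ, T ξ - S ξ⟫_ℂ).re = 0 := by
    rw [inner_sub_right, Complex.sub_re, h1, h2, sub_self]
  have e2 := inner_self_eq_norm_sq (𝕜 := ℂ) (T ξ - S ξ)
  have e3 : RCLike.re ⟪T ξ - S ξ, T ξ - S ξ⟫_ℂ = (⟪T ξ - S ξ, T ξ - S ξ⟫_ℂ).re := rfl
  rw [e3, e] at e2
  exact pow_eq_zero_iff (two_ne_zero) |>.1 e2.symm

theorem exists_lim [CompleteSpace L] (h : IsMean μ) {F : G → L →L[ℂ] L} (hF : OBd F) :
    ∃ T, IsLim μ F T := by
  obtain ⟨C, hC⟩ := hF
  have hF : OBd F := ⟨C, hC⟩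
  let c : L → L → ℂ := fun ξ η => cmu μ (fun g => ⟪F g ξ, η⟫_ℂ)
  have hb : ∀ ξ η, CBd (fun g => ⟪F g ξ, η⟫_ℂ) := by
    intro ξ η
    obtain ⟨D, hD⟩ := hF.form ξ η
    refine ⟨D, fun g => ?_⟩
    show ‖⟪F g ξ, η⟫_ℂ‖ ≤ D
    rw [← inner_conj_symm, RCLike.norm_conj]
    exact hD g
  have hadd1 : ∀ a b ζ, c (a + b) ζ = c a ζ + c b ζ := by
    intro a b ζ
    show cmu μ _ = _
    rw [← cmu_add h (hb _ _) (hb _ _)]
    congr 1
    funext g
    rw [map_add, inner_add_left]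
  have hsmul1 : ∀ (r : ℂ) a ζ, c (r • a) ζ = (starRingEnd ℂ) r * c a ζ := by
    intro r a ζ
    show cmu μ _ = _
    rw [← cmu_smul h (hb _ _)]
    congr 1
    funext g
    rw [map_smul, inner_smul_left]
  have hadd2 : ∀ η a b, c η (a + b) = c η a + c η b := by
    intro η a b
    show cmu μ _ = _
    rw [← cmu_add h (hb _ _) (hb _ _)]
    congr 1
    funext g
    rw [inner_add_right]
  have hsmul2 : ∀ (r : ℂ) η a, c η (r • a) = r * c η a := by
    intro r η a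
    show cmu μ _ = _
    rw [← cmu_smul h (hb _ _)]
    congr 1
    funext g
    rw [inner_smul_right]
  have hcb : ∀ ξ η, ‖c ξ η‖ ≤ (2 * C) * ‖ξ‖ * ‖η‖ := by
    intro ξ η
    refine (cmu_norm_le h (C := C * ‖ξ‖ * ‖η‖) (fun g => ?_)).trans (by ring_nf; exact le_refl _)
    refine (norm_inner_le_norm _ _).trans ?_
    refine mul_le_mul_of_nonneg_right ?_ (norm_nonneg _)
    exact ((F g).le_opNorm ξ).trans (mul_le_mul_of_nonneg_right (hC g) (norm_nonneg _))
  let B : L →ₗ⋆[ℂ] L →ₗ[ℂ] ℂ :=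
    { toFun := fun η =>
        { toFun := fun ζ => c η ζ
          map_add' := hadd2 η
          map_smul' := fun r a => hsmul2 r η a }
      map_add' := fun a b => LinearMap.ext (fun ζ => hadd1 a b ζ)
      map_smul' := fun r a => LinearMap.ext (fun ζ => hsmul1 r a ζ) }
  let B' : L →L⋆[ℂ] L →L[ℂ] ℂ := LinearMap.mkContinuous₂ B (2 * C) (fun η ζ => hcb η ζ)
  let y : L →L[ℂ] L := InnerProductSpace.continuousLinearMapOfBilin B'
  have hy : ∀ η ζ, ⟪y η, ζ⟫_ℂ = c η ζ := by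
    intro η ζ
    exact InnerProductSpace.continuousLinearMapOfBilin_apply B' η ζ
  refine ⟨y, fun ξ η => ?_⟩
  rw [← inner_conj_symm, Complex.conj_re, hy]
  show μ (fun g => (⟪F g ξ, η⟫_ℂ).re) = _
  congr 1
  funext g
  rw [← inner_conj_symm, Complex.conj_re]

theorem IsLim.norm_le [Nonempty G] (h : IsMean μ) {F : G → L →L[ℂ] L} {T : L →L[ℂ] L}
    (hT : IsLim μ F T) {r : ℝ} (hr : ∀ g, ‖F g‖ ≤ r) : ‖T‖ ≤ r := by
  have hr0 : 0 ≤ r := OBd.nonneg hr
  refine ContinuousLinearMap.opNorm_le_bound _ hr0 (fun ξ => ?_)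
  have h1 : (⟪T ξ, T ξ⟫_ℂ).re ≤ ‖T ξ‖ * (r * ‖ξ‖) := by
    rw [hT]
    refine h.le_of_le ?_ (fun g => ?_)
    · exact (OBd.form ⟨r, hr⟩ ξ (T ξ)).re
    · refine (Complex.re_le_norm _).trans ((norm_inner_le_norm _ _).trans ?_)
      exact mul_le_mul_of_nonneg_left (((F g).le_opNorm ξ).trans
        (mul_le_mul_of_nonneg_right (hr g) (norm_nonneg _))) (norm_nonneg _)
  have e2 : ‖T ξ‖ ^ 2 = (⟪T ξ, T ξ⟫_ℂ).re := (inner_self_eq_norm_sq (𝕜 := ℂ) (T ξ)).symm
  by_cases h0 : ‖T ξ‖ = 0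
  · rw [h0]; positivity
  · have hp : 0 < ‖T ξ‖ := lt_of_le_of_ne (norm_nonneg _) (Ne.symm h0)
    rw [← e2, sq] at h1
    exact le_of_mul_le_mul_left h1 hp

theorem IsLim.add (h : IsMean μ) {F F' : G → L →L[ℂ] L} {T T' : L →L[ℂ] L}
    (hF : OBd F) (hF' : OBd F') (hT : IsLim μ F T) (hT' : IsLim μ F' T') :
    IsLim μ (fun g => F g + F' g) (T + T') := by
  intro ξ η
  rw [add_apply, inner_add_right, Complex.add_re, hT, hT', ← h.add _ _ (hF.form ξ η).re
    (hF'.form ξ η).re]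
  congr 1
  funext g
  rw [add_apply, inner_add_right, Complex.add_re]

theorem IsLim.mulL [CompleteSpace L] {F : G → L →L[ℂ] L} {T : L →L[ℂ] L}
    (hT : IsLim μ F T) (a : L →L[ℂ] L) : IsLim μ (fun g => a * F g) (a * T) := by
  intro ξ η
  have e : ∀ S : L →L[ℂ] L, ⟪η, (a * S) ξ⟫_ℂ = ⟪ContinuousLinearMap.adjoint a η, S ξ⟫_ℂ := by
    intro S
    rw [ContinuousLinearMap.adjoint_inner_left]
    rfl
  rw [e, hT]
  congr 1
  funext g
  rw [e]

theorem IsLim.mulR {F : G → L →L[ℂ] L} {T : L →L[ℂ] L}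
    (hT : IsLim μ F T) (a : L →L[ℂ] L) : IsLim μ (fun g => F g * a) (T * a) :=
  fun ξ η => hT (a ξ) η

theorem IsLim.const (h : IsMean μ) (a : L →L[ℂ] L) : IsLim μ (fun _ : G => a) a := by
  intro ξ η
  rw [h.const]

theorem IsLim.neg (h : IsMean μ) {F : G → L →L[ℂ] L} {T : L →L[ℂ] L} (hF : OBd F)
    (hT : IsLim μ F T) : IsLim μ (fun g => - F g) (-T) := by
  intro ξ η
  rw [neg_apply, inner_neg_right, Complex.neg_re, hT]
  have := h.smul (-1) _ (hF.form ξ η).re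
  rw [neg_one_mul] at this
  rw [← this]
  congr 1
  funext g
  rw [neg_apply, inner_neg_right, Complex.neg_re, neg_one_mul]

theorem OBd.neg {F : G → L →L[ℂ] L} (h : OBd F) : OBd (fun g => - F g) := by
  obtain ⟨C, hC⟩ := h
  exact ⟨C, fun g => by rw [norm_neg]; exact hC g⟩

theorem IsLim.sub (h : IsMean μ) {F F' : G → L →L[ℂ] L} {T T' : L →L[ℂ] L}
    (hF : OBd F) (hF' : OBd F') (hT : IsLim μ F T) (hT' : IsLim μ F' T') :
    IsLim μ (fun g => F g - F' g) (T - T') := by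
  have := IsLim.add h hF hF'.neg hT (IsLim.neg h hF' hT')
  simp only [← sub_eq_add_neg] at this
  exact this

theorem IsLim.shift {H : Type*} {μ : (H → ℝ) → ℝ} [Group H] {F : H → L →L[ℂ] L}
    {T : L →L[ℂ] L} (hF : OBd F) (hT : IsLim μ F T) (g : H) (hg : Inv μ g) :
    IsLim μ (fun x => F (g * x)) T := by
  intro ξ η
  rw [hT, ← hg _ (hF.form ξ η).re]

theorem IsLim.comm [CompleteSpace L] {F : G → L →L[ℂ] L} {T z : L →L[ℂ] L}
    (hT : IsLim μ F T) (hz : ∀ g, z * F g = F g * z) : z * T = T * z := by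
  have h1 := hT.mulL z
  have h2 := hT.mulR z
  have : (fun g => z * F g) = fun g => F g * z := funext hz
  rw [this] at h1
  exact h1.unique h2

theorem IsLim.dist_le [Nonempty G] (h : IsMean μ) {F : G → L →L[ℂ] L} {T a : L →L[ℂ] L}
    (hF : OBd F) (hT : IsLim μ F T) {r : ℝ} (hr : ∀ g, ‖F g - a‖ ≤ r) : ‖T - a‖ ≤ r :=
  (IsLim.sub h hF ⟨‖a‖, fun _ => le_rfl⟩ hT (IsLim.const h a)).norm_le h hr

end op

/-- Commutative groups have an invariant mean. -/
theorem exists_mean (G : Type) [CommGroup G] :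
    ∃ μ : (G → ℝ) → ℝ, IsMean μ ∧ ∀ g : G, Inv μ g := by
  have h : Am (commutator G) := by
    have h1 : commutator G = ⊥ := by
      rw [commutator_eq_bot_iff_center_eq_top]
      exact CommGroup.center_eq_top
    have : Subsingleton (commutator G) := by
      rw [h1]
      infer_instance
    exact Am.of_subsingleton
  exact Am.of_commutator h

end Pool.Agent.Y323.KK
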