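import Mathlib
import Pool.Agent.Y323.KK.Amp
import Pool.Agent.Y323.KK.Mean

/-!
Means of operator valued functions: amplifications and normal functionals.
-/

set_option autoImplicit false

open scoped InnerProductSpace ComplexConjugate
open Filter Topology

namespace Pool.Agent.Y323.KK

open Pool.Agent.H467F Pool.Agent.W861.AM

theorem mean_sum {G ι : Type*} {μ : (G → ℝ) → ℝ} (h : IsMean μ) (s : Finset ι)
    (f : ι → G → ℝ) (hf : ∀ i, Bd (f i)) :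
    Bd (fun g => ∑ i ∈ s, f i g) ∧ μ (fun g => ∑ i ∈ s, f i g) = ∑ i ∈ s, μ (f i) := by
  classical
  induction s using Finset.induction_on with
  | empty =>
    simp only [Finset.sum_empty]
    exact ⟨Bd.const 0, h.const 0⟩
  | insert a s ha ih =>
    simp only [Finset.sum_insert ha]
    refine ⟨(hf a).add ih.1, ?_⟩
    rw [h.add _ _ (hf a) ih.1, ih.2]

variable {H : Type} [NormedAddCommGroup H] [InnerProductSpace ℂ H] [CompleteSpace H]

theorem IsLim.ampl {G : Type*} {μ : (G → ℝ) → ℝ} (h : IsMean μ) {F : G → H →L[ℂ] H}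
    {T : H →L[ℂ] H} (hF : OBd F) (hT : IsLim μ F T) (n : ℕ) :
    IsLim μ (fun g => amp H n (F g)) (amp H n T) := by
  intro ξ η
  rw [PiLp.inner_apply, Complex.re_sum]
  have h1 : ∀ k, (⟪η k, (amp H n T ξ) k⟫_ℂ).re = μ (fun g => (⟪η k, F g (ξ k)⟫_ℂ).re) :=
    fun k => hT (ξ k) (η k)
  rw [Finset.sum_congr rfl (fun k _ => h1 k), ← (mean_sum h Finset.univ
    (fun k g => (⟪η k, F g (ξ k)⟫_ℂ).re) (fun k => (hF.form _ _).re)).2]
  congr 1
  funext g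
  rw [PiLp.inner_apply, Complex.re_sum]
  rfl

/-- Normal functionals commute with means on functions on which they are constant. -/
theorem normal_lim {G : Type*} [Nonempty G] {μ : (G → ℝ) → ℝ} (h : IsMean μ)
    {N : VonNeumannAlgebra H} {t : Elt N → ℂ} (ht : IsNormalPositive N t) {F : G → Elt N}
    (hF : OBd (fun g => (F g : H →L[ℂ] H))) {T : Elt N}
    (hT : IsLim μ (fun g => (F g : H →L[ℂ] H)) (T : H →L[ℂ] H)) {c : ℝ}
    (hc : ∀ g, (t (F g)).re = c) : (t T).re = c := by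
  obtain ⟨ξ, hξ, htξ⟩ := ht
  obtain ⟨C, hC⟩ := hF
  have hC0 : 0 ≤ C := OBd.nonneg hC
  have hTC : ‖(T : H →L[ℂ] H)‖ ≤ C := hT.norm_le h hC
  set tail : ℕ → ℝ := fun K => ∑' k, ‖ξ (k + K)‖ ^ 2 with htail
  have htail0 : Tendsto tail atTop (𝓝 0) := tendsto_sum_nat_add (fun k => ‖ξ k‖ ^ 2)
  -- tail estimate
  have hb : ∀ x : Elt N, ‖(x : H →L[ℂ] H)‖ ≤ C → ∀ K,
      |(t x).re - ∑ k ∈ Finset.range K, (⟪ξ k, (x : H →L[ℂ] H) (ξ k)⟫_ℂ).re| ≤ C * tail K := by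
    intro x hx K
    have hk : ∀ k, ‖⟪ξ k, (x : H →L[ℂ] H) (ξ k)⟫_ℂ‖ ≤ C * ‖ξ k‖ ^ 2 := by
      intro k
      refine (norm_inner_le_norm _ _).trans ?_
      have h1 : ‖(x : H →L[ℂ] H) (ξ k)‖ ≤ C * ‖ξ k‖ :=
        ((x : H →L[ℂ] H).le_opNorm _).trans (mul_le_mul_of_nonneg_right hx (norm_nonneg _))
      nlinarith [norm_nonneg (ξ k)]
    have hsum : Summable (fun k => ⟪ξ k, (x : H →L[ℂ] H) (ξ k)⟫_ℂ) :=
      Summable.of_norm_bounded (hξ.mul_left C) hk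
    have e1 : t x - ∑ k ∈ Finset.range K, ⟪ξ k, (x : H →L[ℂ] H) (ξ k)⟫_ℂ =
        ∑' k, ⟪ξ (k + K), (x : H →L[ℂ] H) (ξ (k + K))⟫_ℂ := by
      rw [htξ, ← hsum.sum_add_tsum_nat_add K]
      ring
    have e2 : (t x).re - ∑ k ∈ Finset.range K, (⟪ξ k, (x : H →L[ℂ] H) (ξ k)⟫_ℂ).re =
        (t x - ∑ k ∈ Finset.range K, ⟪ξ k, (x : H →L[ℂ] H) (ξ k)⟫_ℂ).re := by
      rw [Complex.sub_re, Complex.re_sum]
    rw [e2, e1]
    refine (Complex.abs_re_le_norm _).trans ?_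
    rw [htail]
    have h2 : Summable (fun k => C * ‖ξ (k + K)‖ ^ 2) :=
      ((summable_nat_add_iff K).2 hξ).mul_left C
    have h3 := tsum_of_norm_bounded h2.hasSum (fun k => hk (k + K))
    rw [tsum_mul_left] at h3
    exact h3
  have hmain : ∀ K, |(t T).re - c| ≤ 2 * C * tail K := by
    intro K
    have h1 := hb T hTC K
    have h2 := mean_sum h (Finset.range K)
      (fun k g => (⟪ξ k, (F g : H →L[ℂ] H) (ξ k)⟫_ℂ).re)
      (fun k => (OBd.form ⟨C, hC⟩ (ξ k) (ξ k)).re)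
    have h3 : μ (fun g => ∑ k ∈ Finset.range K, (⟪ξ k, (F g : H →L[ℂ] H) (ξ k)⟫_ℂ).re) =
        ∑ k ∈ Finset.range K, (⟪ξ k, (T : H →L[ℂ] H) (ξ k)⟫_ℂ).re := by
      rw [h2.2]
      exact Finset.sum_congr rfl (fun k _ => (hT (ξ k) (ξ k)).symm)
    have h4 : |μ (fun g => c + (-1) * ∑ k ∈ Finset.range K,
        (⟪ξ k, (F g : H →L[ℂ] H) (ξ k)⟫_ℂ).re)| ≤ C * tail K := by
      refine h.abs_le (fun g => ?_)
      have := hb (F g) (hC g) K
      rw [hc g] at this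
      rw [neg_one_mul, ← sub_eq_add_neg]
      exact this
    rw [h.add _ _ (Bd.const c) (h2.1.smul (-1)), h.smul _ _ h2.1, h.const, h3] at h4
    rw [neg_one_mul, ← sub_eq_add_neg, abs_sub_comm] at h4
    have h5 : (t T).re - c = ((t T).re - ∑ k ∈ Finset.range K,
        (⟪ξ k, (T : H →L[ℂ] H) (ξ k)⟫_ℂ).re) + (∑ k ∈ Finset.range K,
        (⟪ξ k, (T : H →L[ℂ] H) (ξ k)⟫_ℂ).re - c) := by ring
    rw [h5]
    refine (abs_add_le _ _).trans ?_
    linarith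
  have h6 : Tendsto (fun K => 2 * C * tail K) atTop (𝓝 (2 * C * 0)) := htail0.const_mul _
  rw [mul_zero] at h6
  have h7 : |(t T).re - c| ≤ 0 := ge_of_tendsto' h6 hmain
  have h8 := abs_eq_zero.1 (le_antisymm h7 (abs_nonneg _))
  linarith

end Pool.Agent.Y323.KK
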