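import Mathlib
import Pool.Agent.Y323.KK.Mean

/-!
A commutative group of unitaries which is uniformly close to a commutant can be moved into it by a
unitary close to one.
-/

set_option autoImplicit false

open scoped InnerProductSpace ComplexConjugate

namespace Pool.Agent.Y323.KK

open Pool.Agent.W861.AM

section cayley

variable {B : Type*} [NormedRing B] [StarRing B] [CStarRing B]

theorem norm_one_le' : ‖(1 : B)‖ ≤ 1 := by
  have h : ‖(1 : B)‖ * ‖(1 : B)‖ = ‖(1 : B)‖ := by
    have := CStarRing.norm_star_mul_self (x := (1 : B))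
    rw [star_one, one_mul] at this
    exact this.symm
  by_contra hc
  push Not at hc
  nlinarith

theorem norm_unitary_le {u : B} (hu : u ∈ unitary B) : ‖u‖ ≤ 1 := by
  have h : ‖u‖ * ‖u‖ = ‖(1 : B)‖ := by
    rw [← CStarRing.norm_star_mul_self, Unitary.star_mul_self_of_mem hu]
  have h1 := norm_one_le' (B := B)
  by_contra hc
  push Not at hc
  nlinarith [norm_nonneg u]

variable [NormedAlgebra ℂ B] [StarModule ℂ B] [CompleteSpace B]

/-- Cayley transform of a small skew adjoint element. -/
theorem exists_cayley (a : B) (ha : star a = -a) {d : ℝ} (hd : ‖a‖ ≤ d) (hd1 : d ≤ 1 / 2) :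
    ∃ w ∈ unitary B, ‖w - 1‖ ≤ 2 * d ∧ ‖w - 1 - a‖ ≤ d ^ 2 ∧
      ∀ z : B, z * a = a * z → z * w = w * z := by
  set t : B := (1 / 2 : ℂ) • a with ht
  have hd0 : 0 ≤ d := (norm_nonneg _).trans hd
  have htn : ‖t‖ ≤ d / 2 := by
    rw [ht, norm_smul]
    have : ‖(1 / 2 : ℂ)‖ = 1 / 2 := by norm_num
    rw [this]; linarith
  have hts : star t = -t := by
    rw [ht, star_smul, ha, smul_neg]
    congr 2
    simp
  have h2 : a = t + t := by
    rw [ht, ← add_smul]; norm_num
  have hlt : ‖t‖ < 1 := by linarith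
  have hlt' : ‖-t‖ < 1 := by rw [norm_neg]; exact hlt
  set v : Bˣ := Units.oneSub t hlt with hv
  set v' : Bˣ := Units.oneSub (-t) hlt' with hv'
  have e1 : (v : B) = 1 - t := rfl
  have e2 : (v' : B) = 1 - (-t) := rfl
  set r : B := (↑v⁻¹ : B) with hr
  have er : (1 - t) * r = 1 := by rw [← e1, hr]; exact v.mul_inv
  have er' : r * (1 - t) = 1 := by rw [← e1, hr]; exact v.inv_mul
  set s : B := (↑v'⁻¹ : B) with hs
  have es : (1 + t) * s = 1 := by
    have : (1 + t) = (v' : B) := by rw [e2, sub_neg_eq_add]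
    rw [this, hs]; exact v'.mul_inv
  have es' : s * (1 + t) = 1 := by
    have : (1 + t) = (v' : B) := by rw [e2, sub_neg_eq_add]
    rw [this, hs]; exact v'.inv_mul
  have hrs : star r = s := by
    have h3 : (1 + t) * star r = 1 := by
      have := congrArg star er'
      rw [star_mul, star_one, star_sub, star_one, hts, sub_neg_eq_add] at this
      exact this
    calc star r = (s * (1 + t)) * star r := by rw [es', one_mul]
      _ = s := by rw [mul_assoc, h3, mul_one]
  have hc1 : (1 + t) * (1 - t) = (1 - t) * (1 + t) := by noncomm_ring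
  have hcr : (1 + t) * r = r * (1 + t) := by
    calc (1 + t) * r = (r * (1 - t)) * ((1 + t) * r) := by rw [er', one_mul]
      _ = r * ((1 - t) * (1 + t)) * r := by noncomm_ring
      _ = r * ((1 + t) * (1 - t)) * r := by rw [hc1]
      _ = r * (1 + t) * ((1 - t) * r) := by noncomm_ring
      _ = r * (1 + t) := by rw [er, mul_one]
  have hw1 : star ((1 + t) * r) * ((1 + t) * r) = 1 := by
    rw [star_mul, hrs, star_add, star_one, hts]
    calc s * (1 + -t) * ((1 + t) * r) = s * ((1 - t) * (1 + t)) * r := by noncomm_ring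
      _ = s * ((1 + t) * (1 - t)) * r := by rw [hc1]
      _ = (s * (1 + t)) * ((1 - t) * r) := by noncomm_ring
      _ = 1 := by rw [es', er, one_mul]
  have hw2 : ((1 + t) * r) * star ((1 + t) * r) = 1 := by
    rw [star_mul, hrs, star_add, star_one, hts]
    rw [hcr]
    have hcs : s * (1 + -t) = (1 + -t) * s := by
      have := congrArg star hcr
      rw [star_mul, star_mul, star_add, star_one, hts, hrs] at this
      exact this
    rw [hcs]
    calc r * (1 + t) * ((1 + -t) * s) = r * ((1 + t) * (1 - t)) * s := by noncomm_ring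
      _ = r * ((1 - t) * (1 + t)) * s := by rw [hc1]
      _ = (r * (1 - t)) * ((1 + t) * s) := by noncomm_ring
      _ = 1 := by rw [es, er', one_mul]
  have hrn : ‖r‖ ≤ 2 := by
    have h3 : r = 1 + t * r := by
      have : (1 - t) * r = r - t * r := by noncomm_ring
      rw [this] at er
      rw [← er]; abel
    have h4 : ‖r‖ ≤ 1 + ‖t‖ * ‖r‖ := by
      calc ‖r‖ = ‖1 + t * r‖ := by rw [← h3]
        _ ≤ ‖(1 : B)‖ + ‖t * r‖ := norm_add_le _ _
        _ ≤ 1 + ‖t‖ * ‖r‖ := add_le_add norm_one_le' (norm_mul_le _ _)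
    nlinarith [norm_nonneg r, norm_nonneg t]
  have hw3 : (1 + t) * r - 1 = a * r := by
    calc (1 + t) * r - 1 = (1 + t) * r - (1 - t) * r := by rw [er]
      _ = (t + t) * r := by noncomm_ring
      _ = a * r := by rw [← h2]
  have hw4 : (1 + t) * r - 1 - a = a * (t * r) := by
    rw [hw3]
    have h3 : t * r = r - 1 := by
      have : (1 - t) * r = r - t * r := by noncomm_ring
      rw [this] at er
      rw [← er]; abel
    rw [h3]; noncomm_ring
  refine ⟨(1 + t) * r, ⟨hw1, hw2⟩, ?_, ?_, ?_⟩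
  · rw [hw3]
    refine (norm_mul_le _ _).trans ?_
    nlinarith [norm_nonneg a, norm_nonneg r]
  · rw [hw4]
    have h5 : ‖t * r‖ ≤ d := (norm_mul_le _ _).trans (by nlinarith [norm_nonneg t, norm_nonneg r])
    refine (norm_mul_le _ _).trans ?_
    nlinarith [norm_nonneg a, norm_nonneg (t * r)]
  · intro z hz
    have hzt : z * t = t * z := by
      rw [ht, mul_smul_comm, smul_mul_assoc, hz]
    have hz1 : z * (1 - t) = (1 - t) * z := by
      rw [mul_sub, sub_mul, hzt, mul_one, one_mul]
    have hzr : z * r = r * z := by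
      calc z * r = (r * (1 - t)) * (z * r) := by rw [er', one_mul]
        _ = r * ((1 - t) * z) * r := by noncomm_ring
        _ = r * (z * (1 - t)) * r := by rw [hz1]
        _ = r * z * ((1 - t) * r) := by noncomm_ring
        _ = r * z := by rw [er, mul_one]
    calc z * ((1 + t) * r) = z * r + (z * t) * r := by noncomm_ring
      _ = r * z + (t * z) * r := by rw [hzr, hzt]
      _ = r * z + t * (z * r) := by rw [mul_assoc t]
      _ = r * z + t * (r * z) := by rw [hzr]
      _ = (1 + t) * r * z := by noncomm_ring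

end cayley

section newton

variable {L : Type*} [NormedAddCommGroup L] [InnerProductSpace ℂ L] [CompleteSpace L]

/-- The family `U` is within `δ` of the commutant of `S`. -/
def Nr {G : Type*} (S : Set (L →L[ℂ] L)) (U : G → L →L[ℂ] L) (δ : ℝ) : Prop :=
  ∀ g, ∃ n ∈ S.centralizer, ‖n - U g‖ ≤ δ

theorem mem_cent_of_lim {G : Type*} {μ : (G → ℝ) → ℝ} {S : Set (L →L[ℂ] L)}
    {F : G → L →L[ℂ] L} {T : L →L[ℂ] L} (hT : IsLim μ F T) (hF : ∀ g, F g ∈ S.centralizer) :
    T ∈ S.centralizer := by
  rw [Set.mem_centralizer_iff]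
  intro z hz
  exact hT.comm (fun g => (Set.mem_centralizer_iff.1 (hF g)) z hz)

theorem star_mem_cent {S : Set (L →L[ℂ] L)} (hS : ∀ s ∈ S, star s ∈ S) {c : L →L[ℂ] L}
    (hc : c ∈ S.centralizer) : star c ∈ S.centralizer := by
  rw [Set.mem_centralizer_iff] at *
  intro m hm
  have := congrArg star (hc _ (hS m hm))
  rw [star_mul, star_mul, star_star] at this
  exact this.symm

theorem sub_mem_cent {S : Set (L →L[ℂ] L)} {a b : L →L[ℂ] L}
    (ha : a ∈ S.centralizer) (hb : b ∈ S.centralizer) : a - b ∈ S.centralizer := by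
  rw [Set.mem_centralizer_iff] at *
  intro m hm
  rw [mul_sub, sub_mul, ha m hm, hb m hm]

theorem smul_mem_cent {S : Set (L →L[ℂ] L)} {c : L →L[ℂ] L} (r : ℂ)
    (hc : c ∈ S.centralizer) : r • c ∈ S.centralizer := by
  rw [Set.mem_centralizer_iff] at *
  intro m hm
  rw [mul_smul_comm, smul_mul_assoc, hc m hm]

variable {G : Type} [CommGroup G]

/-- One step of the iteration. -/
theorem newton_step (S : Set (L →L[ℂ] L)) (hS : ∀ s ∈ S, star s ∈ S)
    (U : G → L →L[ℂ] L) (hU : ∀ g, U g ∈ unitary (L →L[ℂ] L)) (hm : ∀ g h, U (g * h) = U g * U h)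
    {δ : ℝ} (hδ : δ ≤ 1 / 100) (hN : Nr S U δ)
    (Z : Set (L →L[ℂ] L)) (hZ : ∀ z ∈ Z, star z ∈ Z) (hZU : ∀ z ∈ Z, ∀ g, z * U g = U g * z)
    (hZS : ∀ z ∈ Z, ∀ c ∈ S.centralizer, z * c = c * z) :
    ∃ w ∈ unitary (L →L[ℂ] L), ‖w - 1‖ ≤ 2 * δ ∧ Nr S (fun g => w * U g * star w) (δ / 2) ∧
      ∀ z ∈ Z, z * w = w * z := by
  obtain ⟨μ, hμ, hinv⟩ := exists_mean G
  choose n hnC hn using hN
  have hδ0 : 0 ≤ δ := (norm_nonneg _).trans (hn 1)
  have hU1 : ∀ g, ‖U g‖ ≤ 1 := fun g => norm_unitary_le (hU g)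
  have hU1s : ∀ g, ‖star (U g)‖ ≤ 1 := fun g => by rw [norm_star]; exact hU1 g
  have hn1 : ∀ g, ‖n g‖ ≤ 1 + δ := by
    intro g
    calc ‖n g‖ = ‖(n g - U g) + U g‖ := by rw [sub_add_cancel]
      _ ≤ ‖n g - U g‖ + ‖U g‖ := norm_add_le _ _
      _ ≤ 1 + δ := by linarith [hn g, hU1 g]
  have hss : ∀ g, star (U g) * U g = 1 := fun g => Unitary.star_mul_self_of_mem (hU g)
  have hss' : ∀ g, U g * star (U g) = 1 := fun g => Unitary.mul_star_self_of_mem (hU g)
  -- the average of `n g * star (U g)`
  have hFb : ∀ g, ‖n g * star (U g)‖ ≤ (1 + δ) := by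
    intro g
    refine (norm_mul_le _ _).trans ?_
    nlinarith [hn1 g, hU1s g, norm_nonneg (n g), norm_nonneg (star (U g))]
  have hOF : OBd (fun g => n g * star (U g)) := ⟨_, hFb⟩
  obtain ⟨x, hx⟩ := exists_lim hμ hOF
  have hx1 : ‖x - 1‖ ≤ δ := by
    refine hx.dist_le hμ hOF (fun g => ?_)
    have : n g * star (U g) - 1 = (n g - U g) * star (U g) := by
      rw [sub_mul, hss' g]
    rw [this]
    refine (norm_mul_le _ _).trans ?_
    nlinarith [hn g, hU1s g, norm_nonneg (n g - U g), norm_nonneg (star (U g))]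
  have hxZ : ∀ z ∈ Z, z * x = x * z := by
    intro z hz
    refine hx.comm (fun g => ?_)
    have h1 : z * n g = n g * z := hZS z hz _ (hnC g)
    have h2 : z * star (U g) = star (U g) * z := by
      have := congrArg star (hZU _ (hZ z hz) g)
      rw [star_mul, star_mul, star_star] at this
      exact this.symm
    rw [← mul_assoc, h1, mul_assoc, h2, mul_assoc]
  set k : L →L[ℂ] L := x - 1 with hk
  -- the key estimate
  have key : ∀ h, ∃ c ∈ S.centralizer, ‖U h + k * U h - U h * k - c‖ ≤ 8 * δ ^ 2 := by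
    intro h
    let cc : G → L →L[ℂ] L := fun g => n h * n g - n (h * g)
    have hcc : ∀ g, ‖cc g‖ ≤ 3 * δ + δ ^ 2 := by
      intro g
      have e : cc g = (n h - U h) * n g + U h * (n g - U g) - (n (h * g) - U (h * g)) := by
        show n h * n g - n (h * g) = _
        rw [hm]; noncomm_ring
      rw [e]
      refine (norm_sub_le _ _).trans ?_
      have a1 : ‖(n h - U h) * n g + U h * (n g - U g)‖ ≤ δ * (1 + δ) + 1 * δ := by
        refine (norm_add_le _ _).trans (add_le_add ?_ ?_)
        · exact (norm_mul_le _ _).trans (mul_le_mul (hn h) (hn1 g) (norm_nonneg _) hδ0)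
        · exact (norm_mul_le _ _).trans (mul_le_mul (hU1 h) (hn g) (norm_nonneg _) zero_le_one)
      have := hn (h * g)
      nlinarith
    have hb1 : ∀ g, ‖cc g * star (n (h * g))‖ ≤ (3 * δ + δ ^ 2) * (1 + δ) := by
      intro g
      refine (norm_mul_le _ _).trans (mul_le_mul (hcc g) ?_ (norm_nonneg _) (by positivity))
      rw [norm_star]; exact hn1 _
    have hOb : OBd (fun g => cc g * star (n (h * g))) := ⟨_, hb1⟩
    obtain ⟨b, hb⟩ := exists_lim hμ hOb
    have hccC : ∀ g, cc g ∈ S.centralizer := by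
      intro g
      exact sub_mem_cent (Set.mul_mem_centralizer (hnC h) (hnC g)) (hnC _)
    have hbC : b ∈ S.centralizer :=
      mem_cent_of_lim hb (fun g => Set.mul_mem_centralizer (hccC g) (star_mem_cent hS (hnC _)))
    refine ⟨n h - b * n h, sub_mem_cent (hnC h)
      (Set.mul_mem_centralizer hbC (hnC h)), ?_⟩
    -- x * U h as a limit
    have hx2 : IsLim μ (fun g => n (h * g) * star (U g)) (x * U h) := by
      have h1 := (IsLim.shift hOF hx h (hinv h)).mulR (U h)
      have e : (fun g => (fun x => n x * star (U x)) (h * g) * U h) =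
          fun g => n (h * g) * star (U g) := by
        funext g
        show n (h * g) * star (U (h * g)) * U h = _
        rw [hm, star_mul, mul_assoc, mul_assoc, hss h, mul_one]
      rw [← e]; exact h1
    have hx3 : IsLim μ (fun g => n h * (n g * star (U g))) (n h * x) := hx.mulL (n h)
    have hO2 : OBd (fun g => n (h * g) * star (U g)) := by
      refine ⟨(1 + δ) * 1, fun g => (norm_mul_le _ _).trans (mul_le_mul (hn1 _) (hU1s g)
        (norm_nonneg _) (by positivity))⟩
    have hO3 : OBd (fun g => n h * (n g * star (U g))) := by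
      refine ⟨(1 + δ) * (1 + δ), fun g => (norm_mul_le _ _).trans (mul_le_mul (hn1 _) (hFb g)
        (norm_nonneg _) (by positivity))⟩
    have hx4 := IsLim.sub hμ hO2 hO3 hx2 hx3
    have hx5 : IsLim μ (fun g => (cc g * star (n (h * g))) * n h) (b * n h) := hb.mulR (n h)
    have hO4 : OBd (fun g => (cc g * star (n (h * g))) * n h) := by
      refine ⟨((3 * δ + δ ^ 2) * (1 + δ)) * (1 + δ), fun g => (norm_mul_le _ _).trans
        (mul_le_mul (hb1 g) (hn1 h) (norm_nonneg _) (by positivity))⟩
    have hO5 : OBd (fun g => n (h * g) * star (U g) - n h * (n g * star (U g))) := by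
      obtain ⟨C1, h1⟩ := hO2
      obtain ⟨C2, h2⟩ := hO3
      exact ⟨C1 + C2, fun g => (norm_sub_le _ _).trans (add_le_add (h1 g) (h2 g))⟩
    have hx6 := IsLim.add hμ hO5 hO4 hx4 hx5
    have hest : ‖x * U h - n h * x + b * n h‖ ≤ (3 * δ + δ ^ 2) * (2 * δ + δ ^ 2) := by
      refine hx6.norm_le hμ (fun g => ?_)
      have e : n (h * g) * star (U g) - n h * (n g * star (U g)) +
          cc g * star (n (h * g)) * n h = - (cc g * (star (U g) - star (n (h * g)) * n h)) := by
        show n (h * g) * star (U g) - n h * (n g * star (U g)) +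
          (n h * n g - n (h * g)) * star (n (h * g)) * n h =
          - ((n h * n g - n (h * g)) * (star (U g) - star (n (h * g)) * n h))
        noncomm_ring
      rw [e, norm_neg]
      refine (norm_mul_le _ _).trans (mul_le_mul (hcc g) ?_ (norm_nonneg _) (by positivity))
      have e2 : star (U g) - star (n (h * g)) * n h =
          -(star (n (h * g) - U (h * g)) * U h + star (n (h * g)) * (n h - U h)) := by
        have : star (U (h * g)) * U h = star (U g) := by
          rw [hm, star_mul, mul_assoc, hss h, mul_one]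
        rw [← this, star_sub]; noncomm_ring
      rw [e2, norm_neg]
      have a1 : ‖star (n (h * g) - U (h * g)) * U h‖ ≤ δ * 1 := by
        refine (norm_mul_le _ _).trans (mul_le_mul ?_ (hU1 h) (norm_nonneg _) hδ0)
        rw [norm_star]; exact hn _
      have a2 : ‖star (n (h * g)) * (n h - U h)‖ ≤ (1 + δ) * δ := by
        refine (norm_mul_le _ _).trans (mul_le_mul ?_ (hn h) (norm_nonneg _) (by positivity))
        rw [norm_star]; exact hn1 _
      have := norm_add_le (star (n (h * g) - U (h * g)) * U h) (star (n (h * g)) * (n h - U h))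
      nlinarith
    have e3 : U h + k * U h - U h * k - (n h - b * n h) =
        (x * U h - n h * x + b * n h) + (n h - U h) * k := by
      have hx' : x = 1 + k := by rw [hk]; abel
      rw [hx']; noncomm_ring
    rw [e3]
    refine (norm_add_le _ _).trans ?_
    have a3 : ‖(n h - U h) * k‖ ≤ δ * δ :=
      (norm_mul_le _ _).trans (mul_le_mul (hn h) hx1 (norm_nonneg _) hδ0)
    have q1 : δ ^ 2 ≤ δ * (1 / 100) := by
      rw [sq]; exact mul_le_mul_of_nonneg_left hδ hδ0
    have q2 : (3 * δ + δ ^ 2) * (2 * δ + δ ^ 2) ≤ (3.01 * δ) * (2.01 * δ) :=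
      mul_le_mul (by linarith) (by linarith) (by positivity) (by positivity)
    nlinarith
  -- skew part
  set a : L →L[ℂ] L := (1 / 2 : ℂ) • (k - star k) with ha
  have hhalf : star (1 / 2 : ℂ) = 1 / 2 := by simp
  have has : star a = -a := by
    rw [ha, star_smul, star_sub, star_star, hhalf, ← smul_neg, neg_sub]
  have han : ‖a‖ ≤ δ := by
    rw [ha, norm_smul]
    have h1 : ‖(1 / 2 : ℂ)‖ = 1 / 2 := by norm_num
    have h2 : ‖k - star k‖ ≤ δ + δ :=
      (norm_sub_le _ _).trans (add_le_add hx1 (by rw [norm_star]; exact hx1))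
    rw [h1]; linarith
  have haZ : ∀ z ∈ Z, z * a = a * z := by
    intro z hz
    have h1 : z * k = k * z := by
      rw [hk, mul_sub, sub_mul, hxZ z hz, mul_one, one_mul]
    have h2 : z * star k = star k * z := by
      have h3 : star z * k = k * star z := by
        rw [hk, mul_sub, sub_mul, hxZ _ (hZ z hz), mul_one, one_mul]
      have := congrArg star h3
      rw [star_mul, star_mul, star_star] at this
      exact this.symm
    rw [ha, mul_smul_comm, smul_mul_assoc, mul_sub, sub_mul, h1, h2]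
  have hU1' : U 1 = 1 := by
    have h1 := hm 1 1
    rw [mul_one] at h1
    calc U 1 = (star (U 1) * U 1) * U 1 := by rw [hss, one_mul]
      _ = star (U 1) * (U 1 * U 1) := by rw [mul_assoc]
      _ = 1 := by rw [← h1, hss]
  have hinvU : ∀ h, U h⁻¹ = star (U h) := by
    intro h
    have h1 : U h * U h⁻¹ = 1 := by rw [← hm, mul_inv_cancel, hU1']
    calc U h⁻¹ = (star (U h) * U h) * U h⁻¹ := by rw [hss, one_mul]
      _ = star (U h) := by rw [mul_assoc, h1, mul_one]
  have key2 : ∀ h, ∃ c ∈ S.centralizer, ‖U h + a * U h - U h * a - c‖ ≤ 8 * δ ^ 2 := by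
    intro h
    obtain ⟨c1, hc1, h1⟩ := key h
    obtain ⟨c2, hc2, h2⟩ := key h⁻¹
    refine ⟨(1 / 2 : ℂ) • (c1 + star c2), smul_mem_cent _ (Set.add_mem_centralizer hc1
      (star_mem_cent hS hc2)), ?_⟩
    have e : U h + a * U h - U h * a - (1 / 2 : ℂ) • (c1 + star c2) =
        (1 / 2 : ℂ) • ((U h + k * U h - U h * k - c1) +
          star (U h⁻¹ + k * U h⁻¹ - U h⁻¹ * k - c2)) := by
      rw [hinvU, star_sub, star_sub, star_add, star_mul, star_mul, star_star, ha]
      rw [smul_mul_assoc, mul_smul_comm]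
      have e2 : U h = (1 / 2 : ℂ) • (U h + U h) := by
        rw [← two_smul ℂ (U h), smul_smul]; norm_num
      have e3 : (1 / 2 : ℂ) • (U h + k * U h - U h * k - c1 +
          (U h + U h * star k - star k * U h - star c2)) =
          (1 / 2 : ℂ) • (U h + U h) + (1 / 2 : ℂ) • ((k - star k) * U h) -
          (1 / 2 : ℂ) • (U h * (k - star k)) - (1 / 2 : ℂ) • (c1 + star c2) := by
        rw [← smul_add, ← smul_sub, ← smul_sub]
        congr 1
        noncomm_ring
      rw [e3, ← e2]
    rw [e, norm_smul]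
    have h3 : ‖(1 / 2 : ℂ)‖ = 1 / 2 := by norm_num
    rw [h3]
    have h4 := norm_add_le (U h + k * U h - U h * k - c1)
      (star (U h⁻¹ + k * U h⁻¹ - U h⁻¹ * k - c2))
    rw [norm_star] at h4
    linarith
  obtain ⟨w, hw, hw1, hw2, hw3⟩ := exists_cayley a has han (by linarith)
  refine ⟨w, hw, hw1, ?_, fun z hz => hw3 z (haZ z hz)⟩
  intro h
  obtain ⟨c, hc, hc1⟩ := key2 h
  refine ⟨c, hc, ?_⟩
  have hws : ‖star w‖ ≤ 1 := by rw [norm_star]; exact norm_unitary_le hw
  have hw2s : ‖star w - 1 + a‖ ≤ δ ^ 2 := by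
    have : star w - 1 + a = star (w - 1 - a) := by
      rw [star_sub, star_sub, star_one, has, sub_neg_eq_add]
    rw [this, norm_star]; exact hw2
  have e : c - w * U h * star w = -((U h + a * U h - U h * a - c) + (w - 1 - a) * U h * star w +
      (1 + a) * U h * (star w - 1 + a) - a * U h * a) := by
    noncomm_ring
  rw [e, norm_neg]
  have b1 : ‖(w - 1 - a) * U h * star w‖ ≤ δ ^ 2 * 1 * 1 :=
    (norm_mul_le _ _).trans (mul_le_mul ((norm_mul_le _ _).trans (mul_le_mul hw2 (hU1 h)
      (norm_nonneg _) (by positivity))) hws (norm_nonneg _) (by positivity))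
  have b0 : ‖(1 : L →L[ℂ] L) + a‖ ≤ 1 + δ :=
    (norm_add_le _ _).trans (add_le_add norm_one_le' han)
  have b2 : ‖(1 + a) * U h * (star w - 1 + a)‖ ≤ (1 + δ) * 1 * δ ^ 2 :=
    (norm_mul_le _ _).trans (mul_le_mul ((norm_mul_le _ _).trans (mul_le_mul b0 (hU1 h)
      (norm_nonneg _) (by positivity))) hw2s (norm_nonneg _) (by positivity))
  have b3 : ‖a * U h * a‖ ≤ δ * 1 * δ :=
    (norm_mul_le _ _).trans (mul_le_mul ((norm_mul_le _ _).trans (mul_le_mul han (hU1 h)
      (norm_nonneg _) hδ0)) han (norm_nonneg _) (by positivity))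
  have b4 := norm_sub_le ((U h + a * U h - U h * a - c) + (w - 1 - a) * U h * star w +
      (1 + a) * U h * (star w - 1 + a)) (a * U h * a)
  have b5 := norm_add_le ((U h + a * U h - U h * a - c) + (w - 1 - a) * U h * star w)
      ((1 + a) * U h * (star w - 1 + a))
  have b6 := norm_add_le (U h + a * U h - U h * a - c) ((w - 1 - a) * U h * star w)
  nlinarith

end newton

end Pool.Agent.Y323.KK
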