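import Mathlib
import Pool.Agent.Y323.KK.Near

/-!
A commutative group of unitaries which is uniformly close to a commutant can be moved into it by a
unitary close to one: the iteration.
-/

set_option autoImplicit false

open scoped InnerProductSpace ComplexConjugate
open Filter Topology

namespace Pool.Agent.Y323.KK

open Pool.Agent.W861.AM

variable {L : Type*} [NormedAddCommGroup L] [InnerProductSpace ℂ L] [CompleteSpace L]
variable {G : Type} [CommGroup G]

theorem near_group (S : Set (L →L[ℂ] L)) (hS : ∀ s ∈ S, star s ∈ S)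
    (U : G → L →L[ℂ] L) (hU : ∀ g, U g ∈ unitary (L →L[ℂ] L)) (hm : ∀ g h, U (g * h) = U g * U h)
    {δ : ℝ} (hδ : δ ≤ 1 / 100) (hN : Nr S U δ)
    (Z : Set (L →L[ℂ] L)) (hZ : ∀ z ∈ Z, star z ∈ Z) (hZU : ∀ z ∈ Z, ∀ g, z * U g = U g * z)
    (hZS : ∀ z ∈ Z, ∀ c ∈ S.centralizer, z * c = c * z) :
    ∃ u ∈ unitary (L →L[ℂ] L), ‖u - 1‖ ≤ 4 * δ ∧
      (∀ g, u * U g * star u ∈ S.centralizer) ∧ ∀ z ∈ Z, z * u = u * z := by
  have hδ0 : 0 ≤ δ := by
    obtain ⟨n, -, hn⟩ := hN 1
    exact (norm_nonneg _).trans hn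
  let P : ℕ → (L →L[ℂ] L) → Prop := fun n w =>
    w ∈ unitary (L →L[ℂ] L) ∧ Nr S (fun g => w * U g * star w) (δ / 2 ^ n) ∧
      ∀ z ∈ Z, z * w = w * z
  have base : P 0 1 := by
    refine ⟨one_mem _, ?_, fun z _ => by rw [mul_one, one_mul]⟩
    intro g
    obtain ⟨n, h1, h2⟩ := hN g
    refine ⟨n, h1, ?_⟩
    show ‖n - 1 * U g * star 1‖ ≤ δ / 2 ^ 0
    rw [star_one, mul_one, one_mul, pow_zero, div_one]
    exact h2
  have step : ∀ n w, P n w → ∃ w', P (n + 1) w' ∧ ‖w' - w‖ ≤ 2 * (δ / 2 ^ n) := by
    rintro n w ⟨hw, hw1, hw2⟩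
    have hwU : ∀ g, w * U g * star w ∈ unitary (L →L[ℂ] L) := fun g =>
      mul_mem (mul_mem hw (hU g)) (Unitary.star_mem hw)
    have hwm : ∀ g h, w * U (g * h) * star w = (w * U g * star w) * (w * U h * star w) := by
      intro g h
      have e : star w * w = 1 := Unitary.star_mul_self_of_mem hw
      calc w * U (g * h) * star w = w * U g * 1 * U h * star w := by rw [hm]; noncomm_ring
        _ = w * U g * (star w * w) * U h * star w := by rw [e]
        _ = _ := by noncomm_ring
    have hδn : δ / 2 ^ n ≤ 1 / 100 := by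
      refine le_trans ?_ hδ
      exact div_le_self hδ0 (one_le_pow₀ (by norm_num))
    have hzs : ∀ z ∈ Z, z * star w = star w * z := by
      intro z hz
      have := congrArg star (hw2 _ (hZ z hz))
      rw [star_mul, star_mul, star_star] at this
      exact this.symm
    obtain ⟨v, hv, hv1, hv2, hv3⟩ := newton_step S hS (fun g => w * U g * star w) hwU hwm hδn hw1 Z
      hZ (fun z hz g => by
        rw [← mul_assoc, ← mul_assoc, hw2 z hz, mul_assoc w, hZU z hz, ← mul_assoc,
          mul_assoc (w * U g) z, hzs z hz, ← mul_assoc]) hZS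
    refine ⟨v * w, ⟨mul_mem hv hw, ?_, ?_⟩, ?_⟩
    · intro g
      obtain ⟨c, hc, hc1⟩ := hv2 g
      refine ⟨c, hc, ?_⟩
      have e : (v * w) * U g * star (v * w) = v * (w * U g * star w) * star v := by
        rw [star_mul]; noncomm_ring
      show ‖c - (v * w) * U g * star (v * w)‖ ≤ δ / 2 ^ (n + 1)
      rw [e, pow_succ, ← div_div]
      exact hc1
    · intro z hz
      rw [← mul_assoc, hv3 z hz, mul_assoc, hw2 z hz, mul_assoc]
    · have e : v * w - w = (v - 1) * w := by rw [sub_mul, one_mul]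
      rw [e]
      refine (norm_mul_le _ _).trans ?_
      have := norm_unitary_le hw
      nlinarith [norm_nonneg (v - 1), norm_nonneg w]
  let f : (n : ℕ) → {w // P n w} := fun n =>
    Nat.rec ⟨1, base⟩ (fun n w => ⟨(step n w.1 w.2).choose, (step n w.1 w.2).choose_spec.1⟩) n
  have hf : ∀ n, ‖(f (n + 1)).1 - (f n).1‖ ≤ 2 * (δ / 2 ^ n) := fun n =>
    (step n (f n).1 (f n).2).choose_spec.2
  have hd : ∀ n, dist ((fun n => (f n).1) n) ((fun n => (f n).1) (n + 1)) ≤ 4 * δ / 2 / 2 ^ n := by
    intro n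
    rw [dist_comm, dist_eq_norm]
    refine (hf n).trans (le_of_eq ?_)
    ring
  have hcau := cauchySeq_of_le_geometric_two hd
  obtain ⟨u, hu⟩ := cauchySeq_tendsto_of_complete hcau
  have hu0 := dist_le_of_le_geometric_two_of_tendsto₀ hd hu
  have hst : Tendsto (fun n => star (f n).1) atTop (𝓝 (star u)) := hu.star
  refine ⟨u, ?_, ?_, ?_, ?_⟩
  · constructor
    · have h1 : Tendsto (fun n => star (f n).1 * (f n).1) atTop (𝓝 (star u * u)) := hst.mul hu
      have h2 : (fun n => star (f n).1 * (f n).1) = fun _ => 1 := by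
        funext n
        exact Unitary.star_mul_self_of_mem (f n).2.1
      rw [h2] at h1
      exact tendsto_nhds_unique h1 tendsto_const_nhds
    · have h1 : Tendsto (fun n => (f n).1 * star (f n).1) atTop (𝓝 (u * star u)) := hu.mul hst
      have h2 : (fun n => (f n).1 * star (f n).1) = fun _ => 1 := by
        funext n
        exact Unitary.mul_star_self_of_mem (f n).2.1
      rw [h2] at h1
      exact tendsto_nhds_unique h1 tendsto_const_nhds
  · rw [dist_comm, dist_eq_norm] at hu0
    exact hu0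
  · intro g
    have h1 : Tendsto (fun n => (f n).1 * U g * star (f n).1) atTop (𝓝 (u * U g * star u)) :=
      (hu.mul tendsto_const_nhds).mul hst
    choose c hc hc1 using fun n => (f n).2.2.1 g
    have h2 : Tendsto (fun n => c n - (f n).1 * U g * star (f n).1) atTop (𝓝 0) := by
      rw [tendsto_zero_iff_norm_tendsto_zero]
      refine squeeze_zero (fun n => norm_nonneg _) hc1 ?_
      have h3 : Tendsto (fun n : ℕ => δ * (1 / 2 : ℝ) ^ n) atTop (𝓝 (δ * 0)) :=
        (tendsto_pow_atTop_nhds_zero_of_lt_one (by norm_num) (by norm_num)).const_mul δ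
      rw [mul_zero] at h3
      refine h3.congr (fun n => ?_)
      rw [one_div, inv_pow, div_eq_mul_inv]
    have h4 : Tendsto c atTop (𝓝 (u * U g * star u)) := by
      have := h2.add h1
      rw [zero_add] at this
      refine this.congr (fun n => ?_)
      rw [sub_add_cancel]
    rw [Set.mem_centralizer_iff]
    intro s hs
    have h5 : Tendsto (fun n => s * c n) atTop (𝓝 (s * (u * U g * star u))) :=
      tendsto_const_nhds.mul h4
    have h6 : Tendsto (fun n => c n * s) atTop (𝓝 ((u * U g * star u) * s)) :=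
      h4.mul tendsto_const_nhds
    have h7 : (fun n => s * c n) = fun n => c n * s := by
      funext n
      exact Set.mem_centralizer_iff.1 (hc n) s hs
    rw [h7] at h5
    exact tendsto_nhds_unique h5 h6
  · intro z hz
    have h5 : Tendsto (fun n => z * (f n).1) atTop (𝓝 (z * u)) := tendsto_const_nhds.mul hu
    have h6 : Tendsto (fun n => (f n).1 * z) atTop (𝓝 (u * z)) := hu.mul tendsto_const_nhds
    have h7 : (fun n => z * (f n).1) = fun n => (f n).1 * z := by
      funext n
      exact (f n).2.2.2 z hz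
    rw [h7] at h5
    exact tendsto_nhds_unique h5 h6

end Pool.Agent.Y323.KK
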