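import Mathlib
import Pool.Agent.H518R4.UG.FCT
import Pool.Agent.H518R5.SC.CMP
import Pool.Agent.H518R5.SC.SPLITz
import Pool.Agent.H518R5.SC.FSC
import Pool.Agent.H518R5.SC.POLC
import Pool.Agent.Y323.KK.Amp
import Pool.Agent.Y323.KK.NearG

/-!
Close projections of close II_1 factors have the same trace.
-/

set_option autoImplicit false

open scoped InnerProductSpace ComplexConjugate ComplexOrder

namespace Pool.Agent.Y323.KK

open Pool.Agent.H467F Pool.Agent.H518R4.UG Pool.Agent.H518R5.SC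

section abstract

theorem prj_norm_le {A : Type*} [CStarAlgebra A] {p : A} (hp : star p = p ∧ p * p = p) :
    ‖p‖ ≤ 1 := by
  have h : ‖p‖ * ‖p‖ = ‖p‖ := by
    have := CStarRing.norm_star_mul_self (x := p)
    rw [hp.1, hp.2] at this
    exact this.symm
  by_contra hc
  push Not at hc
  nlinarith

/-- If `w` is close to a partial isometry from `q` into `q'` then `q` has smaller trace. -/
theorem lemC {A : Type} [CStarAlgebra A] {τ : A →ₗ[ℂ] ℂ} (h : TW τ) {q q' w : A}
    (hq : IsPrj q) (hq' : IsPrj q') (h1 : q' * w = w) (h2 : w * q = w)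
    (h3 : ‖star w * w - q‖ < 1) : (τ q).re ≤ (τ q').re := by
  set t : A := q - star w * w with ht0
  have ht : ‖t‖ < 1 := by rw [ht0, norm_sub_rev]; exact h3
  set v : Aˣ := Units.oneSub t ht with hv
  set r : A := (↑v⁻¹ : A) with hr
  have es : (1 - t) * r = 1 := v.mul_inv
  have es' : r * (1 - t) = 1 := v.inv_mul
  have hst : star t = t := by rw [ht0, star_sub, star_mul, star_star, hq.1]
  have hrs : star r = r := by
    have h4 : star r * (1 - t) = 1 := by
      have := congrArg star es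
      rw [star_mul, star_one, star_sub, star_one, hst] at this
      exact this
    calc star r = star r * ((1 - t) * r) := by rw [es, mul_one]
      _ = r := by rw [← mul_assoc, h4, one_mul]
  have hwq : w * (1 - q) = 0 := by rw [mul_sub, mul_one, h2, sub_self]
  have hww : star w * w = (1 - t) - (1 - q) := by rw [ht0]; abel
  have hqq : (1 - q) * (1 - q) = 1 - q := by
    rw [mul_sub, mul_one, sub_mul, one_mul, hq.2, sub_self, sub_zero]
  have hsq : (1 - t) * (1 - q) = 1 - q := by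
    have : (1 - t : A) = star w * w + (1 - q) := by rw [hww]; abel
    rw [this, add_mul, hqq, mul_assoc, hwq, mul_zero, zero_add]
  have hrq : r * (1 - q) = 1 - q := by
    calc r * (1 - q) = r * ((1 - t) * (1 - q)) := by rw [hsq]
      _ = 1 - q := by rw [← mul_assoc, es', one_mul]
  have hqr : (1 - q) * r = 1 - q := by
    have := congrArg star hrq
    rw [star_mul, star_sub, star_one, hq.1, hrs] at this
    exact this
  set e : A := w * r * star w with he
  have he1 : star e = e := by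
    rw [he, star_mul, star_mul, star_star, hrs, mul_assoc]
  have he2 : e * e = e := by
    calc e * e = w * r * (star w * w) * r * star w := by rw [he]; noncomm_ring
      _ = w * (r * (1 - t)) * r * star w - w * (r * (1 - q)) * r * star w := by
        rw [hww]; noncomm_ring
      _ = w * r * star w - (w * (1 - q)) * r * star w := by rw [es', hrq, mul_one]
      _ = e := by rw [hwq, zero_mul, zero_mul, sub_zero]
  have he3 : τ e = τ q := by
    calc τ e = τ ((star w * w) * r) := by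
          rw [he, h.comm, ← mul_assoc]
      _ = τ ((1 - t) * r - (1 - q) * r) := by rw [hww, sub_mul]
      _ = τ q := by
        rw [es, hqr]
        congr 1
        abel
  have he4 : q' * e = e := by rw [he, ← mul_assoc, ← mul_assoc, h1]
  have he5 : e * q' = e := by
    have := congrArg star he4
    rw [star_mul, he1, hq'.1] at this
    exact this
  have h5 : star (q' - e) * (q' - e) = q' - e := by
    rw [star_sub, he1, hq'.1, sub_mul, mul_sub, mul_sub, he4, he5, he2, hq'.2]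
    abel
  have h6 := h.re_nonneg (q' - e)
  rw [h5, map_sub, Complex.sub_re, he3] at h6
  linarith

variable {A : Type} [CStarAlgebra A]

theorem prj_sub {p : A} (hp : IsPrj p) : IsPrj (1 - p) := by
  refine ⟨by rw [star_sub, star_one, hp.1], ?_⟩
  rw [mul_sub, mul_one, sub_mul, one_mul, hp.2, sub_self, sub_zero]

theorem part_mul {n : ℕ} {e : Fin n → A} {p : A} (he : IsPart e p) (a b : Fin n → ℂ) :
    (∑ i, a i • e i) * (∑ i, b i • e i) = ∑ i, (a i * b i) • e i := by
  rw [Finset.sum_mul]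
  refine Finset.sum_congr rfl (fun i _ => ?_)
  rw [Finset.mul_sum, Finset.sum_eq_single i]
  · rw [smul_mul_smul_comm, (he.prj i).2]
  · intro j _ hj
    rw [smul_mul_smul_comm, he.ort i j (Ne.symm hj), smul_zero]
  · intro h
    exact absurd (Finset.mem_univ i) h

theorem part_star {n : ℕ} {e : Fin n → A} {p : A} (he : IsPart e p) (a : Fin n → ℂ) :
    star (∑ i, a i • e i) = ∑ i, star (a i) • e i := by
  rw [star_sum]
  refine Finset.sum_congr rfl (fun i _ => ?_)
  rw [star_smul, (he.prj i).1]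

theorem part_sum_prj {n : ℕ} {e : Fin n → A} {p : A} (he : IsPart e p) (J : Finset (Fin n)) :
    IsPrj (∑ i ∈ J, e i) := by
  classical
  have h : ∑ i ∈ J, e i = ∑ i, (if i ∈ J then (1 : ℂ) else 0) • e i := by
    simp only [ite_smul, one_smul, zero_smul]
    rw [Finset.sum_ite_mem, Finset.univ_inter]
  rw [h]
  refine ⟨?_, ?_⟩
  · rw [part_star he]
    refine Finset.sum_congr rfl (fun i _ => ?_)
    split_ifs <;> simp
  · rw [part_mul he]
    refine Finset.sum_congr rfl (fun i _ => ?_)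
    split_ifs <;> simp

end abstract

section concrete

variable {H : Type} [NormedAddCommGroup H] [InnerProductSpace ℂ H] [CompleteSpace H]

theorem ii_of {N : VonNeumannAlgebra H} {t : Elt N →ₗ[ℂ] ℂ} (hN : IsIIOneFactor N (t : Elt N → ℂ)) :
    II t :=
  { fct := p_FCT H N t hN
    fs2 := p_FSC H N
    pol := p_POLC H N }

/-- Monotonicity of traces for close projections. -/
theorem lemD {M N : VonNeumannAlgebra H} {τ : Elt M →ₗ[ℂ] ℂ} {σ : Elt N →ₗ[ℂ] ℂ}
    (hM : IsIIOneFactor M (τ : Elt M → ℂ)) (hN : IsIIOneFactor N (σ : Elt N → ℂ)) {ε : ℝ}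
    (hε : ε ≤ 1 / 20) (hMN : NearB M N ε) {e f : Elt M} {e' f' : Elt N} (he : IsPrj e)
    (hf : IsPrj f) (he' : IsPrj e') (hf' : IsPrj f')
    (h1 : ‖(e : H →L[ℂ] H) - (e' : H →L[ℂ] H)‖ ≤ 1 / 20)
    (h2 : ‖(f : H →L[ℂ] H) - (f' : H →L[ℂ] H)‖ ≤ 1 / 20)
    (h3 : (τ e).re ≤ (τ f).re) : (σ e').re ≤ (σ f').re := by
  obtain ⟨v, hv1, hv2, -, -⟩ := p_CMP (Elt M) τ (ii_of hM) f e hf he h3
  have hve : v * e = v := by
    have h4 : star (v * (1 - e)) * (v * (1 - e)) = 0 := by
      rw [star_mul, star_sub, star_one, he.1]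
      calc (1 - e) * star v * (v * (1 - e)) = (1 - e) * (star v * v) * (1 - e) := by noncomm_ring
        _ = 0 := by
          rw [hv1, sub_mul, one_mul, he.2, sub_self, zero_mul]
    have h5 : v * (1 - e) = 0 := CStarRing.star_mul_self_eq_zero_iff _ |>.1 h4
    rw [mul_sub, mul_one, sub_eq_zero] at h5
    exact h5.symm
  have hvn : ‖v‖ ≤ 1 := by
    have h4 : ‖v‖ * ‖v‖ = ‖e‖ := by rw [← CStarRing.norm_star_mul_self, hv1]
    have h5 := prj_norm_le he
    by_contra hc
    push Not at hc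
    nlinarith
  obtain ⟨y, hy, hy1, hy2⟩ := hMN v v.2 hvn
  set y' : Elt N := ⟨y, hy⟩ with hy'
  have hn1 : ‖(e : H →L[ℂ] H)‖ ≤ 1 := (prj_norm_le he : ‖e‖ ≤ 1)
  have hn2 : ‖(f : H →L[ℂ] H)‖ ≤ 1 := (prj_norm_le hf : ‖f‖ ≤ 1)
  have hn3 : ‖(e' : H →L[ℂ] H)‖ ≤ 1 := (prj_norm_le he' : ‖e'‖ ≤ 1)
  have hn4 : ‖(f' : H →L[ℂ] H)‖ ≤ 1 := (prj_norm_le hf' : ‖f'‖ ≤ 1)
  have hvn' : ‖(v : H →L[ℂ] H)‖ ≤ 1 := hvn
  refine lemC (ii_of hN).fct.tw (w := f' * y' * e') he' hf' ?_ ?_ ?_
  · rw [← mul_assoc, ← mul_assoc, hf'.2]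
  · rw [mul_assoc, he'.2]
  · have hwv : ‖(f' : H →L[ℂ] H) * y * (e' : H →L[ℂ] H) - (v : H →L[ℂ] H)‖ ≤ 3 / 20 := by
      have e1 : (v : H →L[ℂ] H) = (f : H →L[ℂ] H) * (v : H →L[ℂ] H) * (e : H →L[ℂ] H) := by
        have : v = f * v * e := by rw [hv2, hve]
        exact congrArg Subtype.val this
      have e2 : (f' : H →L[ℂ] H) * y * (e' : H →L[ℂ] H) - (v : H →L[ℂ] H) =
          -(((f : H →L[ℂ] H) - (f' : H →L[ℂ] H)) * y * (e' : H →L[ℂ] H) +
          (f : H →L[ℂ] H) * ((v : H →L[ℂ] H) - y) * (e' : H →L[ℂ] H) +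
          (f : H →L[ℂ] H) * (v : H →L[ℂ] H) * ((e : H →L[ℂ] H) - (e' : H →L[ℂ] H))) := by
        conv_lhs => rw [e1]
        noncomm_ring
      rw [e2, norm_neg]
      have b1 : ‖((f : H →L[ℂ] H) - (f' : H →L[ℂ] H)) * y * (e' : H →L[ℂ] H)‖ ≤ 1 / 20 * 1 * 1 :=
        (norm_mul_le _ _).trans (mul_le_mul ((norm_mul_le _ _).trans (mul_le_mul h2 hy1
          (norm_nonneg _) (by positivity))) hn3 (norm_nonneg _) (by positivity))
      have b2 : ‖(f : H →L[ℂ] H) * ((v : H →L[ℂ] H) - y) * (e' : H →L[ℂ] H)‖ ≤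
          1 * (1 / 20) * 1 :=
        (norm_mul_le _ _).trans (mul_le_mul ((norm_mul_le _ _).trans (mul_le_mul hn2
          (hy2.trans hε) (norm_nonneg _) (by positivity))) hn3 (norm_nonneg _) (by positivity))
      have b3 : ‖(f : H →L[ℂ] H) * (v : H →L[ℂ] H) * ((e : H →L[ℂ] H) - (e' : H →L[ℂ] H))‖ ≤
          1 * 1 * (1 / 20) :=
        (norm_mul_le _ _).trans (mul_le_mul ((norm_mul_le _ _).trans (mul_le_mul hn2
          hvn' (norm_nonneg _) (by positivity))) h1 (norm_nonneg _) (by positivity))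
      have b4 := norm_add₃_le (a := ((f : H →L[ℂ] H) - (f' : H →L[ℂ] H)) * y * (e' : H →L[ℂ] H))
        (b := (f : H →L[ℂ] H) * ((v : H →L[ℂ] H) - y) * (e' : H →L[ℂ] H))
        (c := (f : H →L[ℂ] H) * (v : H →L[ℂ] H) * ((e : H →L[ℂ] H) - (e' : H →L[ℂ] H)))
      linarith
    set w : H →L[ℂ] H := (f' : H →L[ℂ] H) * y * (e' : H →L[ℂ] H) with hw
    have hwn : ‖w‖ ≤ 1 := by
      refine (norm_mul_le _ _).trans ?_
      have : ‖(f' : H →L[ℂ] H) * y‖ ≤ 1 := (norm_mul_le _ _).trans (by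
        nlinarith [norm_nonneg (f' : H →L[ℂ] H), norm_nonneg y])
      nlinarith [norm_nonneg (e' : H →L[ℂ] H), norm_nonneg ((f' : H →L[ℂ] H) * y)]
    have e3 : star w * w - (e' : H →L[ℂ] H) = star (w - v) * w + star (v : H →L[ℂ] H) * (w - v) +
        ((e : H →L[ℂ] H) - (e' : H →L[ℂ] H)) := by
      have : (e : H →L[ℂ] H) = star (v : H →L[ℂ] H) * (v : H →L[ℂ] H) :=
        (congrArg Subtype.val hv1).symm
      rw [this, star_sub]
      noncomm_ring
    show ‖star w * w - (e' : H →L[ℂ] H)‖ < 1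
    rw [e3]
    have b1 : ‖star (w - v) * w‖ ≤ 3 / 20 * 1 :=
      (norm_mul_le _ _).trans (mul_le_mul (by rw [norm_star]; exact hwv) hwn (norm_nonneg _)
        (by positivity))
    have b2 : ‖star (v : H →L[ℂ] H) * (w - v)‖ ≤ 1 * (3 / 20) :=
      (norm_mul_le _ _).trans (mul_le_mul (by rw [norm_star]; exact hvn') hwv (norm_nonneg _)
        (by positivity))
    have b4 := norm_add₃_le (a := star (w - v) * w) (b := star (v : H →L[ℂ] H) * (w - v))
      (c := (e : H →L[ℂ] H) - (e' : H →L[ℂ] H))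
    linarith

theorem comm_set_star (N : VonNeumannAlgebra H) :
    ∀ s ∈ (N : Set (H →L[ℂ] H)).centralizer, star s ∈ (N : Set (H →L[ℂ] H)).centralizer := by
  intro s hs
  rw [Set.mem_centralizer_iff] at *
  intro m hm
  have := congrArg star (hs (star m) (star_mem hm))
  rw [star_mul, star_mul, star_star] at this
  exact this.symm

theorem mem_cc {N : VonNeumannAlgebra H} {x : H →L[ℂ] H} :
    x ∈ (N : Set (H →L[ℂ] H)).centralizer.centralizer ↔ x ∈ N := by
  rw [N.centralizer_centralizer]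
  rfl

/-- A commutative group of unitaries of `M` can be moved into a nearby algebra. -/
theorem move_group {M N : VonNeumannAlgebra H} {ε : ℝ} (hε : ε ≤ 1 / 100) (hMN : NearB M N ε)
    {G : Type} [CommGroup G] (U : G → H →L[ℂ] H) (hU : ∀ g, U g ∈ unitary (H →L[ℂ] H))
    (hm : ∀ g h, U (g * h) = U g * U h) (hUM : ∀ g, U g ∈ M) :
    ∃ u ∈ unitary (H →L[ℂ] H), ‖u - 1‖ ≤ 4 * ε ∧ ∀ g, u * U g * star u ∈ N := by
  obtain ⟨u, hu, hu1, hu2, -⟩ := near_group (N : Set (H →L[ℂ] H)).centralizer (comm_set_star N) U hU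
    hm hε (fun g => by
      obtain ⟨y, hy, -, hy2⟩ := hMN (U g) (hUM g) (norm_unitary_le (hU g))
      exact ⟨y, mem_cc.2 hy, by rw [norm_sub_rev]; exact hy2⟩) ∅ (by simp) (by simp) (by simp)
  exact ⟨u, hu, hu1, fun g => mem_cc.1 (hu2 g)⟩

theorem conj_norm_le {u x : H →L[ℂ] H} (hu : u ∈ unitary (H →L[ℂ] H)) (hx : ‖x‖ ≤ 1) {d : ℝ}
    (hd : ‖u - 1‖ ≤ d) : ‖x - u * x * star u‖ ≤ 2 * d := by
  have hus : ‖star u‖ ≤ 1 := by rw [norm_star]; exact norm_unitary_le hu
  have hd0 : 0 ≤ d := (norm_nonneg _).trans hd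
  have e : x - u * x * star u = -((u - 1) * x * star u + x * star (u - 1)) := by
    rw [star_sub, star_one]; noncomm_ring
  rw [e, norm_neg]
  have b1 : ‖(u - 1) * x * star u‖ ≤ d * 1 * 1 :=
    (norm_mul_le _ _).trans (mul_le_mul ((norm_mul_le _ _).trans (mul_le_mul hd hx
      (norm_nonneg _) hd0)) hus (norm_nonneg _) (by positivity))
  have b2 : ‖x * star (u - 1)‖ ≤ 1 * d :=
    (norm_mul_le _ _).trans (mul_le_mul hx (by rw [norm_star]; exact hd) (norm_nonneg _)
      zero_le_one)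
  have := norm_add_le ((u - 1) * x * star u) (x * star (u - 1))
  linarith

/-- Lower bound for the traces of close projections. -/
theorem trace_le {M N : VonNeumannAlgebra H} {τ : Elt M →ₗ[ℂ] ℂ} {σ : Elt N →ₗ[ℂ] ℂ}
    (hM : IsIIOneFactor M (τ : Elt M → ℂ)) (hN : IsIIOneFactor N (σ : Elt N → ℂ)) {ε : ℝ}
    (hε : ε ≤ 1 / 400) (hMN : NearB M N ε) {p : Elt M} {q : Elt N} (hp : IsPrj p) (hq : IsPrj q)
    (h1 : ‖(p : H →L[ℂ] H) - (q : H →L[ℂ] H)‖ ≤ 1 / 20) (n : ℕ) (hn : 0 < n) :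
    (τ p).re ≤ (σ q).re + 1 / n := by
  classical
  have hT := (ii_of hM).fct.tw
  have hS := (ii_of hN).fct.tw
  have hε0 : 0 ≤ ε := by
    obtain ⟨y, -, -, hy⟩ := hMN 0 (zero_mem M) (by rw [norm_zero]; exact zero_le_one)
    exact (norm_nonneg _).trans hy
  have hn' : (0 : ℝ) < n := by exact_mod_cast hn
  have hp0 : 0 ≤ (τ p).re := by
    have := hT.re_nonneg p
    rwa [hp.1, hp.2] at this
  have hp1 : (τ p).re ≤ 1 := by
    have := hT.re_nonneg (1 - p)
    rw [(prj_sub hp).1, (prj_sub hp).2, map_sub, hT.one, Complex.sub_re, Complex.one_re] at this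
    linarith
  obtain ⟨e, he, het⟩ := p_SPLIT p_CMP (Elt M) τ (ii_of hM) 1 ⟨star_one _, mul_one _⟩ n
    (fun _ => 1 / n) hn (fun _ => by positivity) (by
      rw [Finset.sum_const, Finset.card_univ, Fintype.card_fin, hT.one, Complex.one_re,
        nsmul_eq_mul]
      field_simp)
  -- the group of signs
  let U' : (Fin n → ℤˣ) → Elt M := fun s => ∑ i, (((s i : ℤˣ) : ℤ) : ℂ) • e i
  have hUm' : ∀ s t, U' (s * t) = U' s * U' t := by
    intro s t
    show _ = (∑ i, (((s i : ℤˣ) : ℤ) : ℂ) • e i) * (∑ i, (((t i : ℤˣ) : ℤ) : ℂ) • e i)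
    rw [part_mul he]
    refine Finset.sum_congr rfl (fun i _ => ?_)
    rw [Pi.mul_apply]
    push_cast
    rfl
  have hU1' : U' 1 = 1 := by
    show ∑ i, (((1 : ℤˣ) : ℤ) : ℂ) • e i = 1
    rw [← he.sum]
    refine Finset.sum_congr rfl (fun i _ => ?_)
    push_cast
    rw [one_smul]
  have hUs' : ∀ s, star (U' s) = U' s := by
    intro s
    show star (∑ i, (((s i : ℤˣ) : ℤ) : ℂ) • e i) = _
    rw [part_star he]
    refine Finset.sum_congr rfl (fun i _ => ?_)
    congr 1
    simp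
  have hUU' : ∀ s, U' s * U' s = 1 := by
    intro s
    rw [← hUm', ← hU1']
    congr 1
    funext i
    rw [Pi.mul_apply, Pi.one_apply, Int.units_mul_self]
  obtain ⟨w, hw, hw1, hw2⟩ := move_group (M := M) (N := N) (ε := ε) (by linarith) hMN
    (fun s : Fin n → ℤˣ => (U' s : H →L[ℂ] H))
    (fun s => by
      have h2 : star (U' s : H →L[ℂ] H) = (U' s : H →L[ℂ] H) := congrArg Subtype.val (hUs' s)
      have h3 : (U' s : H →L[ℂ] H) * (U' s : H →L[ℂ] H) = 1 := congrArg Subtype.val (hUU' s)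
      exact ⟨by rw [h2, h3], by rw [h2, h3]⟩)
    (fun s t => congrArg Subtype.val (hUm' s t)) (fun s => (U' s).2)
  have hw3 : star w * w = 1 := Unitary.star_mul_self_of_mem hw
  have hw4 : w * star w = 1 := Unitary.mul_star_self_of_mem hw
  -- the projections of N
  have hmem : ∀ i, w * (e i : H →L[ℂ] H) * star w ∈ N := by
    intro i
    have h2 : e i = (1 / 2 : ℂ) • (1 - U' (Function.update 1 i (-1))) := by
      have h3 : U' (Function.update 1 i (-1)) = 1 - (2 : ℂ) • e i := by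
        show ∑ j, (((Function.update (1 : Fin n → ℤˣ) i (-1) j : ℤˣ) : ℤ) : ℂ) • e j = _
        rw [← he.sum, ← Finset.add_sum_erase _ _ (Finset.mem_univ i),
          ← Finset.add_sum_erase (a := i) _ (fun j => e j) (Finset.mem_univ i),
          Function.update_self]
        have h4 : ∑ j ∈ Finset.univ.erase i,
            (((Function.update (1 : Fin n → ℤˣ) i (-1) j : ℤˣ) : ℤ) : ℂ) • e j =
            ∑ j ∈ Finset.univ.erase i, e j := by
          refine Finset.sum_congr rfl (fun j hj => ?_)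
          rw [Function.update_of_ne (Finset.ne_of_mem_erase hj)]
          simp
        rw [h4]
        simp only [Units.val_neg, Units.val_one, Int.cast_neg, Int.cast_one, neg_smul, one_smul,
          two_smul]
        abel
      rw [h3, sub_sub_cancel, smul_smul]
      norm_num
    have h5 : w * (e i : H →L[ℂ] H) * star w =
        (1 / 2 : ℂ) • (1 - w * (U' (Function.update 1 i (-1)) : H →L[ℂ] H) * star w) := by
      have h6 : (e i : H →L[ℂ] H) =
          (1 / 2 : ℂ) • (1 - (U' (Function.update 1 i (-1)) : H →L[ℂ] H)) :=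
        congrArg Subtype.val h2
      rw [h6, mul_smul_comm, smul_mul_assoc, mul_sub, mul_one, sub_mul, hw4]
    rw [h5]
    exact N.toStarSubalgebra.smul_mem (sub_mem (one_mem N) (hw2 _)) _
  let f : Fin n → Elt N := fun i => ⟨w * (e i : H →L[ℂ] H) * star w, hmem i⟩
  have hfe : ∀ i, (f i : H →L[ℂ] H) = w * (e i : H →L[ℂ] H) * star w := fun i => rfl
  have hf : IsPart f 1 := by
    refine ⟨fun i => ⟨?_, ?_⟩, fun i j hij => ?_, ?_⟩
    · apply Subtype.ext
      have h2 : star (e i : H →L[ℂ] H) = (e i : H →L[ℂ] H) := congrArg Subtype.val (he.prj i).1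
      show star (w * (e i : H →L[ℂ] H) * star w) = w * (e i : H →L[ℂ] H) * star w
      rw [star_mul, star_mul, star_star, h2, mul_assoc]
    · apply Subtype.ext
      have h2 : (e i : H →L[ℂ] H) * (e i : H →L[ℂ] H) = (e i : H →L[ℂ] H) :=
        congrArg Subtype.val (he.prj i).2
      show w * (e i : H →L[ℂ] H) * star w * (w * (e i : H →L[ℂ] H) * star w) =
        w * (e i : H →L[ℂ] H) * star w
      calc w * (e i : H →L[ℂ] H) * star w * (w * (e i : H →L[ℂ] H) * star w) =
          w * (e i : H →L[ℂ] H) * (star w * w) * (e i : H →L[ℂ] H) * star w := by noncomm_ring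
        _ = w * ((e i : H →L[ℂ] H) * (e i : H →L[ℂ] H)) * star w := by
          rw [hw3, mul_one]; noncomm_ring
        _ = _ := by rw [h2]
    · apply Subtype.ext
      have h2 : (e i : H →L[ℂ] H) * (e j : H →L[ℂ] H) = 0 :=
        congrArg Subtype.val (he.ort i j hij)
      show w * (e i : H →L[ℂ] H) * star w * (w * (e j : H →L[ℂ] H) * star w) = 0
      calc w * (e i : H →L[ℂ] H) * star w * (w * (e j : H →L[ℂ] H) * star w) =
          w * (e i : H →L[ℂ] H) * (star w * w) * (e j : H →L[ℂ] H) * star w := by noncomm_ring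
        _ = w * ((e i : H →L[ℂ] H) * (e j : H →L[ℂ] H)) * star w := by
          rw [hw3, mul_one]; noncomm_ring
        _ = _ := by rw [h2, mul_zero, zero_mul]
    · apply Subtype.ext
      have h2 : ∑ i, (e i : H →L[ℂ] H) = 1 := by
        have := congrArg (M.toStarSubalgebra.subtype) he.sum
        rw [map_sum] at this
        exact this
      have h3 : ((∑ i, f i : Elt N) : H →L[ℂ] H) = ∑ i, (f i : H →L[ℂ] H) :=
        map_sum N.toStarSubalgebra.subtype _ _
      rw [h3]
      show ∑ i, w * (e i : H →L[ℂ] H) * star w = 1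
      rw [← Finset.sum_mul, ← Finset.mul_sum, h2, mul_one, hw4]
  have hclose : ∀ J : Finset (Fin n), ‖((∑ i ∈ J, e i : Elt M) : H →L[ℂ] H) -
      ((∑ i ∈ J, f i : Elt N) : H →L[ℂ] H)‖ ≤ 1 / 20 := by
    intro J
    have h3 : ((∑ i ∈ J, f i : Elt N) : H →L[ℂ] H) = ∑ i ∈ J, (f i : H →L[ℂ] H) :=
      map_sum N.toStarSubalgebra.subtype _ _
    have h4 : ((∑ i ∈ J, e i : Elt M) : H →L[ℂ] H) = ∑ i ∈ J, (e i : H →L[ℂ] H) :=
      map_sum M.toStarSubalgebra.subtype _ _
    have h5 : ((∑ i ∈ J, f i : Elt N) : H →L[ℂ] H) =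
        w * ((∑ i ∈ J, e i : Elt M) : H →L[ℂ] H) * star w := by
      rw [h3, h4, Finset.mul_sum, Finset.sum_mul]
    rw [h5]
    refine (conj_norm_le hw (prj_norm_le (part_sum_prj he J) : ‖(∑ i ∈ J, e i : Elt M)‖ ≤ 1)
      hw1).trans ?_
    linarith
  -- all traces are equal
  have hfeq : ∀ i j, (σ (f i)).re ≤ (σ (f j)).re := by
    intro i j
    have h2 := hclose {i}
    have h3 := hclose {j}
    rw [Finset.sum_singleton, Finset.sum_singleton] at h2 h3
    exact lemD hM hN (by linarith) hMN (he.prj i) (he.prj j) (hf.prj i) (hf.prj j) h2 h3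
      (by rw [het, het])
  have hfn : ∀ i, (σ (f i)).re = 1 / n := by
    intro i
    have h2 : ∑ j, (σ (f j)).re = 1 := by
      have := congrArg σ hf.sum
      rw [map_sum, hS.one] at this
      have h3 := congrArg Complex.re this
      rw [Complex.re_sum, Complex.one_re] at h3
      exact h3
    have h3 : ∑ j, (σ (f j)).re = ∑ _j : Fin n, (σ (f i)).re :=
      Finset.sum_congr rfl (fun j _ => le_antisymm (hfeq j i) (hfeq i j))
    rw [h2, Finset.sum_const, Finset.card_univ, Fintype.card_fin, nsmul_eq_mul] at h3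
    rw [eq_div_iff hn'.ne', mul_comm]
    exact h3.symm
  -- the final comparison
  set k : ℕ := ⌊(n : ℝ) * (τ p).re⌋₊ with hk
  have hk1 : (k : ℝ) ≤ n * (τ p).re := Nat.floor_le (by positivity)
  have hk2 : (n : ℝ) * (τ p).re < k + 1 := Nat.lt_floor_add_one _
  have hkn : k ≤ n := by
    have : (k : ℝ) ≤ n := hk1.trans (by nlinarith)
    exact_mod_cast this
  obtain ⟨J, -, hJ⟩ := Finset.exists_subset_card_eq (s := (Finset.univ : Finset (Fin n)))
    (n := k) (by rw [Finset.card_univ, Fintype.card_fin]; exact hkn)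
  have hτJ : (τ (∑ i ∈ J, e i)).re = k / n := by
    have h8 : ∀ i, (τ (e i)).re = 1 / n := fun i => by rw [het i, Complex.ofReal_re]
    rw [map_sum, Complex.re_sum, Finset.sum_congr rfl (fun i _ => h8 i), Finset.sum_const,
      hJ, nsmul_eq_mul]
    simp [div_eq_mul_inv]
  have hσJ : (σ (∑ i ∈ J, f i)).re = k / n := by
    rw [map_sum, Complex.re_sum, Finset.sum_congr rfl (fun i _ => hfn i), Finset.sum_const,
      hJ, nsmul_eq_mul]
    simp [div_eq_mul_inv]
  have h5 := lemD hM hN (by linarith) hMN (part_sum_prj he J) hp (part_sum_prj hf J) hq (hclose J)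
    h1 (by
      rw [hτJ, div_le_iff₀ hn', mul_comm]
      exact hk1)
  rw [hσJ] at h5
  have h6 : (τ p).re ≤ (k + 1) / n := by
    rw [le_div_iff₀ hn', mul_comm]
    exact hk2.le
  rw [add_div] at h6
  linarith

/-- Close projections of close II_1 factors have the same trace. -/
theorem trace_eq {M N : VonNeumannAlgebra H} {τ : Elt M →ₗ[ℂ] ℂ} {σ : Elt N →ₗ[ℂ] ℂ}
    (hM : IsIIOneFactor M (τ : Elt M → ℂ)) (hN : IsIIOneFactor N (σ : Elt N → ℂ)) {ε : ℝ}
    (hε : ε ≤ 1 / 400) (hMN : NearB M N ε) {p : Elt M} {q : Elt N} (hp : IsPrj p) (hq : IsPrj q)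
    (h1 : ‖(p : H →L[ℂ] H) - (q : H →L[ℂ] H)‖ ≤ 1 / 20) : (τ p).re = (σ q).re := by
  have hT := (ii_of hM).fct.tw
  have hS := (ii_of hN).fct.tw
  have key : ∀ {p : Elt M} {q : Elt N}, IsPrj p → IsPrj q →
      ‖(p : H →L[ℂ] H) - (q : H →L[ℂ] H)‖ ≤ 1 / 20 → (τ p).re ≤ (σ q).re := by
    intro p q hp hq h1
    refine le_of_forall_pos_le_add (fun δ hδ => ?_)
    obtain ⟨n, hn⟩ := exists_nat_gt (1 / δ)
    have hn0 : (0 : ℝ) < n := lt_trans (by positivity) hn
    have h2 := trace_le hM hN hε hMN hp hq h1 n (by exact_mod_cast hn0)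
    have h3 : 1 / (n : ℝ) ≤ δ := by
      rw [div_le_iff₀ hn0]
      rw [div_lt_iff₀ hδ] at hn
      linarith
    linarith
  refine le_antisymm (key hp hq h1) ?_
  have h2 := key (prj_sub hp) (prj_sub hq) (by
    have : ((1 - p : Elt M) : H →L[ℂ] H) - ((1 - q : Elt N) : H →L[ℂ] H) =
        -((p : H →L[ℂ] H) - (q : H →L[ℂ] H)) := by
      show (1 - (p : H →L[ℂ] H)) - (1 - (q : H →L[ℂ] H)) = _
      abel
    rw [this, norm_neg]
    exact h1)
  rw [map_sub, map_sub, hT.one, hS.one, Complex.sub_re, Complex.sub_re] at h2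
  linarith

end concrete

end Pool.Agent.Y323.KK
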