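import Mathlib
import Pool.Agent.Y323.KK.TrEq

/-!
Maximal abelian subalgebras, and their position with respect to a close algebra.
-/

set_option autoImplicit false

open scoped InnerProductSpace ComplexConjugate ComplexOrder
open Filter Topology

namespace Pool.Agent.Y323.KK

open Pool.Agent.H467F Pool.Agent.H518R4.UG Pool.Agent.H518R5.SC Pool.Agent.W861.AM

variable {H : Type} [NormedAddCommGroup H] [InnerProductSpace ℂ H] [CompleteSpace H]

/-- `A` is a maximal abelian star subalgebra of `M`. -/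
structure IsMasa (M : VonNeumannAlgebra H) (A : StarSubalgebra ℂ (H →L[ℂ] H)) : Prop where
  le : ∀ a ∈ A, a ∈ M
  closed : IsClosed (A : Set (H →L[ℂ] H))
  comm : ∀ a ∈ A, ∀ b ∈ A, a * b = b * a
  max : ∀ x ∈ M, (∀ a ∈ A, a * x = x * a) → x ∈ A

theorem exists_masa (M : VonNeumannAlgebra H) : ∃ A, IsMasa M A := by
  let F : Set (Set (H →L[ℂ] H)) := {S | S ⊆ M ∧ (∀ s ∈ S, star s ∈ S) ∧ ∀ s ∈ S, ∀ t ∈ S,
    s * t = t * s}
  obtain ⟨S, hS⟩ := zorn_subset F (by
    intro c hc hchain
    refine ⟨⋃₀ c, ⟨?_, ?_, ?_⟩, fun s hs => Set.subset_sUnion_of_mem hs⟩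
    · exact Set.sUnion_subset (fun s hs => (hc hs).1)
    · rintro s ⟨t, ht, hst⟩
      exact ⟨t, ht, (hc ht).2.1 s hst⟩
    · rintro s ⟨t, ht, hst⟩ s' ⟨t', ht', hst'⟩
      rcases hchain.total ht ht' with h | h
      · exact (hc ht').2.2 s (h hst) s' hst'
      · exact (hc ht).2.2 s hst s' (h hst'))
  obtain ⟨hSM, hSs, hSc⟩ := hS.1
  -- self adjoint elements of the relative commutant are in S
  have key : ∀ a ∈ M, (∀ s ∈ S, s * a = a * s) → star a = a → a ∈ S := by
    intro a ha hsa hstar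
    have h1 : insert a S ∈ F := by
      refine ⟨Set.insert_subset ha hSM, ?_, ?_⟩
      · rintro s (rfl | hs)
        · rw [hstar]; exact Set.mem_insert _ _
        · exact Set.mem_insert_of_mem _ (hSs s hs)
      · rintro s (rfl | hs) t (rfl | ht)
        · rfl
        · exact (hsa t ht).symm
        · exact hsa s hs
        · exact hSc s hs t ht
    exact hS.2 h1 (Set.subset_insert _ _) (Set.mem_insert _ _)
  have hmem : ∀ x, x ∈ StarSubalgebra.centralizer ℂ S ⊓ M.toStarSubalgebra ↔
      (∀ s ∈ S, s * x = x * s) ∧ x ∈ M := by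
    intro x
    rw [StarSubalgebra.mem_inf, StarSubalgebra.mem_centralizer_iff]
    constructor
    · rintro ⟨h1, h2⟩
      exact ⟨fun s hs => (h1 s hs).1, h2⟩
    · rintro ⟨h1, h2⟩
      exact ⟨fun s hs => ⟨h1 s hs, h1 _ (hSs s hs)⟩, h2⟩
  refine ⟨StarSubalgebra.centralizer ℂ S ⊓ M.toStarSubalgebra, ?_, ?_, ?_, ?_⟩
  · intro a ha
    exact ((hmem a).1 ha).2
  · have h1 : ((StarSubalgebra.centralizer ℂ S ⊓ M.toStarSubalgebra : StarSubalgebra ℂ _) :
        Set (H →L[ℂ] H)) = S.centralizer ∩ (M.toStarSubalgebra : Set (H →L[ℂ] H)) := by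
      ext x
      show x ∈ StarSubalgebra.centralizer ℂ S ⊓ M.toStarSubalgebra ↔ _
      rw [hmem, Set.mem_inter_iff, Set.mem_centralizer_iff]
      rfl
    rw [h1]
    exact (Set.isClosed_centralizer S).inter (isClosed_elt M)
  · intro x hx y hy
    obtain ⟨hx1, hx2⟩ := (hmem x).1 hx
    obtain ⟨hy1, hy2⟩ := (hmem y).1 hy
    have hys : ∀ s ∈ S, s * star y = star y * s := by
      intro s hs
      have := congrArg star (hy1 _ (hSs s hs))
      rw [star_mul, star_mul, star_star] at this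
      exact this.symm
    have h1 : y + star y ∈ S := by
      refine key _ (add_mem hy2 (star_mem hy2)) (fun s hs => ?_) ?_
      · rw [mul_add, add_mul, hy1 s hs, hys s hs]
      · rw [star_add, star_star, add_comm]
    have h2 : Complex.I • (y - star y) ∈ S := by
      refine key _ (M.toStarSubalgebra.smul_mem (sub_mem hy2 (star_mem hy2)) _)
        (fun s hs => ?_) ?_
      · rw [mul_smul_comm, smul_mul_assoc, mul_sub, sub_mul, hy1 s hs, hys s hs]
      · rw [star_smul, star_sub, star_star, Complex.star_def, Complex.conj_I, neg_smul,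
          ← smul_neg, neg_sub]
    have h3 : y = (1 / 2 : ℂ) • (y + star y) + (-(Complex.I) / 2) • (Complex.I • (y - star y)) := by
      rw [smul_smul]
      have : -(Complex.I) / 2 * Complex.I = 1 / 2 := by
        rw [div_mul_eq_mul_div, neg_mul, Complex.I_mul_I]; norm_num
      rw [this, ← smul_add, add_add_sub_cancel, ← two_smul ℂ y, smul_smul]
      norm_num
    rw [h3, mul_add, add_mul, mul_smul_comm, smul_mul_assoc, mul_smul_comm _ x, smul_mul_assoc _ _ x,
      hx1 _ h1, hx1 _ h2]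
  · intro x hx h
    refine (hmem x).2 ⟨fun s hs => h s ?_, hx⟩
    exact (hmem s).2 ⟨fun t ht => hSc t ht s hs, hSM hs⟩

variable {M N : VonNeumannAlgebra H} {A : StarSubalgebra ℂ (H →L[ℂ] H)}

/-- The unitary group of a masa is commutative. -/
@[reducible] noncomputable def IsMasa.cg (h : IsMasa M A) : CommGroup (unitary A) :=
  { (inferInstance : Group (unitary A)) with
    mul_comm := fun a b => Subtype.ext (Subtype.ext (h.comm _ a.1.2 _ b.1.2)) }

theorem IsMasa.span (h : IsMasa M A) {a : H →L[ℂ] H} (ha : a ∈ A) :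
    ∃ (g : Fin 4 → unitary A) (c : Fin 4 → ℂ), a = ∑ i, c i • ((g i : A) : H →L[ℂ] H) := by
  let _ : CStarAlgebra A := StarSubalgebra.cstarAlgebra (h_closed := h.closed) A
  obtain ⟨g, c, hgc, -⟩ := CStarAlgebra.exists_sum_four_unitary (⟨a, ha⟩ : A)
  refine ⟨g, c, ?_⟩
  have := congrArg (A.subtype) hgc
  rw [map_sum] at this
  exact this

theorem IsMasa.unit_mem (g : unitary A) : ((g : A) : H →L[ℂ] H) ∈ unitary (H →L[ℂ] H) :=
  ⟨congrArg Subtype.val (Unitary.star_mul_self_of_mem g.2),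
    congrArg Subtype.val (Unitary.mul_star_self_of_mem g.2)⟩

end Pool.Agent.Y323.KK
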