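import Mathlib
import Pool.Agent.Y323.KK.Masa
import Pool.Agent.Y323.KK.Avg

/-!
Position of a masa of `M` moved into a close algebra `N`.
-/

set_option autoImplicit false

open scoped InnerProductSpace ComplexConjugate ComplexOrder
open Filter Topology

namespace Pool.Agent.Y323.KK

open Pool.Agent.H467F Pool.Agent.H518R4.UG Pool.Agent.H518R5.SC Pool.Agent.W861.AM

variable {H : Type} [NormedAddCommGroup H] [InnerProductSpace ℂ H] [CompleteSpace H]

theorem normal_norm_le {N : VonNeumannAlgebra H} {t : Elt N → ℂ} (ht : IsNormalPositive N t)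
    (h1 : t 1 = 1) (x : Elt N) : ‖t x‖ ≤ ‖(x : H →L[ℂ] H)‖ := by
  obtain ⟨ξ, hξ, htξ⟩ := ht
  have h2 : ∑' k, ‖ξ k‖ ^ 2 = 1 := by
    have h3 : t 1 = ((∑' k, ‖ξ k‖ ^ 2 : ℝ) : ℂ) := by
      rw [htξ, Complex.ofReal_tsum]
      congr 1
      funext k
      show ⟪ξ k, ξ k⟫_ℂ = _
      rw [inner_self_eq_norm_sq_to_K]
      push_cast
      rfl
    rw [h1] at h3
    exact_mod_cast h3.symm
  have hk : ∀ k, ‖⟪ξ k, (x : H →L[ℂ] H) (ξ k)⟫_ℂ‖ ≤ ‖(x : H →L[ℂ] H)‖ * ‖ξ k‖ ^ 2 := by
    intro k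
    refine (norm_inner_le_norm _ _).trans ?_
    have h1 : ‖(x : H →L[ℂ] H) (ξ k)‖ ≤ ‖(x : H →L[ℂ] H)‖ * ‖ξ k‖ :=
      (x : H →L[ℂ] H).le_opNorm _
    nlinarith [norm_nonneg (ξ k)]
  have h3 := tsum_of_norm_bounded ((hξ.mul_left ‖(x : H →L[ℂ] H)‖).hasSum) hk
  rw [tsum_mul_left, h2, mul_one] at h3
  rw [htξ]
  exact h3

variable {M N : VonNeumannAlgebra H} {A : StarSubalgebra ℂ (H →L[ℂ] H)}

/-- Something that commutes with the unitaries of a masa commutes with the masa. -/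
theorem IsMasa.comm_of_unit (h : IsMasa M A) {x : H →L[ℂ] H}
    (hx : ∀ g : unitary A, ((g : A) : H →L[ℂ] H) * x = x * ((g : A) : H →L[ℂ] H)) :
    ∀ a ∈ A, a * x = x * a := by
  intro a ha
  obtain ⟨g, c, rfl⟩ := h.span ha
  rw [Finset.sum_mul, Finset.mul_sum]
  refine Finset.sum_congr rfl (fun i _ => ?_)
  rw [smul_mul_assoc, mul_smul_comm, hx]

theorem mem_of_lim {G : Type*} {μ : (G → ℝ) → ℝ} {F : G → H →L[ℂ] H} {T : H →L[ℂ] H}
    (hT : IsLim μ F T) (hF : ∀ g, F g ∈ M) : T ∈ M :=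
  mem_cc.1 (mem_cent_of_lim hT (fun g => mem_cc.2 (hF g)))

/-- Elements near `M` that commute with the masa are near the masa. -/
theorem near_masa (hA : IsMasa M A) {z x : H →L[ℂ] H} (hz : ∀ a ∈ A, z * a = a * z) (hx : x ∈ M)
    {d : ℝ} (hd : ‖x - z‖ ≤ d) : ∃ a ∈ A, ‖a - z‖ ≤ d := by
  let _ : CommGroup (unitary A) := hA.cg
  obtain ⟨μ, hμ, hinv⟩ := exists_mean (unitary A)
  let F : unitary A → H →L[ℂ] H := fun g => ((g : A) : H →L[ℂ] H) * x *
    star ((g : A) : H →L[ℂ] H)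
  have hgn : ∀ g : unitary A, ‖((g : A) : H →L[ℂ] H)‖ ≤ 1 :=
    fun g => norm_unitary_le (IsMasa.unit_mem g)
  have hgn' : ∀ g : unitary A, ‖star ((g : A) : H →L[ℂ] H)‖ ≤ 1 :=
    fun g => by rw [norm_star]; exact hgn g
  have hOF : OBd F := ⟨1 * ‖x‖ * 1, fun g => (norm_mul_le _ _).trans (mul_le_mul
    ((norm_mul_le _ _).trans (mul_le_mul_of_nonneg_right (hgn g) (norm_nonneg _))) (hgn' g)
    (norm_nonneg _) (by positivity))⟩
  obtain ⟨E, hE⟩ := exists_lim hμ hOF
  have hEM : E ∈ M := by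
    refine mem_of_lim hE (fun g => ?_)
    exact mul_mem (mul_mem (hA.le _ g.1.2) hx) (star_mem (hA.le _ g.1.2))
  have hEc : ∀ h : unitary A, ((h : A) : H →L[ℂ] H) * E = E * ((h : A) : H →L[ℂ] H) := by
    intro h
    have h1 := IsLim.shift hOF hE h (hinv h)
    have h2 := (hE.mulL ((h : A) : H →L[ℂ] H)).mulR (star ((h : A) : H →L[ℂ] H))
    have e : (fun g => F (h * g)) = fun g => ((h : A) : H →L[ℂ] H) * F g *
        star ((h : A) : H →L[ℂ] H) := by
      funext g
      show (((h : A) : H →L[ℂ] H) * ((g : A) : H →L[ℂ] H)) * x *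
        star (((h : A) : H →L[ℂ] H) * ((g : A) : H →L[ℂ] H)) = _
      rw [star_mul]
      show _ = ((h : A) : H →L[ℂ] H) * (((g : A) : H →L[ℂ] H) * x *
        star ((g : A) : H →L[ℂ] H)) * star ((h : A) : H →L[ℂ] H)
      simp only [mul_assoc]
    rw [e] at h1
    have h3 := h2.unique h1
    have h4 : star ((h : A) : H →L[ℂ] H) * ((h : A) : H →L[ℂ] H) = 1 :=
      (IsMasa.unit_mem h).1
    calc ((h : A) : H →L[ℂ] H) * E = ((h : A) : H →L[ℂ] H) * E *
          (star ((h : A) : H →L[ℂ] H) * ((h : A) : H →L[ℂ] H)) := by rw [h4, mul_one]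
      _ = (((h : A) : H →L[ℂ] H) * E * star ((h : A) : H →L[ℂ] H)) *
          ((h : A) : H →L[ℂ] H) := by simp only [mul_assoc]
      _ = E * ((h : A) : H →L[ℂ] H) := by rw [h3]
  refine ⟨E, hA.max E hEM (hA.comm_of_unit hEc), ?_⟩
  refine hE.dist_le hμ hOF (fun g => ?_)
  have h4 : ((g : A) : H →L[ℂ] H) * star ((g : A) : H →L[ℂ] H) = 1 := (IsMasa.unit_mem g).2
  have e : F g - z = ((g : A) : H →L[ℂ] H) * (x - z) * star ((g : A) : H →L[ℂ] H) := by
    have h5 : ((g : A) : H →L[ℂ] H) * z * star ((g : A) : H →L[ℂ] H) = z := by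
      rw [← hz _ g.1.2, mul_assoc, h4, mul_one]
    rw [mul_sub, sub_mul, h5]
  rw [e]
  have hd0 : 0 ≤ d := (norm_nonneg _).trans hd
  calc ‖((g : A) : H →L[ℂ] H) * (x - z) * star ((g : A) : H →L[ℂ] H)‖ ≤ (1 * d) * 1 :=
        (norm_mul_le _ _).trans (mul_le_mul ((norm_mul_le _ _).trans (mul_le_mul (hgn g) hd
          (norm_nonneg _) zero_le_one)) (hgn' g) (norm_nonneg _) (by positivity))
    _ = d := by ring

/-- The commutant of the moved masa in `N` is the moved masa. -/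
theorem moved_max (hA : IsMasa M A) {ε : ℝ} (hε : ε ≤ 1 / 400) (hNM : NearB N M ε)
    {u : H →L[ℂ] H} (hu : u ∈ unitary (H →L[ℂ] H)) (hu1 : ‖u - 1‖ ≤ 4 * ε)
    (hAN : ∀ a ∈ A, u * a * star u ∈ N) {z : H →L[ℂ] H} (hz : u * z * star u ∈ N)
    (hza : ∀ a ∈ A, z * a = a * z) : z ∈ A := by
  have hu2 : star u * u = 1 := hu.1
  have hun : ‖u‖ ≤ 1 := norm_unitary_le hu
  have hun' : ‖star u‖ ≤ 1 := by rw [norm_star]; exact hun
  have key : ∀ z : H →L[ℂ] H, u * z * star u ∈ N → (∀ a ∈ A, z * a = a * z) →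
      ∃ a ∈ A, ‖z - a‖ ≤ 1 / 2 * ‖z‖ := by
    intro z hz hza
    by_cases hz0 : z = 0
    · exact ⟨0, zero_mem A, by rw [hz0]; simp⟩
    have hzn : 0 < ‖z‖ := norm_pos_iff.2 hz0
    set z' : H →L[ℂ] H := ((‖z‖⁻¹ : ℝ) : ℂ) • z with hz'
    have hz'n : ‖z'‖ ≤ 1 := by
      rw [hz', norm_smul, Complex.norm_real, norm_inv, norm_norm, inv_mul_cancel₀ hzn.ne']
    have hz'N : u * z' * star u ∈ N := by
      rw [hz', mul_smul_comm, smul_mul_assoc]
      exact N.toStarSubalgebra.smul_mem hz _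
    have hyn : ‖u * z' * star u‖ ≤ 1 := by
      calc ‖u * z' * star u‖ ≤ (1 * 1) * 1 :=
            (norm_mul_le _ _).trans (mul_le_mul ((norm_mul_le _ _).trans (mul_le_mul hun hz'n
              (norm_nonneg _) zero_le_one)) hun' (norm_nonneg _) (by positivity))
        _ = 1 := by ring
    obtain ⟨x, hx, -, hxy⟩ := hNM _ hz'N hyn
    have h1 := conj_norm_le hu hz'n hu1
    have h2 : ‖x - z'‖ ≤ 1 / 2 := by
      have e : x - z' = -(u * z' * star u - x) - (z' - u * z' * star u) := by abel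
      rw [e]
      refine (norm_sub_le _ _).trans ?_
      rw [norm_neg]
      linarith
    obtain ⟨a, ha, ha1⟩ := near_masa hA (z := z') (fun a ha => by
      rw [hz', smul_mul_assoc, mul_smul_comm, hza a ha]) hx h2
    refine ⟨((‖z‖ : ℝ) : ℂ) • a, A.smul_mem ha _, ?_⟩
    have e : z - ((‖z‖ : ℝ) : ℂ) • a = ((‖z‖ : ℝ) : ℂ) • (z' - a) := by
      rw [smul_sub, hz', smul_smul, ← Complex.ofReal_mul, mul_inv_cancel₀ hzn.ne',
        Complex.ofReal_one, one_smul]
    rw [e, norm_smul, Complex.norm_real, norm_norm, mul_comm]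
    refine mul_le_mul_of_nonneg_right ?_ hzn.le
    rw [norm_sub_rev]; exact ha1
  have hne : (A : Set (H →L[ℂ] H)).Nonempty := ⟨0, zero_mem A⟩
  have h1 : ∀ b ∈ A, Metric.infDist z (A : Set (H →L[ℂ] H)) ≤ 1 / 2 * ‖z - b‖ := by
    intro b hb
    obtain ⟨a, ha, ha1⟩ := key (z - b) (by
      rw [mul_sub, sub_mul]
      exact sub_mem hz (hAN b hb)) (fun a ha => by
      rw [sub_mul, mul_sub, hza a ha, hA.comm b hb a ha])
    refine (Metric.infDist_le_dist_of_mem (add_mem hb ha)).trans ?_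
    rw [dist_eq_norm, ← sub_sub]
    exact ha1
  have h2 : 2 * Metric.infDist z (A : Set (H →L[ℂ] H)) ≤
      Metric.infDist z (A : Set (H →L[ℂ] H)) := by
    rw [Metric.le_infDist hne]
    intro b hb
    have := h1 b hb
    rw [dist_eq_norm]
    linarith
  have h3 : Metric.infDist z (A : Set (H →L[ℂ] H)) = 0 :=
    le_antisymm (by linarith) Metric.infDist_nonneg
  exact (hA.closed.mem_iff_infDist_zero hne).2 h3

/-- The traces agree on the moved masa. -/
theorem moved_trace {τ : Elt M →ₗ[ℂ] ℂ} {σ : Elt N →ₗ[ℂ] ℂ}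
    (hM : IsIIOneFactor M (τ : Elt M → ℂ)) (hN : IsIIOneFactor N (σ : Elt N → ℂ))
    (hA : IsMasa M A) {ε : ℝ} (hε : ε ≤ 1 / 400) (hMN : NearB M N ε)
    {u : H →L[ℂ] H} (hu : u ∈ unitary (H →L[ℂ] H)) (hu1 : ‖u - 1‖ ≤ 4 * ε)
    (hAN : ∀ a ∈ A, u * a * star u ∈ N) {a : Elt M} (ha : (a : H →L[ℂ] H) ∈ A) {b : Elt N}
    (hb : (b : H →L[ℂ] H) = u * (a : H →L[ℂ] H) * star u) : (τ a).re = (σ b).re := by
  have hu2 : star u * u = 1 := hu.1
  have hu3 : u * star u = 1 := hu.2
  have hun : ‖u‖ ≤ 1 := norm_unitary_le hu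
  have hun' : ‖star u‖ ≤ 1 := by rw [norm_star]; exact hun
  have hT := (ii_of hM).fct.tw
  have hS := (ii_of hN).fct.tw
  -- self adjoint elements
  have hsa : ∀ (a : Elt M), (a : H →L[ℂ] H) ∈ A → star a = a → ∀ b : Elt N,
      (b : H →L[ℂ] H) = u * (a : H →L[ℂ] H) * star u → (τ a).re = (σ b).re := by
    intro a ha has b hb
    have key : ∀ δ : ℝ, 0 < δ → |(τ a).re - (σ b).re| ≤ 2 * δ := by
      intro δ hδ
      obtain ⟨n, q, l, hq, hql, hqc⟩ := p_FSC H M 1 ⟨star_one _, mul_one _⟩ a has (one_mul a) δ hδ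
      have hqA : ∀ i, (q i : H →L[ℂ] H) ∈ A := by
        intro i
        refine hA.max _ (q i).2 (fun a' ha' => ?_)
        have h1 := hqc i ⟨a', hA.le a' ha'⟩ (Subtype.ext (hA.comm _ ha _ ha'))
          (by rw [one_mul, mul_one])
        exact (congrArg Subtype.val h1).symm
      let Q : Fin n → Elt N := fun i => ⟨u * (q i : H →L[ℂ] H) * star u, hAN _ (hqA i)⟩
      have hQp : ∀ i, IsPrj (Q i) := by
        intro i
        have h2 : star (q i : H →L[ℂ] H) = (q i : H →L[ℂ] H) := congrArg Subtype.val (hq.prj i).1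
        have h3 : (q i : H →L[ℂ] H) * (q i : H →L[ℂ] H) = (q i : H →L[ℂ] H) :=
          congrArg Subtype.val (hq.prj i).2
        refine ⟨?_, ?_⟩
        · apply Subtype.ext
          show star (u * (q i : H →L[ℂ] H) * star u) = u * (q i : H →L[ℂ] H) * star u
          rw [star_mul, star_mul, star_star, h2, mul_assoc]
        · apply Subtype.ext
          show u * (q i : H →L[ℂ] H) * star u * (u * (q i : H →L[ℂ] H) * star u) =
            u * (q i : H →L[ℂ] H) * star u
          calc u * (q i : H →L[ℂ] H) * star u * (u * (q i : H →L[ℂ] H) * star u) =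
              u * (q i : H →L[ℂ] H) * (star u * u) * (q i : H →L[ℂ] H) * star u := by
                noncomm_ring
            _ = u * ((q i : H →L[ℂ] H) * (q i : H →L[ℂ] H)) * star u := by
              rw [hu2, mul_one]; noncomm_ring
            _ = _ := by rw [h3]
      have hQt : ∀ i, (τ (q i)).re = (σ (Q i)).re := by
        intro i
        refine trace_eq hM hN hε hMN (hq.prj i) (hQp i) ?_
        have := conj_norm_le hu (prj_norm_le (hq.prj i) : ‖q i‖ ≤ 1) hu1
        refine this.trans ?_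
        linarith
      have h1 : |(τ (a - ∑ i, (l i : ℂ) • q i)).re| ≤ δ :=
        (Complex.abs_re_le_norm _).trans ((normal_norm_le hM.normal hT.one _).trans hql)
      have e1 : ((b - ∑ i, (l i : ℂ) • Q i : Elt N) : H →L[ℂ] H) =
          u * ((a - ∑ i, (l i : ℂ) • q i : Elt M) : H →L[ℂ] H) * star u := by
        have e2 : ((b - ∑ i, (l i : ℂ) • Q i : Elt N) : H →L[ℂ] H) =
            (b : H →L[ℂ] H) - ∑ i, (l i : ℂ) • (Q i : H →L[ℂ] H) := by
          have := map_sum N.toStarSubalgebra.subtype (fun i => (l i : ℂ) • Q i) Finset.univ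
          show (b : H →L[ℂ] H) - ((∑ i, (l i : ℂ) • Q i : Elt N) : H →L[ℂ] H) = _
          congr 1
        have e3 : ((a - ∑ i, (l i : ℂ) • q i : Elt M) : H →L[ℂ] H) =
            (a : H →L[ℂ] H) - ∑ i, (l i : ℂ) • (q i : H →L[ℂ] H) := by
          have := map_sum M.toStarSubalgebra.subtype (fun i => (l i : ℂ) • q i) Finset.univ
          show (a : H →L[ℂ] H) - ((∑ i, (l i : ℂ) • q i : Elt M) : H →L[ℂ] H) = _
          congr 1
        rw [e2, e3, hb, mul_sub, sub_mul, Finset.mul_sum, Finset.sum_mul]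
        congr 1
        refine Finset.sum_congr rfl (fun i _ => ?_)
        rw [mul_smul_comm, smul_mul_assoc]
      have h2 : |(σ (b - ∑ i, (l i : ℂ) • Q i)).re| ≤ δ := by
        refine (Complex.abs_re_le_norm _).trans ((normal_norm_le hN.normal hS.one _).trans ?_)
        rw [e1]
        calc ‖u * ((a - ∑ i, (l i : ℂ) • q i : Elt M) : H →L[ℂ] H) * star u‖ ≤ (1 * δ) * 1 :=
              (norm_mul_le _ _).trans (mul_le_mul ((norm_mul_le _ _).trans (mul_le_mul hun hql
                (norm_nonneg _) zero_le_one)) hun' (norm_nonneg _) (by positivity))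
          _ = δ := by ring
      have h3 : (τ (∑ i, (l i : ℂ) • q i)).re = (σ (∑ i, (l i : ℂ) • Q i)).re := by
        rw [map_sum, map_sum, Complex.re_sum, Complex.re_sum]
        refine Finset.sum_congr rfl (fun i _ => ?_)
        rw [map_smul, map_smul, smul_eq_mul, smul_eq_mul, Complex.re_ofReal_mul,
          Complex.re_ofReal_mul, hQt]
      rw [map_sub, Complex.sub_re] at h1 h2
      have h4 : (τ a).re - (σ b).re = ((τ a).re - (τ (∑ i, (l i : ℂ) • q i)).re) -
          ((σ b).re - (σ (∑ i, (l i : ℂ) • Q i)).re) := by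
        rw [h3]; ring
      rw [h4]
      refine (abs_sub _ _).trans ?_
      linarith
    have h5 : |(τ a).re - (σ b).re| ≤ 0 := by
      refine le_of_forall_pos_le_add (fun δ hδ => ?_)
      have := key (δ / 2) (by positivity)
      linarith
    have h6 := abs_eq_zero.1 (le_antisymm h5 (abs_nonneg _))
    linarith
  -- general elements: only the self adjoint part matters
  have h1 : (τ (a + star a)).re = (σ (b + star b)).re := by
    refine hsa (a + star a) (add_mem ha (star_mem ha)) ?_ (b + star b) ?_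
    · rw [star_add, star_star, add_comm]
    · show (b : H →L[ℂ] H) + star (b : H →L[ℂ] H) =
        u * ((a : H →L[ℂ] H) + star (a : H →L[ℂ] H)) * star u
      rw [hb, star_mul, star_mul, star_star, mul_add, add_mul]
      simp only [mul_assoc]
  rw [map_add, map_add, hT.conj, hS.conj, Complex.add_re, Complex.add_re] at h1
  have h2 : ∀ c : ℂ, (star c).re = c.re := fun c => rfl
  rw [h2, h2] at h1
  linarith

end Pool.Agent.Y323.KK
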