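import Mathlib
import Pool.Agent.Y323.KK.Amp

/-!
Right multiplications by unitaries on the submodule generated by an orthonormal family of trace
vectors.
-/

set_option autoImplicit false

open scoped InnerProductSpace ComplexConjugate

namespace Pool.Agent.Y323.KK

open Pool.Agent.H467F

section ext

variable {L : Type*} [NormedAddCommGroup L] [InnerProductSpace ℂ L] [CompleteSpace L]
variable {V : Type*} [AddCommGroup V] [Module ℂ V]

/-- The map `(f, ζ) ↦ p f + ζ`. -/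
noncomputable def ee (p : V →ₗ[ℂ] L) : (V × (LinearMap.range p)ᗮ) →ₗ[ℂ] L :=
  p.coprod (Submodule.subtype _)

omit [CompleteSpace L] in
theorem ee_apply (p : V →ₗ[ℂ] L) (f : V) (ζ : (LinearMap.range p)ᗮ) : ee p (f, ζ) = p f + ζ := rfl

theorem ee_dense (p : V →ₗ[ℂ] L) : DenseRange (ee p) := by
  have h1 : LinearMap.range (ee p) = LinearMap.range p ⊔ (LinearMap.range p)ᗮ := by
    rw [ee, LinearMap.range_coprod, Submodule.range_subtype]
  have h2 : (LinearMap.range (ee p)).topologicalClosure = ⊤ := by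
    rw [Submodule.topologicalClosure_eq_top_iff, h1, ← Submodule.inf_orthogonal]
    rw [Submodule.eq_bot_iff]
    intro x hx
    rw [Submodule.mem_inf] at hx
    exact inner_self_eq_zero.1 ((Submodule.mem_orthogonal _ _).1 hx.2 x hx.1)
  have h3 : Dense ((LinearMap.range (ee p) : Submodule ℂ L) : Set L) :=
    Submodule.dense_iff_topologicalClosure_eq_top.2 h2
  exact h3

theorem ext_unique (p : V →ₗ[ℂ] L) {U U' : L →L[ℂ] L} (h1 : ∀ f, U (p f) = U' (p f))
    (h2 : ∀ ζ ∈ (LinearMap.range p)ᗮ, U ζ = U' ζ) : U = U' := by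
  have : (U : L → L) = U' := by
    refine (ee_dense p).equalizer U.continuous U'.continuous ?_
    funext z
    obtain ⟨f, ζ⟩ := z
    show U (ee p (f, ζ)) = U' (ee p (f, ζ))
    rw [ee_apply, map_add, map_add, h1, h2 _ ζ.2]
  exact ContinuousLinearMap.coe_inj.1 (LinearMap.ext (fun x => congrFun this x))

theorem exists_ext (p q : V →ₗ[ℂ] L) (hq : ∀ f, ‖q f‖ = ‖p f‖)
    (ho : ∀ f, q f ∈ LinearMap.range p) :
    ∃ U : L →L[ℂ] L, (∀ f, U (p f) = q f) ∧ (∀ ζ ∈ (LinearMap.range p)ᗮ, U ζ = ζ) ∧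
      ∀ x, ‖U x‖ ≤ ‖x‖ := by
  let k : (V × (LinearMap.range p)ᗮ) →ₗ[ℂ] L := q.coprod (Submodule.subtype _)
  have hk : ∀ f ζ, k (f, ζ) = q f + ζ := fun f ζ => rfl
  have hn : ∀ z, ‖k z‖ ≤ 1 * ‖ee p z‖ := by
    rintro ⟨f, ζ⟩
    rw [hk, ee_apply, one_mul]
    have h1 : ⟪p f, (ζ : L)⟫_ℂ = 0 := (Submodule.mem_orthogonal _ _).1 ζ.2 _ ⟨f, rfl⟩
    have h2 : ⟪q f, (ζ : L)⟫_ℂ = 0 := (Submodule.mem_orthogonal _ _).1 ζ.2 _ (ho f)
    have h3 := norm_add_sq (𝕜 := ℂ) (p f) (ζ : L)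
    have h4 := norm_add_sq (𝕜 := ℂ) (q f) (ζ : L)
    rw [h1, map_zero, mul_zero, add_zero] at h3
    rw [h2, map_zero, mul_zero, add_zero, hq, ← h3] at h4
    exact le_of_eq ((pow_left_inj₀ (norm_nonneg _) (norm_nonneg _) two_ne_zero).1 h4)
  refine ⟨k.extendOfNorm (ee p), ?_, ?_, ?_⟩
  · intro f
    have := LinearMap.extendOfNorm_eq (ee_dense p) ⟨1, hn⟩ (f, 0)
    rw [ee_apply, hk] at this
    simpa using this
  · intro ζ hζ
    have := LinearMap.extendOfNorm_eq (ee_dense p) ⟨1, hn⟩ (0, ⟨ζ, hζ⟩)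
    rw [ee_apply, hk] at this
    simpa using this
  · intro x
    have := LinearMap.norm_extendOfNorm_apply_le (ee_dense p) 1 hn x
    rwa [one_mul] at this

end ext

section right

variable {H : Type} [NormedAddCommGroup H] [InnerProductSpace ℂ H] [CompleteSpace H]
variable {M : VonNeumannAlgebra H} {n m : ℕ}

/-- `(x_i) ↦ ∑ x_i ξ_i`. -/
noncomputable def pp (M : VonNeumannAlgebra H) (ξ : Fin m → Hn H n) :
    (Fin m → Elt M) →ₗ[ℂ] Hn H n where
  toFun x := ∑ i, amp H n (x i : H →L[ℂ] H) (ξ i)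
  map_add' x y := by
    rw [← Finset.sum_add_distrib]
    refine Finset.sum_congr rfl (fun i _ => ?_)
    rw [Pi.add_apply]
    show amp H n ((x i : H →L[ℂ] H) + (y i : H →L[ℂ] H)) (ξ i) = _
    rw [map_add]; rfl
  map_smul' r x := by
    rw [Finset.smul_sum]
    refine Finset.sum_congr rfl (fun i _ => ?_)
    rw [Pi.smul_apply]
    show amp H n (r • (x i : H →L[ℂ] H)) (ξ i) = _
    rw [map_smul]; rfl

/-- `(x_i) ↦ (s_i x_i g)`. -/
noncomputable def rr (g : Elt M) (s : Fin m → ℂ) : (Fin m → Elt M) →ₗ[ℂ] (Fin m → Elt M) where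
  toFun x i := s i • (x i * g)
  map_add' x y := by
    funext i
    rw [Pi.add_apply, Pi.add_apply, add_mul, smul_add]
  map_smul' r x := by
    funext i
    rw [Pi.smul_apply, RingHom.id_apply, Pi.smul_apply, smul_mul_assoc, smul_comm]

theorem rr_apply (g : Elt M) (s : Fin m → ℂ) (x : Fin m → Elt M) (i : Fin m) :
    rr g s x i = s i • (x i * g) := rfl

theorem pp_apply (ξ : Fin m → Hn H n) (x : Fin m → Elt M) :
    pp M ξ x = ∑ i, amp H n (x i : H →L[ℂ] H) (ξ i) := rfl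

theorem inner_amp (a b : H →L[ℂ] H) (ζ η : Hn H n) :
    ⟪amp H n a ζ, amp H n b η⟫_ℂ = ⟪ζ, amp H n (star a * b) η⟫_ℂ := by
  rw [map_mul, map_star, ContinuousLinearMap.star_eq_adjoint]
  show _ = ⟪ζ, ContinuousLinearMap.adjoint (amp H n a) (amp H n b η)⟫_ℂ
  rw [ContinuousLinearMap.adjoint_inner_right]

variable {τ : Elt M → ℂ} {ξ : Fin m → Hn H n}

theorem inner_pp (hξ : ∀ i j (x : Elt M), ⟪ξ i, amp H n (x : H →L[ℂ] H) (ξ j)⟫_ℂ =
      if i = j then τ x else 0) (x y : Fin m → Elt M) :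
    ⟪pp M ξ x, pp M ξ y⟫_ℂ = ∑ i, τ (star (x i) * y i) := by
  rw [pp_apply, pp_apply, sum_inner]
  refine Finset.sum_congr rfl (fun i _ => ?_)
  rw [inner_sum]
  rw [Finset.sum_eq_single i]
  · rw [inner_amp]
    have := hξ i i (star (x i) * y i)
    rw [if_pos rfl] at this
    exact this
  · intro j _ hj
    rw [inner_amp]
    have := hξ i j (star (x i) * y j)
    rw [if_neg (Ne.symm hj)] at this
    exact this
  · intro h
    exact absurd (Finset.mem_univ i) h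

theorem norm_pp_rr (hξ : ∀ i j (x : Elt M), ⟪ξ i, amp H n (x : H →L[ℂ] H) (ξ j)⟫_ℂ =
      if i = j then τ x else 0) (hτ : ∀ x y, τ (x * y) = τ (y * x)) {g : Elt M}
    (hg : g ∈ unitary (Elt M)) {s : Fin m → ℂ} (hs : ∀ i, star (s i) * s i = 1)
    (x : Fin m → Elt M) : ‖pp M ξ (rr g s x)‖ = ‖pp M ξ x‖ := by
  have h : ⟪pp M ξ (rr g s x), pp M ξ (rr g s x)⟫_ℂ = ⟪pp M ξ x, pp M ξ x⟫_ℂ := by
    rw [inner_pp hξ, inner_pp hξ]
    refine Finset.sum_congr rfl (fun i _ => ?_)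
    rw [rr_apply, star_smul, smul_mul_smul_comm, hs, one_smul, star_mul]
    rw [mul_assoc, hτ, mul_assoc, mul_assoc, Unitary.mul_star_self_of_mem hg, mul_one]
  have h1 := inner_self_eq_norm_sq (𝕜 := ℂ) (pp M ξ (rr g s x))
  have h2 := inner_self_eq_norm_sq (𝕜 := ℂ) (pp M ξ x)
  rw [h, h2] at h1
  exact ((pow_left_inj₀ (norm_nonneg _) (norm_nonneg _) two_ne_zero).1 h1).symm

theorem exists_right (hξ : ∀ i j (x : Elt M), ⟪ξ i, amp H n (x : H →L[ℂ] H) (ξ j)⟫_ℂ =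
      if i = j then τ x else 0) (hτ : ∀ x y, τ (x * y) = τ (y * x))
    {Γ : Type} [CommGroup Γ] (g : Γ → Elt M) (hg : ∀ γ, g γ ∈ unitary (Elt M))
    (hgm : ∀ a b, g (a * b) = g a * g b) (s : Γ → Fin m → ℂ)
    (hs : ∀ γ i, star (s γ i) * s γ i = 1) (hsm : ∀ a b i, s (a * b) i = s a i * s b i) :
    ∃ U : Γ → (Hn H n →L[ℂ] Hn H n), (∀ γ, U γ ∈ unitary (Hn H n →L[ℂ] Hn H n)) ∧
      (∀ a b, U (a * b) = U a * U b) ∧
      (∀ γ, ∀ x ∈ M, U γ * amp H n x = amp H n x * U γ) ∧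
      (∀ γ i, U γ (ξ i) = s γ i • amp H n (g γ : H →L[ℂ] H) (ξ i)) := by
  choose U hU1 hU2 hU3 using fun γ : Γ => exists_ext (pp M ξ) ((pp M ξ).comp (rr (g γ) (s γ)))
    (fun f => norm_pp_rr hξ hτ (hg γ) (hs γ) f) (fun f => ⟨_, rfl⟩)
  have hU1' : ∀ γ f, U γ (pp M ξ f) = pp M ξ (rr (g γ) (s γ) f) := fun γ f => hU1 γ f
  have hmul : ∀ a b, U (a * b) = U a * U b := by
    intro a b
    refine ext_unique (pp M ξ) (fun f => ?_) (fun ζ hζ => ?_)
    · show U (a * b) _ = U a (U b _)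
      rw [hU1', hU1', hU1']
      congr 1
      funext i
      rw [rr_apply, rr_apply, rr_apply, mul_comm a b, hgm, hsm, smul_mul_assoc, smul_smul,
        mul_comm (s b i), mul_assoc]
    · show U (a * b) ζ = U a (U b ζ)
      rw [hU2 _ ζ hζ, hU2 _ ζ hζ, hU2 _ ζ hζ]
  have hg1 : g 1 = 1 := by
    have h1 := hgm 1 1
    rw [mul_one] at h1
    calc g 1 = (star (g 1) * g 1) * g 1 := by rw [Unitary.star_mul_self_of_mem (hg 1), one_mul]
      _ = star (g 1) * (g 1 * g 1) := by rw [mul_assoc]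
      _ = 1 := by rw [← h1, Unitary.star_mul_self_of_mem (hg 1)]
  have hs1 : ∀ i, s 1 i = 1 := by
    intro i
    have h1 := hsm 1 1 i
    rw [mul_one] at h1
    calc s 1 i = (star (s 1 i) * s 1 i) * s 1 i := by rw [hs 1 i, one_mul]
      _ = star (s 1 i) * (s 1 i * s 1 i) := by rw [mul_assoc]
      _ = 1 := by rw [← h1, hs 1 i]
  have hone : U 1 = 1 := by
    refine ext_unique (pp M ξ) (fun f => ?_) (fun ζ hζ => ?_)
    · show U 1 _ = pp M ξ f
      rw [hU1']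
      congr 1
      funext i
      rw [rr_apply, hg1, hs1, one_smul, mul_one]
    · show U 1 ζ = ζ
      rw [hU2 _ ζ hζ]
  have hinv : ∀ a, U a⁻¹ * U a = 1 := fun a => by rw [← hmul, inv_mul_cancel, hone]
  have hinv' : ∀ a, U a * U a⁻¹ = 1 := fun a => by rw [← hmul, mul_inv_cancel, hone]
  have hnorm : ∀ a x, ‖U a x‖ = ‖x‖ := by
    intro a x
    refine le_antisymm (hU3 a x) ?_
    have : U a⁻¹ (U a x) = x := by
      show (U a⁻¹ * U a) x = x
      rw [hinv]; rfl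
    calc ‖x‖ = ‖U a⁻¹ (U a x)‖ := by rw [this]
      _ ≤ ‖U a x‖ := hU3 _ _
  have hss : ∀ a, star (U a) * U a = 1 := by
    intro a
    have := (ContinuousLinearMap.norm_map_iff_adjoint_comp_self (U a)).1 (hnorm a)
    exact this
  have hsi : ∀ a, star (U a) = U a⁻¹ := by
    intro a
    calc star (U a) = star (U a) * (U a * U a⁻¹) := by rw [hinv', mul_one]
      _ = U a⁻¹ := by rw [← mul_assoc, hss, one_mul]
  refine ⟨U, fun γ => ⟨hss γ, by rw [hsi, hinv']⟩, hmul, ?_, ?_⟩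
  · intro γ x hx
    have hinvar : ∀ (y : Elt M) f, amp H n (y : H →L[ℂ] H) (pp M ξ f) = pp M ξ (fun i => y * f i) := by
      intro y f
      rw [pp_apply, pp_apply, map_sum]
      refine Finset.sum_congr rfl (fun i _ => ?_)
      show _ = amp H n ((y : H →L[ℂ] H) * (f i : H →L[ℂ] H)) (ξ i)
      rw [map_mul]; rfl
    refine ext_unique (pp M ξ) (fun f => ?_) (fun ζ hζ => ?_)
    · show U γ (amp H n x (pp M ξ f)) = amp H n x (U γ (pp M ξ f))
      have h1 := hinvar ⟨x, hx⟩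
      have h1' : ∀ f, amp H n x (pp M ξ f) = pp M ξ (fun i => ⟨x, hx⟩ * f i) := h1
      rw [h1', hU1', hU1', h1']
      congr 1
      funext i
      rw [rr_apply, rr_apply, mul_smul_comm, mul_assoc]
    · show U γ (amp H n x ζ) = amp H n x (U γ ζ)
      rw [hU2 γ ζ hζ]
      refine hU2 γ _ ?_
      rw [Submodule.mem_orthogonal]
      rintro _ ⟨f, rfl⟩
      have h1 : ∀ f, amp H n (star x) (pp M ξ f) =
          pp M ξ (fun i => star (⟨x, hx⟩ : Elt M) * f i) := hinvar (star (⟨x, hx⟩ : Elt M))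
      have h2 : ⟪pp M ξ f, amp H n x ζ⟫_ℂ = ⟪amp H n (star x) (pp M ξ f), ζ⟫_ℂ := by
        rw [map_star, ContinuousLinearMap.star_eq_adjoint, ContinuousLinearMap.adjoint_inner_left]
      rw [h2, h1]
      exact (Submodule.mem_orthogonal _ _).1 hζ _ ⟨_, rfl⟩
  · intro γ i
    have h1 : ξ i = pp M ξ (Pi.single i 1) := by
      rw [pp_apply, Finset.sum_eq_single i]
      · rw [Pi.single_eq_same]
        show ξ i = amp H n (1 : H →L[ℂ] H) (ξ i)
        rw [map_one]; rfl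
      · intro j _ hj
        rw [Pi.single_eq_of_ne hj]
        show amp H n (0 : H →L[ℂ] H) (ξ j) = 0
        rw [map_zero]; rfl
      · intro h
        exact absurd (Finset.mem_univ i) h
    conv_lhs => rw [h1]
    rw [hU1', pp_apply, Finset.sum_eq_single i]
    · rw [rr_apply, Pi.single_eq_same, one_mul]
      show amp H n (s γ i • (g γ : H →L[ℂ] H)) (ξ i) = _
      rw [map_smul]; rfl
    · intro j _ hj
      rw [rr_apply, Pi.single_eq_of_ne hj, zero_mul, smul_zero]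
      show amp H n (0 : H →L[ℂ] H) (ξ j) = 0
      rw [map_zero]; rfl
    · intro h
      exact absurd (Finset.mem_univ i) h

end right

end Pool.Agent.Y323.KK
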