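import Mathlib
import Pool.Agent.Y323.KK.Pos
import Pool.Agent.Y323.KK.Right

/-!
Orthonormal families of trace vectors can be transferred between close II_1 factors, in all
amplifications at once.
-/

set_option autoImplicit false

open scoped InnerProductSpace ComplexConjugate ComplexOrder
open Filter Topology

namespace Pool.Agent.Y323.KK

open Pool.Agent.H467F Pool.Agent.H518R4.UG Pool.Agent.H518R5.SC Pool.Agent.W861.AM

variable {H : Type} [NormedAddCommGroup H] [InnerProductSpace ℂ H] [CompleteSpace H]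

theorem Kc_pos : 0 < Kc := by
  unfold Kc; positivity

/-- The universal distance. -/
noncomputable def d0 : ℝ := 1 / (400 * (Kc + 4))

theorem d0_pos : 0 < d0 := by
  have := Kc_pos
  unfold d0; positivity

theorem d0_le : d0 ≤ 1 / 400 := by
  have := Kc_pos
  unfold d0
  apply one_div_le_one_div_of_le (by norm_num)
  linarith

theorem d0_le2 : Kc * (2 * d0) + 8 * d0 ≤ 1 / 100 := by
  have := Kc_pos
  unfold d0
  have h : Kc * (2 * (1 / (400 * (Kc + 4)))) + 8 * (1 / (400 * (Kc + 4))) = 1 / 200 := by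
    field_simp
    ring
  rw [h]; norm_num

theorem inner_unitary {L : Type*} [NormedAddCommGroup L] [InnerProductSpace ℂ L] [CompleteSpace L]
    {w : L →L[ℂ] L} (hw : w ∈ unitary (L →L[ℂ] L)) (ζ η : L) : ⟪w ζ, w η⟫_ℂ = ⟪ζ, η⟫_ℂ := by
  have h1 : ContinuousLinearMap.adjoint w (w η) = η := by
    have : (star w * w) η = η := by rw [hw.1]; rfl
    rw [ContinuousLinearMap.star_eq_adjoint] at this
    exact this
  rw [← ContinuousLinearMap.adjoint_inner_right, h1]

theorem amp_unitary {n : ℕ} {u : H →L[ℂ] H} (hu : u ∈ unitary (H →L[ℂ] H)) :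
    amp H n u ∈ unitary (Hn H n →L[ℂ] Hn H n) :=
  ⟨by rw [← map_star, ← map_mul, hu.1, map_one], by rw [← map_star, ← map_mul, hu.2, map_one]⟩

theorem transfer {M N : VonNeumannAlgebra H} {τ : Elt M →ₗ[ℂ] ℂ} {σ : Elt N →ₗ[ℂ] ℂ}
    (hM : IsIIOneFactor M (τ : Elt M → ℂ)) (hN : IsIIOneFactor N (σ : Elt N → ℂ)) {ε : ℝ}
    (hε0 : 0 ≤ ε) (hε : ε ≤ d0) (hMN : NearB M N ε) (hNM : NearB N M ε) {n m : ℕ}
    {ξ : Fin m → Hn H n} (hξ : ∀ i j (x : Elt M), ⟪ξ i, amp H n (x : H →L[ℂ] H) (ξ j)⟫_ℂ =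
      if i = j then τ x else 0) :
    ∃ ζ : Fin m → Hn H n, ∀ i j (y : Elt N), ⟪ζ i, amp H n (y : H →L[ℂ] H) (ζ j)⟫_ℂ =
      if i = j then σ y else 0 := by
  have hε4 : ε ≤ 1 / 400 := hε.trans d0_le
  have hT := (ii_of hM).fct.tw
  have hS := (ii_of hN).fct.tw
  obtain ⟨A, hA⟩ := exists_masa M
  let icg : CommGroup (unitary A) := hA.cg
  obtain ⟨u, hu, hu1, hu2⟩ := move_group (M := M) (N := N) (ε := ε) (by linarith) hMN
    (fun g : unitary A => ((g : A) : H →L[ℂ] H)) (fun g => IsMasa.unit_mem g) (fun _ _ => rfl)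
    (fun g => hA.le _ g.1.2)
  have hus : star u * u = 1 := hu.1
  have hus' : u * star u = 1 := hu.2
  have hAN : ∀ a ∈ A, u * a * star u ∈ N := by
    intro a ha
    obtain ⟨g, c, rfl⟩ := hA.span ha
    rw [Finset.mul_sum, Finset.sum_mul]
    refine sum_mem (fun i _ => ?_)
    rw [mul_smul_comm, smul_mul_assoc]
    exact N.toStarSubalgebra.smul_mem (hu2 _) _
  -- the group of right multiplications and signs
  obtain ⟨U, hU1, hU2, hU3, hU4⟩ := exists_right (M := M) (τ := (τ : Elt M → ℂ)) hξ hT.comm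
    (Γ := unitary A × (Fin m → ℤˣ)) (fun γ => ⟨((γ.1 : A) : H →L[ℂ] H), hA.le _ γ.1.1.2⟩)
    (fun γ => ⟨Subtype.ext (IsMasa.unit_mem γ.1).1, Subtype.ext (IsMasa.unit_mem γ.1).2⟩)
    (fun a b => rfl) (fun γ i => (((γ.2 i : ℤˣ) : ℤ) : ℂ))
    (fun γ i => by
      rcases Int.units_eq_one_or (γ.2 i) with h | h <;> rw [h] <;> simp)
    (fun a b i => by
      show (((a.2 i * b.2 i : ℤˣ) : ℤ) : ℂ) = _
      push_cast; rfl)
  set uu : Hn H n →L[ℂ] Hn H n := amp H n u with huu
  have huuu : uu ∈ unitary (Hn H n →L[ℂ] Hn H n) := amp_unitary hu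
  have huu1 : star uu * uu = 1 := huuu.1
  have huu2 : uu * star uu = 1 := huuu.2
  have huud : ‖uu - 1‖ ≤ 4 * ε := by
    have : uu - 1 = amp H n (u - 1) := by rw [map_sub, map_one]
    rw [this]
    exact (norm_amp_le n _).trans hu1
  have hθ : ∀ a, amp H n (u * a * star u) = uu * amp H n a * star uu := by
    intro a
    rw [map_mul, map_mul, map_star]
  let S : Set (Hn H n →L[ℂ] Hn H n) := {T | ∃ y ∈ N, T = amp H n y}
  have hSs : ∀ s ∈ S, star s ∈ S := by
    rintro _ ⟨y, hy, rfl⟩
    exact ⟨star y, star_mem hy, (map_star _ _).symm⟩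
  let Z : Set (Hn H n →L[ℂ] Hn H n) := {T | ∃ a ∈ A, T = amp H n (u * a * star u)}
  obtain ⟨v, hv, -, hv2, hv3⟩ := near_group S hSs (fun γ => uu * U γ * star uu)
    (fun γ => mul_mem (mul_mem huuu (hU1 γ)) (Unitary.star_mem huuu))
    (fun a b => by
      show uu * U (a * b) * star uu = uu * U a * star uu * (uu * U b * star uu)
      rw [hU2]
      calc uu * (U a * U b) * star uu = uu * U a * 1 * U b * star uu := by
            rw [mul_one]; simp only [mul_assoc]
        _ = uu * U a * (star uu * uu) * U b * star uu := by rw [huu1]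
        _ = _ := by simp only [mul_assoc]) (δ := Kc * (2 * d0) + 8 * d0) d0_le2
    (fun γ => by
      obtain ⟨T₁, hT1, hT2⟩ := comm_near (M := N) (N := M) hε0 hNM n (U γ)
        (fun x hx => hU3 γ x hx) (norm_unitary_le (hU1 γ))
      refine ⟨T₁, ?_, ?_⟩
      · rw [Set.mem_centralizer_iff]
        rintro _ ⟨y, hy, rfl⟩
        exact (hT1 y hy).symm
      · have h1 : ‖U γ - uu * U γ * star uu‖ ≤ 2 * (4 * ε) :=
          conj_norm_le (H := Hn H n) huuu (norm_unitary_le (hU1 γ)) huud
        have h2 : T₁ - uu * U γ * star uu = (T₁ - U γ) + (U γ - uu * U γ * star uu) := by abel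
        rw [h2]
        refine (norm_add_le _ _).trans ?_
        have h3 : Kc * (2 * ε) ≤ Kc * (2 * d0) :=
          mul_le_mul_of_nonneg_left (by linarith) Kc_pos.le
        linarith) Z
    (by
      rintro _ ⟨a, ha, rfl⟩
      refine ⟨star a, star_mem ha, ?_⟩
      rw [← map_star, star_mul, star_mul, star_star, mul_assoc])
    (by
      rintro _ ⟨a, ha, rfl⟩ γ
      rw [hθ]
      have h1 := hU3 γ a (hA.le a ha)
      calc uu * amp H n a * star uu * (uu * U γ * star uu) =
          uu * amp H n a * (star uu * uu) * U γ * star uu := by simp only [mul_assoc]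
        _ = uu * (amp H n a * U γ) * star uu := by rw [huu1, mul_one]; simp only [mul_assoc]
        _ = uu * (U γ * amp H n a) * star uu := by rw [h1]
        _ = uu * U γ * 1 * amp H n a * star uu := by rw [mul_one]; simp only [mul_assoc]
        _ = uu * U γ * (star uu * uu) * amp H n a * star uu := by rw [huu1]
        _ = _ := by simp only [mul_assoc])
    (by
      rintro _ ⟨a, ha, rfl⟩ c hc
      exact Set.mem_centralizer_iff.1 hc _ ⟨_, hAN a ha, rfl⟩)
  have hv1 : star v * v = 1 := hv.1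
  set W : (unitary A × (Fin m → ℤˣ)) → (Hn H n →L[ℂ] Hn H n) :=
    fun γ => v * (uu * U γ * star uu) * star v with hW
  have hWu : ∀ γ, W γ ∈ unitary (Hn H n →L[ℂ] Hn H n) := fun γ =>
    mul_mem (mul_mem hv (mul_mem (mul_mem huuu (hU1 γ)) (Unitary.star_mem huuu)))
      (Unitary.star_mem hv)
  have hWc : ∀ γ, ∀ y ∈ N, W γ * amp H n y = amp H n y * W γ := by
    intro γ y hy
    exact (Set.mem_centralizer_iff.1 (hv2 γ) _ ⟨y, hy, rfl⟩).symm
  let ζ : Fin m → Hn H n := fun i => v (uu (ξ i))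
  have hζ : ∀ i, ζ i = v (uu (ξ i)) := fun i => rfl
  have hvθ : ∀ a ∈ A, ∀ x, v (amp H n (u * a * star u) x) = amp H n (u * a * star u) (v x) := by
    intro a ha x
    have h1 := hv3 _ ⟨a, ha, rfl⟩
    have := congrArg (fun T : Hn H n →L[ℂ] Hn H n => T x) h1
    exact this.symm
  have huθ : ∀ a x, uu (amp H n a x) = amp H n (u * a * star u) (uu x) := by
    intro a x
    rw [hθ]
    show _ = (uu * amp H n a * (star uu * uu)) x
    rw [huu1, mul_one]; rfl
  have hWζ : ∀ γ i, W γ (ζ i) = (((γ.2 i : ℤˣ) : ℤ) : ℂ) •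
      amp H n (u * ((γ.1 : A) : H →L[ℂ] H) * star u) (ζ i) := by
    intro γ i
    have h1 : W γ (ζ i) = v (uu (U γ (ξ i))) := by
      have h2 : W γ * (v * uu) = v * uu * U γ := by
        calc W γ * (v * uu) = v * uu * U γ * star uu * (star v * v) * uu := by
              rw [hW]; simp only [mul_assoc]
          _ = v * uu * U γ * (star uu * uu) := by rw [hv1, mul_one, mul_assoc]
          _ = v * uu * U γ := by rw [huu1, mul_one]
      exact congrArg (fun T : Hn H n →L[ℂ] Hn H n => T (ξ i)) h2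
    rw [h1, hU4, map_smul, map_smul]
    congr 1
    show v (uu (amp H n ((γ.1 : A) : H →L[ℂ] H) (ξ i))) = _
    rw [huθ, hvθ _ γ.1.1.2]
  -- invariance
  have hinv : ∀ (γ : unitary A × (Fin m → ℤˣ)) i j, ∀ y ∈ N, ⟪ζ i, amp H n y (ζ j)⟫_ℂ =
      (star (((γ.2 i : ℤˣ) : ℤ) : ℂ) * (((γ.2 j : ℤˣ) : ℤ) : ℂ)) *
        ⟪ζ i, amp H n (star (u * ((γ.1 : A) : H →L[ℂ] H) * star u) * y *
          (u * ((γ.1 : A) : H →L[ℂ] H) * star u)) (ζ j)⟫_ℂ := by
    intro γ i j y hy
    rw [← inner_unitary (hWu γ) (ζ i) (amp H n y (ζ j))]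
    have h1 : W γ (amp H n y (ζ j)) = amp H n y (W γ (ζ j)) :=
      congrArg (fun T : Hn H n →L[ℂ] Hn H n => T (ζ j)) (hWc γ y hy)
    rw [h1, hWζ, hWζ, map_smul, inner_smul_left, inner_smul_right, ← mul_assoc]
    congr 1
    have h2 : amp H n y (amp H n (u * ((γ.1 : A) : H →L[ℂ] H) * star u) (ζ j)) =
        amp H n (y * (u * ((γ.1 : A) : H →L[ℂ] H) * star u)) (ζ j) := by
      rw [map_mul _ y]; rfl
    rw [h2, inner_amp]
    simp only [mul_assoc]
  refine ⟨ζ, ?_⟩
  -- the diagonal case, real parts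
  have hdiag : ∀ i (y : Elt N), (⟪ζ i, amp H n (y : H →L[ℂ] H) (ζ i)⟫_ℂ).re = (σ y).re := by
    intro i y
    obtain ⟨μ, hμ, hinvμ⟩ := exists_mean (unitary A)
    have hθN : ∀ g : unitary A, u * ((g : A) : H →L[ℂ] H) * star u ∈ N := fun g => hAN _ g.1.2
    have hθu : ∀ g : unitary A, u * ((g : A) : H →L[ℂ] H) * star u ∈ unitary (H →L[ℂ] H) :=
      fun g => mul_mem (mul_mem hu (IsMasa.unit_mem g)) (Unitary.star_mem hu)
    let F : unitary A → Elt N := fun g => star (⟨_, hθN g⟩ : Elt N) * y * ⟨_, hθN g⟩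
    have hFc : ∀ g, (F g : H →L[ℂ] H) = star (u * ((g : A) : H →L[ℂ] H) * star u) *
        (y : H →L[ℂ] H) * (u * ((g : A) : H →L[ℂ] H) * star u) := fun g => rfl
    have hOF : OBd (fun g => (F g : H →L[ℂ] H)) := by
      refine ⟨1 * ‖(y : H →L[ℂ] H)‖ * 1, fun g => ?_⟩
      show ‖(F g : H →L[ℂ] H)‖ ≤ _
      rw [hFc]
      have h1 := norm_unitary_le (hθu g)
      have h2 : ‖star (u * ((g : A) : H →L[ℂ] H) * star u)‖ ≤ 1 := by rw [norm_star]; exact h1
      exact (norm_mul_le _ _).trans (mul_le_mul ((norm_mul_le _ _).trans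
        (mul_le_mul_of_nonneg_right h2 (norm_nonneg _))) h1 (norm_nonneg _) (by positivity))
    obtain ⟨T, hTl⟩ := exists_lim hμ hOF
    have hTN : T ∈ N := mem_of_lim hTl (fun g => (F g).2)
    have hθm : ∀ g h : unitary A, u * (((h * g : unitary A) : A) : H →L[ℂ] H) * star u =
        (u * ((g : A) : H →L[ℂ] H) * star u) * (u * ((h : A) : H →L[ℂ] H) * star u) := by
      intro g h
      have h1 : (((h * g : unitary A) : A) : H →L[ℂ] H) =
          ((g : A) : H →L[ℂ] H) * ((h : A) : H →L[ℂ] H) := hA.comm _ h.1.2 _ g.1.2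
      rw [h1]
      calc u * (((g : A) : H →L[ℂ] H) * ((h : A) : H →L[ℂ] H)) * star u =
          u * ((g : A) : H →L[ℂ] H) * 1 * ((h : A) : H →L[ℂ] H) * star u := by
            rw [mul_one]; simp only [mul_assoc]
        _ = u * ((g : A) : H →L[ℂ] H) * (star u * u) * ((h : A) : H →L[ℂ] H) * star u := by
            rw [hus]
        _ = _ := by simp only [mul_assoc]
    have hTc : ∀ h : unitary A, T * (u * ((h : A) : H →L[ℂ] H) * star u) =
        (u * ((h : A) : H →L[ℂ] H) * star u) * T := by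
      intro h
      have h1 := IsLim.shift hOF hTl h (hinvμ h)
      have h2 := (hTl.mulL (star (u * ((h : A) : H →L[ℂ] H) * star u))).mulR
        (u * ((h : A) : H →L[ℂ] H) * star u)
      have e : (fun g => (F (h * g) : H →L[ℂ] H)) = fun g =>
          star (u * ((h : A) : H →L[ℂ] H) * star u) * (F g : H →L[ℂ] H) *
            (u * ((h : A) : H →L[ℂ] H) * star u) := by
        funext g
        rw [hFc, hFc, hθm g h, star_mul (u * ((g : A) : H →L[ℂ] H) * star u)]
        simp only [mul_assoc]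
      rw [e] at h1
      have h3 := h2.unique h1
      have h4 : (u * ((h : A) : H →L[ℂ] H) * star u) *
        star (u * ((h : A) : H →L[ℂ] H) * star u) = 1 := (hθu h).2
      calc T * (u * ((h : A) : H →L[ℂ] H) * star u) = ((u * ((h : A) : H →L[ℂ] H) * star u) *
            star (u * ((h : A) : H →L[ℂ] H) * star u)) *
            (T * (u * ((h : A) : H →L[ℂ] H) * star u)) := by rw [h4, one_mul]
        _ = (u * ((h : A) : H →L[ℂ] H) * star u) *
            (star (u * ((h : A) : H →L[ℂ] H) * star u) * T *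
              (u * ((h : A) : H →L[ℂ] H) * star u)) := by simp only [mul_assoc]
        _ = _ := by rw [h3]
    -- T comes from the masa
    have hzA : star u * T * u ∈ A := by
      refine moved_max hA hε4 hNM hu hu1 hAN (z := star u * T * u) ?_ ?_
      · have : u * (star u * T * u) * star u = T := by
          calc u * (star u * T * u) * star u = (u * star u) * T * (u * star u) := by
                simp only [mul_assoc]
            _ = T := by rw [hus', one_mul, mul_one]
        rw [this]; exact hTN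
      · intro a ha
        refine (hA.comm_of_unit (x := star u * T * u) (fun h => ?_) a ha).symm
        have h1 := hTc h
        calc ((h : A) : H →L[ℂ] H) * (star u * T * u) =
            (star u * u) * ((h : A) : H →L[ℂ] H) * (star u * T * u) := by rw [hus, one_mul]
          _ = star u * ((u * ((h : A) : H →L[ℂ] H) * star u) * T) * u := by
            simp only [mul_assoc]
          _ = star u * (T * (u * ((h : A) : H →L[ℂ] H) * star u)) * u := by rw [h1]
          _ = star u * T * u * ((h : A) : H →L[ℂ] H) * (star u * u) := by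
            simp only [mul_assoc]
          _ = _ := by rw [hus, mul_one]
    have hTz : u * (star u * T * u) * star u = T := by
      calc u * (star u * T * u) * star u = (u * star u) * T * (u * star u) := by
            simp only [mul_assoc]
        _ = T := by rw [hus', one_mul, mul_one]
    -- first functional
    have h1 : (⟪ζ i, amp H n T (ζ i)⟫_ℂ).re = (⟪ζ i, amp H n (y : H →L[ℂ] H) (ζ i)⟫_ℂ).re := by
      rw [hTl.ampl hμ hOF n (ζ i) (ζ i)]
      have h2 : (fun g => (⟪ζ i, amp H n (F g : H →L[ℂ] H) (ζ i)⟫_ℂ).re) =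
          fun _ => (⟪ζ i, amp H n (y : H →L[ℂ] H) (ζ i)⟫_ℂ).re := by
        funext g
        rw [hinv (g, 1) i i _ y.2]
        simp only [Pi.one_apply, Units.val_one, Int.cast_one, star_one, one_mul]
        rfl
      rw [h2, hμ.const]
    have h2 : (σ ⟨T, hTN⟩).re = (σ y).re := by
      refine normal_lim hμ hN.normal (F := F) hOF (T := ⟨T, hTN⟩) hTl (fun g => ?_)
      show (σ (star (⟨_, hθN g⟩ : Elt N) * y * ⟨_, hθN g⟩)).re = _
      rw [hS.comm, ← mul_assoc]
      have h3 : (⟨_, hθN g⟩ : Elt N) * star (⟨_, hθN g⟩ : Elt N) = 1 :=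
        Subtype.ext (hθu g).2
      rw [h3, one_mul]
    have h3 : (τ ⟨star u * T * u, hA.le _ hzA⟩).re = (σ ⟨T, hTN⟩).re :=
      moved_trace hM hN hA hε4 hMN hu hu1 hAN (a := ⟨star u * T * u, hA.le _ hzA⟩) hzA
        (b := ⟨T, hTN⟩) hTz.symm
    have h4 : ⟪ζ i, amp H n T (ζ i)⟫_ℂ = τ ⟨star u * T * u, hA.le _ hzA⟩ := by
      have h5 := hξ i i ⟨star u * T * u, hA.le _ hzA⟩
      rw [if_pos rfl] at h5
      rw [← h5, hζ]
      have h6 : amp H n T (v (uu (ξ i))) = v (uu (amp H n (star u * T * u) (ξ i))) := by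
        rw [huθ, hvθ _ hzA, hTz]
      rw [h6, inner_unitary hv, inner_unitary huuu]
    rw [← h1, h4, h3, h2]
  intro i j y
  split_ifs with hij
  · subst hij
    apply Complex.ext
    · exact hdiag i y
    · have h1 := hdiag i ((-Complex.I) • y)
      rw [map_smul] at h1
      have h2 : amp H n (((-Complex.I) • y : Elt N) : H →L[ℂ] H) (ζ i) =
          (-Complex.I) • amp H n (y : H →L[ℂ] H) (ζ i) := by
        show amp H n ((-Complex.I) • (y : H →L[ℂ] H)) (ζ i) = _
        rw [map_smul]; rfl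
      rw [h2, inner_smul_right, smul_eq_mul] at h1
      simpa using h1
  · have h1 := hinv (1, Function.update 1 i (-1)) i j _ y.2
    dsimp only at h1
    rw [Function.update_self, Function.update_of_ne (Ne.symm hij)] at h1
    have h2 : u * (((1 : unitary A) : A) : H →L[ℂ] H) * star u = 1 := by
      have : (((1 : unitary A) : A) : H →L[ℂ] H) = 1 := rfl
      rw [this, mul_one, hus']
    have h3 : star (u * (((1 : unitary A) : A) : H →L[ℂ] H) * star u) * (y : H →L[ℂ] H) *
          (u * (((1 : unitary A) : A) : H →L[ℂ] H) * star u) = (y : H →L[ℂ] H) := by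
      rw [h2, star_one, one_mul, mul_one]
    rw [h3] at h1
    simp only [Units.val_neg, Units.val_one, Int.cast_neg, Int.cast_one, star_neg, star_one,
      Pi.one_apply, mul_one, neg_mul, one_mul] at h1
    exact self_eq_neg.1 h1

end Pool.Agent.Y323.KK
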