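import Mathlib
import Pool.Agent.Y323.KK.Amp

/-!
An orthonormal family of trace vectors has at most as many members as the dimension of the module.
-/

set_option autoImplicit false

open scoped InnerProductSpace ComplexConjugate
open Filter Topology

namespace Pool.Agent.Y323.KK

open Pool.Agent.H467F

section proj

variable {L : Type*} [NormedAddCommGroup L] [InnerProductSpace ℂ L]
variable {J : Type*}

theorem orth_sub (K : J → Submodule ℂ L) [∀ a, (K a).HasOrthogonalProjection]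
    (hK : ∀ a b, a ≠ b → ∀ x ∈ K a, ∀ y ∈ K b, ⟪x, y⟫_ℂ = 0) (F : Finset J) (η : L) {a : J}
    (ha : a ∈ F) {w : L} (hw : w ∈ K a) :
    ⟪η - ∑ b ∈ F, (K b).starProjection η, w⟫_ℂ = 0 := by
  classical
  have h1 : ⟪∑ b ∈ F, (K b).starProjection η, w⟫_ℂ = ⟪(K a).starProjection η, w⟫_ℂ := by
    rw [sum_inner, Finset.sum_eq_single a]
    · intro b _ hb
      exact hK b a hb _ (Submodule.starProjection_apply_mem _ _) _ hw
    · intro h; exact absurd ha h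
  rw [inner_sub_left, h1, ← inner_sub_left]
  exact Submodule.starProjection_inner_eq_zero η w hw

theorem inner_proj_self (K : Submodule ℂ L) [K.HasOrthogonalProjection] (η : L) :
    (⟪η, K.starProjection η⟫_ℂ).re = ‖K.starProjection η‖ ^ 2 := by
  have h1 := Submodule.starProjection_inner_eq_zero (K := K) η (K.starProjection η)
    (Submodule.starProjection_apply_mem _ _)
  rw [inner_sub_left, sub_eq_zero] at h1
  rw [h1]
  exact inner_self_eq_norm_sq (𝕜 := ℂ) _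

theorem pyth (K : J → Submodule ℂ L) [∀ a, (K a).HasOrthogonalProjection]
    (hK : ∀ a b, a ≠ b → ∀ x ∈ K a, ∀ y ∈ K b, ⟪x, y⟫_ℂ = 0) (F : Finset J) (η : L) :
    ‖η‖ ^ 2 = ‖η - ∑ b ∈ F, (K b).starProjection η‖ ^ 2 +
      ∑ b ∈ F, ‖(K b).starProjection η‖ ^ 2 := by
  set g := ∑ b ∈ F, (K b).starProjection η with hg
  have h1 : ⟪η - g, g⟫_ℂ = 0 := by
    conv_lhs => rw [hg]
    rw [inner_sum]
    refine Finset.sum_eq_zero (fun a ha => ?_)
    exact orth_sub K hK F η ha (Submodule.starProjection_apply_mem _ _)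
  have h2 : ‖g‖ ^ 2 = ∑ b ∈ F, ‖(K b).starProjection η‖ ^ 2 := by
    have h3 : ⟪g, g⟫_ℂ = ⟪η, g⟫_ℂ := by
      rw [inner_sub_left, sub_eq_zero] at h1
      exact h1.symm
    have h4 : ‖g‖ ^ 2 = (⟪g, g⟫_ℂ).re := (inner_self_eq_norm_sq (𝕜 := ℂ) g).symm
    rw [h4, h3, hg, inner_sum, Complex.re_sum]
    exact Finset.sum_congr rfl (fun a _ => inner_proj_self _ _)
  have h5 := norm_add_sq (𝕜 := ℂ) (η - g) g
  rw [sub_add_cancel, h1, map_zero, mul_zero, add_zero, h2] at h5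
  exact h5

variable [CompleteSpace L]

theorem proj_le (R : Submodule ℂ L) (ζ : L) {c : ℝ} (hc0 : 0 ≤ c) (hc : ∀ r ∈ R, ‖⟪ζ, r⟫_ℂ‖ ≤ c * ‖r‖) :
    ‖R.topologicalClosure.starProjection ζ‖ ≤ c := by
  have h1 : ∀ k ∈ R.topologicalClosure, ‖⟪ζ, k⟫_ℂ‖ ≤ c * ‖k‖ := by
    intro k hk
    have hcl : IsClosed {k : L | ‖⟪ζ, k⟫_ℂ‖ ≤ c * ‖k‖} :=
      isClosed_le (by fun_prop) (by fun_prop)
    have : closure (R : Set L) ⊆ {k : L | ‖⟪ζ, k⟫_ℂ‖ ≤ c * ‖k‖} := closure_minimal hc hcl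
    exact this hk
  set P := R.topologicalClosure.starProjection ζ with hP
  have h2 := h1 P (Submodule.starProjection_apply_mem _ _)
  have h3 := inner_proj_self R.topologicalClosure ζ
  rw [← hP] at h3
  have h4 := Complex.re_le_norm ⟪ζ, P⟫_ℂ
  by_cases h0 : ‖P‖ = 0
  · rw [h0]
    exact hc0
  · have h8 : 0 < ‖P‖ := lt_of_le_of_ne (norm_nonneg _) (Ne.symm h0)
    have h9 : ‖P‖ * ‖P‖ ≤ c * ‖P‖ := by nlinarith
    exact le_of_mul_le_mul_right h9 h8

/-- Parseval for a dense family of orthogonal submodules, up to `ε`. -/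
theorem parseval_approx (R : J → Submodule ℂ L)
    (hR : ∀ a b, a ≠ b → ∀ x ∈ R a, ∀ y ∈ R b, ⟪x, y⟫_ℂ = 0)
    (hd : (⨆ a, R a).topologicalClosure = ⊤) (ζ : L) {ε : ℝ} (hε : 0 < ε) :
    ∃ F₀ : Finset J, ∀ F, F₀ ⊆ F → ‖ζ‖ ^ 2 ≤
      ∑ a ∈ F, ‖(R a).topologicalClosure.starProjection ζ‖ ^ 2 + ε := by
  classical
  have hK : ∀ a b, a ≠ b → ∀ x ∈ (R a).topologicalClosure, ∀ y ∈ (R b).topologicalClosure,
      ⟪x, y⟫_ℂ = 0 := by
    intro a b hab
    have h1 : ∀ x ∈ R a, ∀ y ∈ (R b).topologicalClosure, ⟪x, y⟫_ℂ = 0 := by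
      intro x hx y hy
      have hcl : IsClosed {y : L | ⟪x, y⟫_ℂ = 0} := isClosed_eq (by fun_prop) (by fun_prop)
      exact closure_minimal (fun y hy => hR a b hab x hx y hy) hcl hy
    intro x hx y hy
    have hcl : IsClosed {x : L | ⟪x, y⟫_ℂ = 0} := isClosed_eq (by fun_prop) (by fun_prop)
    exact closure_minimal (fun x hx => h1 x hx y hy) hcl hx
  have hζ : ζ ∈ closure ((⨆ a, R a : Submodule ℂ L) : Set L) := by
    have : ζ ∈ (⨆ a, R a).topologicalClosure := by rw [hd]; exact Submodule.mem_top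
    exact this
  obtain ⟨k, hk, hkζ⟩ := Metric.mem_closure_iff.1 hζ (Real.sqrt ε) (Real.sqrt_pos.2 hε)
  obtain ⟨f, hf, hfk⟩ := (Submodule.mem_iSup_iff_exists_finsupp _ _).1 hk
  refine ⟨f.support, fun F hF => ?_⟩
  have hfk' : ∑ a ∈ F, f a = k := by
    rw [← hfk]
    symm
    refine Finset.sum_subset hF (fun a _ ha => ?_)
    exact Finsupp.notMem_support_iff.1 ha
  set g := ∑ b ∈ F, (R b).topologicalClosure.starProjection ζ with hg
  have h1 := pyth (fun a => (R a).topologicalClosure) hK F ζ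
  have h2 : ⟪ζ - g, g - k⟫_ℂ = 0 := by
    have e : g - k = ∑ a ∈ F, ((R a).topologicalClosure.starProjection ζ - f a) := by
      rw [Finset.sum_sub_distrib, hfk']
    rw [e, inner_sum]
    refine Finset.sum_eq_zero (fun a ha => ?_)
    exact orth_sub (fun a => (R a).topologicalClosure) hK F ζ ha
      (sub_mem (Submodule.starProjection_apply_mem _ _)
        (Submodule.le_topologicalClosure _ (hf a)))
  have h3 := norm_add_sq (𝕜 := ℂ) (ζ - g) (g - k)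
  rw [sub_add_sub_cancel, h2, map_zero, mul_zero, add_zero] at h3
  rw [dist_eq_norm] at hkζ
  have h4 : ‖ζ - k‖ ^ 2 < ε := by
    have := Real.sq_sqrt hε.le
    nlinarith [norm_nonneg (ζ - k), Real.sqrt_nonneg ε]
  have h5 : ‖ζ‖ ^ 2 = ‖ζ - g‖ ^ 2 +
      ∑ b ∈ F, ‖(R b).topologicalClosure.starProjection ζ‖ ^ 2 := h1
  nlinarith [sq_nonneg ‖g - k‖]

end proj

section rep

variable {L : Type*} [NormedAddCommGroup L] [InnerProductSpace ℂ L] [CompleteSpace L]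
variable {A : Type*} [CStarAlgebra A] (ρ : A →⋆ₐ[ℂ] (L →L[ℂ] L)) {τ : A → ℂ}

/-- The submodule generated by a vector. -/
noncomputable def Rg (η : L) : Submodule ℂ L :=
  LinearMap.range ((LinearMap.flip (LinearMap.id : (L →ₗ[ℂ] L) →ₗ[ℂ] (L →ₗ[ℂ] L)) η).comp
    ((ContinuousLinearMap.coeLM ℂ : (L →L[ℂ] L) →ₗ[ℂ] (L →ₗ[ℂ] L)).comp
      (ρ : A →ₗ[ℂ] (L →L[ℂ] L))))

theorem mem_Rg {η x : L} : x ∈ Rg ρ η ↔ ∃ y : A, ρ y η = x := Iff.rfl

theorem inner_rho (x y : A) (ζ η : L) : ⟪ρ x ζ, ρ y η⟫_ℂ = ⟪ζ, ρ (star x * y) η⟫_ℂ := by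
  rw [map_mul, map_star, ContinuousLinearMap.star_eq_adjoint]
  show _ = ⟪ζ, ContinuousLinearMap.adjoint (ρ x) (ρ y η)⟫_ℂ
  rw [ContinuousLinearMap.adjoint_inner_right]

theorem rho_norm_sq (x : A) (η : L) : ‖ρ x η‖ ^ 2 = (⟪η, ρ (star x * x) η⟫_ℂ).re := by
  rw [← inner_rho]
  exact (inner_self_eq_norm_sq (𝕜 := ℂ) _).symm

theorem proj_sym (hτ : ∀ x y, τ (x * y) = τ (y * x)) {ζ η : L} {p : A}
    (hp : star p = p ∧ p * p = p) (hζ : ∀ x, ⟪ζ, ρ x ζ⟫_ℂ = τ x)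
    (hη : ∀ x, ⟪η, ρ x η⟫_ℂ = τ (x * p)) :
    ‖(Rg ρ η).topologicalClosure.starProjection ζ‖ ≤
      ‖(Rg ρ ζ).topologicalClosure.starProjection η‖ := by
  have h0 : τ 0 = 0 := by
    have := hη 0
    rw [map_zero, zero_mul] at this
    rw [← this]
    show ⟪η, (0 : L)⟫_ℂ = 0
    exact inner_zero_right _
  have hpη : ρ p η = η := by
    have h1 : ‖ρ (1 - p) η‖ ^ 2 = 0 := by
      rw [rho_norm_sq, hη]
      have : star (1 - p) * (1 - p) * p = 0 := by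
        rw [mul_assoc, sub_mul 1 p p, hp.2, one_mul, sub_self, mul_zero]
      rw [this, h0, Complex.zero_re]
    have h2 : ρ (1 - p) η = 0 := norm_eq_zero.1 (pow_eq_zero_iff two_ne_zero |>.1 h1)
    rw [map_sub, map_one] at h2
    have h3 : η - ρ p η = 0 := h2
    rw [sub_eq_zero] at h3
    exact h3.symm
  refine proj_le _ _ (norm_nonneg _) ?_
  intro r hr
  obtain ⟨y, rfl⟩ := (mem_Rg ρ).1 hr
  have h1 : ρ y η = ρ (y * p) η := by
    rw [map_mul]
    show ρ y η = ρ y (ρ p η)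
    rw [hpη]
  set w := ρ (star (y * p)) ζ with hw
  have h2 : ⟪ζ, ρ y η⟫_ℂ = ⟪w, η⟫_ℂ := by
    have h3 := inner_rho ρ (star (y * p)) 1 ζ η
    rw [star_star, mul_one, map_one] at h3
    rw [h1]
    exact h3.symm
  have hwm : w ∈ (Rg ρ ζ).topologicalClosure :=
    Submodule.le_topologicalClosure _ ((mem_Rg ρ).2 ⟨_, rfl⟩)
  have h3 : ⟪w, η⟫_ℂ = ⟪w, (Rg ρ ζ).topologicalClosure.starProjection η⟫_ℂ := by
    rw [← Submodule.inner_starProjection_left_eq_right,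
      Submodule.starProjection_eq_self_iff.2 hwm]
  have h4 : ‖w‖ ^ 2 = ‖ρ y η‖ ^ 2 := by
    rw [hw, rho_norm_sq, rho_norm_sq, hζ, hη, star_star]
    congr 1
    rw [hτ, star_mul, hp.1]
    have e1 : p * star y * (y * p) = p * (star y * y * p) := by simp only [mul_assoc]
    rw [e1, hτ]
    have e2 : star y * y * p * p = star y * y * p := by rw [mul_assoc, hp.2]
    rw [e2]
  have h5 : ‖w‖ = ‖ρ y η‖ := (pow_left_inj₀ (norm_nonneg _) (norm_nonneg _) two_ne_zero).1 h4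
  rw [h2, h3, ← h5, mul_comm]
  exact norm_inner_le_norm _ _

/-- The number of orthonormal trace vectors is bounded by the dimension. -/
theorem upper (hτ : ∀ x y, τ (x * y) = τ (y * x)) (h1 : τ 1 = 1) {J : Type*} {p : J → A}
    {η : J → L} (hp : ∀ a, star (p a) = p a ∧ p a * p a = p a)
    (hη : ∀ a x, ⟪η a, ρ x (η a)⟫_ℂ = τ (x * p a))
    (hηo : ∀ a b, a ≠ b → ∀ x, ⟪η a, ρ x (η b)⟫_ℂ = 0)
    (hd : (⨆ a, Rg ρ (η a)).topologicalClosure = ⊤) {m : ℕ} {ζ : Fin m → L}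
    (hζ : ∀ i x, ⟪ζ i, ρ x (ζ i)⟫_ℂ = τ x) (hζo : ∀ i j, i ≠ j → ∀ x, ⟪ζ i, ρ x (ζ j)⟫_ℂ = 0) :
    (m : ENNReal) ≤ ∑' a, ENNReal.ofReal (τ (p a)).re := by
  classical
  have hRo : ∀ a b, a ≠ b → ∀ x ∈ Rg ρ (η a), ∀ y ∈ Rg ρ (η b), ⟪x, y⟫_ℂ = 0 := by
    intro a b hab x hx y hy
    obtain ⟨x, rfl⟩ := (mem_Rg ρ).1 hx
    obtain ⟨y, rfl⟩ := (mem_Rg ρ).1 hy
    rw [inner_rho]
    exact hηo a b hab _
  have hQo : ∀ i j, i ≠ j → ∀ x ∈ (Rg ρ (ζ i)).topologicalClosure,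
      ∀ y ∈ (Rg ρ (ζ j)).topologicalClosure, ⟪x, y⟫_ℂ = 0 := by
    intro i j hij
    have h1 : ∀ x ∈ Rg ρ (ζ i), ∀ y ∈ (Rg ρ (ζ j)).topologicalClosure, ⟪x, y⟫_ℂ = 0 := by
      intro x hx y hy
      have hcl : IsClosed {y : L | ⟪x, y⟫_ℂ = 0} := isClosed_eq (by fun_prop) (by fun_prop)
      refine closure_minimal (fun y hy => ?_) hcl hy
      obtain ⟨x, rfl⟩ := (mem_Rg ρ).1 hx
      obtain ⟨y, rfl⟩ := (mem_Rg ρ).1 hy
      show ⟪_, _⟫_ℂ = 0
      rw [inner_rho]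
      exact hζo i j hij _
    intro x hx y hy
    have hcl : IsClosed {x : L | ⟪x, y⟫_ℂ = 0} := isClosed_eq (by fun_prop) (by fun_prop)
    exact closure_minimal (fun x hx => h1 x hx y hy) hcl hx
  have hζn : ∀ i, ‖ζ i‖ ^ 2 = 1 := by
    intro i
    have h2 := rho_norm_sq ρ 1 (ζ i)
    rw [star_one, mul_one, hζ, h1, map_one, Complex.one_re] at h2
    exact h2
  have hηn : ∀ a, ‖η a‖ ^ 2 = (τ (p a)).re := by
    intro a
    have h2 := rho_norm_sq ρ 1 (η a)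
    rw [star_one, mul_one, hη, one_mul, map_one] at h2
    exact h2
  refine ENNReal.le_of_forall_pos_le_add (fun ε hε _ => ?_)
  by_cases hm : m = 0
  · rw [hm]; simp
  have hm' : (0 : ℝ) < m := by exact_mod_cast Nat.pos_of_ne_zero hm
  have hε' : (0 : ℝ) < (ε : ℝ) / m := by positivity
  choose F₀ hF₀ using fun i => parseval_approx (fun a => Rg ρ (η a)) hRo hd (ζ i) hε'
  set F := Finset.univ.biUnion F₀ with hF
  have h2 : (m : ℝ) ≤ ∑ a ∈ F, (τ (p a)).re + ε := by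
    have h3 : (m : ℝ) = ∑ i : Fin m, ‖ζ i‖ ^ 2 := by
      rw [Finset.sum_congr rfl (fun i _ => hζn i)]; simp
    rw [h3]
    calc ∑ i : Fin m, ‖ζ i‖ ^ 2 ≤ ∑ i : Fin m, (∑ a ∈ F,
          ‖(Rg ρ (η a)).topologicalClosure.starProjection (ζ i)‖ ^ 2 + ε / m) :=
          Finset.sum_le_sum (fun i _ => hF₀ i F (Finset.subset_biUnion_of_mem F₀
            (Finset.mem_univ i)))
      _ = (∑ a ∈ F, ∑ i : Fin m,
          ‖(Rg ρ (η a)).topologicalClosure.starProjection (ζ i)‖ ^ 2) + ε := by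
          rw [Finset.sum_add_distrib, Finset.sum_comm]
          congr 1
          rw [Finset.sum_const, Finset.card_univ, Fintype.card_fin, nsmul_eq_mul]
          field_simp
      _ ≤ (∑ a ∈ F, ∑ i : Fin m,
          ‖(Rg ρ (ζ i)).topologicalClosure.starProjection (η a)‖ ^ 2) + ε := by
          refine add_le_add (Finset.sum_le_sum (fun a _ => Finset.sum_le_sum (fun i _ => ?_))) le_rfl
          have := proj_sym ρ hτ (hp a) (hζ i) (hη a)
          exact pow_le_pow_left₀ (norm_nonneg _) this 2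
      _ ≤ ∑ a ∈ F, (τ (p a)).re + ε := by
          refine add_le_add (Finset.sum_le_sum (fun a _ => ?_)) le_rfl
          have h4 := pyth (fun i => (Rg ρ (ζ i)).topologicalClosure) hQo Finset.univ (η a)
          rw [hηn] at h4
          rw [h4]
          have := sq_nonneg ‖η a - ∑ i : Fin m,
            (Rg ρ (ζ i)).topologicalClosure.starProjection (η a)‖
          linarith
  have hnn : ∀ a, 0 ≤ (τ (p a)).re := fun a => by rw [← hηn]; positivity
  have h3 : (m : ENNReal) = ENNReal.ofReal (m : ℝ) := by simp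
  rw [h3]
  refine (ENNReal.ofReal_le_ofReal h2).trans ?_
  rw [ENNReal.ofReal_add (Finset.sum_nonneg (fun a _ => hnn a)) (NNReal.coe_nonneg ε),
    ENNReal.ofReal_sum_of_nonneg (fun a _ => hnn a), ENNReal.ofReal_coe_nnreal]
  exact add_le_add (ENNReal.sum_le_tsum F) le_rfl

end rep

end Pool.Agent.Y323.KK
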