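import Mathlib
import Pool.Agent.Y323.KK.Transfer
import Pool.Agent.Y323.KK.Up

/-!
Murray-von Neumann dimension.
-/

set_option autoImplicit false

open scoped InnerProductSpace ComplexConjugate ComplexOrder
open Filter Topology

namespace Pool.Agent.Y323.KK

open Pool.Agent.H467F Pool.Agent.H518R4.UG Pool.Agent.H518R5.SC

variable {H : Type} [NormedAddCommGroup H] [InnerProductSpace ℂ H] [CompleteSpace H]

/-- The Kadison-Kastler distance: the Hausdorff distance of the closed unit balls of `M` and `N` in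
the operator norm. -/
noncomputable def kkDist (M N : VonNeumannAlgebra H) : ℝ :=
  Metric.hausdorffDist {x : H →L[ℂ] H | x ∈ M ∧ ‖x‖ ≤ 1} {y : H →L[ℂ] H | y ∈ N ∧ ‖y‖ ≤ 1}

/-- `d` is the Murray-von Neumann dimension of `H` as a left `M`-module, i.e. `H` is isomorphic to
a Hilbert space sum `⨁ i, L²(M, τ) p_i` with projections `p_i ∈ M`, and `d = ∑ τ(p_i)`.  The vector
`η_i ∈ H` is the image of `p_i`: the submodules generated by the `η_i` are pairwise orthogonal,
`x p_i ↦ x η_i` is isometric on `M p_i ⊆ L²(M, τ) p_i`, and the sum of the submodules is dense. -/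
def IsMvNDim (M : VonNeumannAlgebra H) (τ : Elt M → ℂ) (d : ENNReal) : Prop :=
  ∃ (I : Type) (p : I → Elt M) (η : I → H),
    (∀ i, star (p i) = p i ∧ p i * p i = p i) ∧
    (∀ i (x : Elt M), ⟪η i, (x : H →L[ℂ] H) (η i)⟫_ℂ = τ (x * p i)) ∧
    (∀ i j, i ≠ j → ∀ x : Elt M, ⟪η i, (x : H →L[ℂ] H) (η j)⟫_ℂ = 0) ∧
    (Submodule.span ℂ {ζ : H | ∃ i, ∃ x : Elt M, ζ = (x : H →L[ℂ] H) (η i)}).topologicalClosure = ⊤ ∧
    d = ∑' i, ENNReal.ofReal (τ (p i)).re

/-- The direct sum of `m` copies of `L²(M, τ)` embeds isometrically in the direct sum of `n` copies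
of `H` as a left `M`-module; the vectors `ξ i` are the images of the units of the summands. -/
def Embeds (M : VonNeumannAlgebra H) (τ : Elt M → ℂ) (m n : ℕ) : Prop :=
  ∃ ξ : Fin m → Fin n → H, ∀ i j (x : Elt M),
    ∑ k, ⟪ξ i k, (x : H →L[ℂ] H) (ξ j k)⟫_ℂ = if i = j then τ x else 0

theorem embeds_iff {M : VonNeumannAlgebra H} {τ : Elt M → ℂ} {m n : ℕ} :
    Embeds M τ m n ↔ ∃ ζ : Fin m → Hn H n, ∀ i j (x : Elt M),
      ⟪ζ i, amp H n (x : H →L[ℂ] H) (ζ j)⟫_ℂ = if i = j then τ x else 0 := by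
  constructor
  · rintro ⟨ξ, hξ⟩
    refine ⟨fun i => WithLp.toLp 2 (ξ i), fun i j x => ?_⟩
    rw [PiLp.inner_apply]
    exact hξ i j x
  · rintro ⟨ζ, hζ⟩
    refine ⟨fun i k => ζ i k, fun i j x => ?_⟩
    rw [← hζ i j x, PiLp.inner_apply]
    rfl

theorem nearB_of_kkDist {M N : VonNeumannAlgebra H} {δ : ℝ} (h : kkDist M N < δ) :
    NearB M N δ ∧ NearB N M δ := by
  have hb : ∀ M : VonNeumannAlgebra H, Bornology.IsBounded {x : H →L[ℂ] H | x ∈ M ∧ ‖x‖ ≤ 1} := by
    intro M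
    refine Metric.isBounded_closedBall (x := (0 : H →L[ℂ] H)) (r := 1) |>.subset ?_
    rintro x ⟨-, hx⟩
    rw [mem_closedBall_zero_iff]
    exact hx
  have hn : ∀ M : VonNeumannAlgebra H, {x : H →L[ℂ] H | x ∈ M ∧ ‖x‖ ≤ 1}.Nonempty :=
    fun M => ⟨0, zero_mem M, by rw [norm_zero]; exact zero_le_one⟩
  have hfin : ∀ M N : VonNeumannAlgebra H, Metric.hausdorffEDist
      {x : H →L[ℂ] H | x ∈ M ∧ ‖x‖ ≤ 1} {y : H →L[ℂ] H | y ∈ N ∧ ‖y‖ ≤ 1} ≠ ⊤ := fun M N =>
    Metric.hausdorffEDist_ne_top_of_nonempty_of_bounded (hn M) (hn N) (hb M) (hb N)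
  constructor
  · intro x hx hx1
    have hx' : x ∈ {x : H →L[ℂ] H | x ∈ M ∧ ‖x‖ ≤ 1} := ⟨hx, hx1⟩
    obtain ⟨y, hy, hxy⟩ := Metric.exists_dist_lt_of_hausdorffDist_lt hx' h (hfin M N)
    exact ⟨y, hy.1, hy.2, by rw [← dist_eq_norm]; exact hxy.le⟩
  · intro x hx hx1
    rw [kkDist, Metric.hausdorffDist_comm] at h
    have hx' : x ∈ {x : H →L[ℂ] H | x ∈ N ∧ ‖x‖ ≤ 1} := ⟨hx, hx1⟩
    obtain ⟨y, hy, hxy⟩ := Metric.exists_dist_lt_of_hausdorffDist_lt hx' h (hfin N M)
    exact ⟨y, hy.1, hy.2, by rw [← dist_eq_norm]; exact hxy.le⟩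

/-- Modules of close factors contain the same numbers of copies of the standard module. -/
theorem embeds_iff_of_close {M N : VonNeumannAlgebra H} {τ : Elt M →ₗ[ℂ] ℂ} {σ : Elt N →ₗ[ℂ] ℂ}
    (hM : IsIIOneFactor M (τ : Elt M → ℂ)) (hN : IsIIOneFactor N (σ : Elt N → ℂ))
    (h : kkDist M N < d0) (m n : ℕ) : Embeds M τ m n ↔ Embeds N σ m n := by
  obtain ⟨h1, h2⟩ := nearB_of_kkDist h
  rw [embeds_iff, embeds_iff]
  constructor
  · rintro ⟨ξ, hξ⟩
    exact transfer hM hN d0_pos.le le_rfl h1 h2 hξ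
  · rintro ⟨ξ, hξ⟩
    exact transfer hN hM d0_pos.le le_rfl h2 h1 hξ

/-! ### Vectors with one coordinate -/

/-- The vector with coordinate `v` at `k`. -/
noncomputable def sg {n : ℕ} (k : Fin n) (v : H) : Hn H n := WithLp.toLp 2 (Pi.single k v)

omit [CompleteSpace H] in
theorem sg_same {n : ℕ} (k : Fin n) (v : H) : (sg k v : Hn H n) k = v := by
  show (Pi.single k v : Fin n → H) k = v
  rw [Pi.single_eq_same]

omit [CompleteSpace H] in
theorem sg_ne {n : ℕ} {k k' : Fin n} (h : k' ≠ k) (v : H) : (sg k v : Hn H n) k' = 0 := by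
  show (Pi.single k v : Fin n → H) k' = 0
  rw [Pi.single_eq_of_ne h]

omit [CompleteSpace H] in
theorem inner_sg {n : ℕ} (k : Fin n) (v : H) (ζ : Hn H n) : ⟪sg k v, ζ⟫_ℂ = ⟪v, ζ k⟫_ℂ := by
  rw [PiLp.inner_apply, Finset.sum_eq_single k]
  · rw [sg_same]
  · intro j _ hj
    rw [sg_ne hj, inner_zero_left]
  · intro h
    exact absurd (Finset.mem_univ k) h

theorem inner_sg_amp {n : ℕ} (k k' : Fin n) (v w : H) (x : H →L[ℂ] H) :
    ⟪sg k v, amp H n x (sg k' w)⟫_ℂ = if k = k' then ⟪v, x w⟫_ℂ else 0 := by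
  rw [inner_sg, amp_apply]
  split_ifs with h
  · rw [h, sg_same]
  · rw [sg_ne h, map_zero, inner_zero_right]

/-! ### Upper bound -/

theorem dim_upper {M : VonNeumannAlgebra H} {τ : Elt M →ₗ[ℂ] ℂ}
    (hM : IsIIOneFactor M (τ : Elt M → ℂ)) {d : ENNReal} (hd : IsMvNDim M τ d) {m n : ℕ}
    (hE : Embeds M τ m n) : (m : ENNReal) ≤ n * d := by
  obtain ⟨I, p, η, hp, hη, hηo, hdense, rfl⟩ := hd
  obtain ⟨ζ, hζ⟩ := embeds_iff.1 hE
  let ρ : Elt M →⋆ₐ[ℂ] (Hn H n →L[ℂ] Hn H n) := (amp H n).comp M.toStarSubalgebra.subtype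
  have hρ : ∀ x : Elt M, ρ x = amp H n (x : H →L[ℂ] H) := fun x => rfl
  have h := upper ρ (τ := (τ : Elt M → ℂ)) hM.trace.tracial hM.trace.one (J := I × Fin n)
    (p := fun a => p a.1) (η := fun a => sg a.2 (η a.1)) (fun a => hp a.1)
    (fun a x => by rw [hρ, inner_sg_amp, if_pos rfl, hη])
    (fun a b hab x => by
      rw [hρ, inner_sg_amp]
      split_ifs with h
      · exact hηo _ _ (fun h' => hab (Prod.ext h' h)) x
      · rfl) (by
      rw [Submodule.topologicalClosure_eq_top_iff, Submodule.eq_bot_iff]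
      intro v hv
      have h1 : ∀ k, v k = 0 := by
        intro k
        have h2 : v k ∈ (Submodule.span ℂ {ζ : H | ∃ i, ∃ x : Elt M,
            ζ = (x : H →L[ℂ] H) (η i)})ᗮ := by
          rw [Submodule.mem_orthogonal]
          intro u hu
          refine Submodule.span_induction (p := fun u _ => ⟪u, v k⟫_ℂ = 0) ?_ ?_ ?_ ?_ hu
          · rintro _ ⟨i, x, rfl⟩
            have h3 : ρ x (sg k (η i)) ∈ ⨆ a : I × Fin n, Rg ρ (sg a.2 (η a.1)) :=
              Submodule.mem_iSup_of_mem (i, k) ((mem_Rg ρ).2 ⟨x, rfl⟩)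
            have h4 := (Submodule.mem_orthogonal _ _).1 hv _ h3
            have h5 : ρ x (sg k (η i)) = sg k ((x : H →L[ℂ] H) (η i)) := by
              rw [hρ]
              ext j
              rw [amp_apply]
              by_cases hj : j = k
              · rw [hj, sg_same, sg_same]
              · rw [sg_ne hj, sg_ne hj, map_zero]
            rw [h5, inner_sg] at h4
            exact h4
          · exact inner_zero_left _
          · intro a b _ _ ha hb
            rw [inner_add_left, ha, hb, add_zero]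
          · intro c a _ ha
            rw [inner_smul_left, ha, mul_zero]
        rw [Submodule.topologicalClosure_eq_top_iff.1 hdense] at h2
        exact (Submodule.mem_bot ℂ).1 h2
      ext k
      exact h1 k) (ζ := ζ)
    (fun i x => by
      have := hζ i i x
      rw [if_pos rfl] at this
      exact this)
    (fun i j hij x => by
      have := hζ i j x
      rw [if_neg hij] at this
      exact this)
  refine h.trans (le_of_eq ?_)
  have hprod := ENNReal.tsum_prod (f := fun (i : I) (_ : Fin n) => ENNReal.ofReal (τ (p i)).re)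
  rw [hprod, ← ENNReal.tsum_mul_left]
  congr 1
  funext i
  rw [tsum_fintype, Finset.sum_const, Finset.card_univ, Fintype.card_fin, nsmul_eq_mul]

end Pool.Agent.Y323.KK
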