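import Mathlib
import Pool.Agent.Y323.KK.Dim

/-!
Lower bound: a module of dimension `d` contains `m` copies of the standard module in its `n`-fold
sum when `m < n d`.
-/

set_option autoImplicit false

open scoped InnerProductSpace ComplexConjugate ComplexOrder
open Filter Topology

namespace Pool.Agent.Y323.KK

open Pool.Agent.H467F Pool.Agent.H518R4.UG Pool.Agent.H518R5.SC

variable {H : Type} [NormedAddCommGroup H] [InnerProductSpace ℂ H] [CompleteSpace H]

/-- Cutting a projection in pieces of equal trace. -/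
theorem exists_pieces {A : Type} [CStarAlgebra A] {τ : A →ₗ[ℂ] ℂ} (h : II τ) {p : A}
    (hp : IsPrj p) {R : ℕ} (hR : 0 < R) {k : ℕ} (hk : (k : ℝ) / R ≤ (τ p).re) :
    ∃ q : Fin k → A, (∀ l, IsPrj (q l)) ∧ (∀ l l', l ≠ l' → q l * q l' = 0) ∧
      (∀ l, p * q l = q l) ∧ ∀ l, (τ (q l)).re = 1 / R := by
  have hR' : (0 : ℝ) < R := by exact_mod_cast hR
  obtain ⟨q, hq, hqt⟩ := p_SPLIT p_CMP A τ h p hp (k + 1)
    (Fin.lastCases ((τ p).re - k / R) (fun _ => 1 / R)) (Nat.succ_pos _) (by
      intro s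
      refine Fin.lastCases ?_ (fun i => ?_) s
      · rw [Fin.lastCases_last]; linarith
      · rw [Fin.lastCases_castSucc]; positivity) (by
      rw [Fin.sum_univ_castSucc]
      simp only [Fin.lastCases_castSucc, Fin.lastCases_last, Finset.sum_const, Finset.card_univ,
        Fintype.card_fin, nsmul_eq_mul]
      ring)
  refine ⟨fun l => q l.castSucc, fun l => hq.prj _, fun l l' hl => hq.ort _ _ (fun h' => hl
    (Fin.castSucc_injective _ h')), fun l => ?_, fun l => ?_⟩
  · have h1 : ∀ s, p * q s = q s := by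
      intro s
      rw [← hq.sum, Finset.sum_mul, Finset.sum_eq_single s]
      · exact (hq.prj s).2
      · intro b _ hb
        exact hq.ort b s hb
      · intro h'
        exact absurd (Finset.mem_univ s) h'
    exact h1 _
  · rw [hqt, Fin.lastCases_castSucc, Complex.ofReal_re]

theorem dim_lower {M : VonNeumannAlgebra H} {τ : Elt M →ₗ[ℂ] ℂ}
    (hM : IsIIOneFactor M (τ : Elt M → ℂ)) {d : ENNReal} (hd : IsMvNDim M τ d) {m n : ℕ}
    (hmn : (m : ENNReal) < n * d) : Embeds M τ m n := by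
  classical
  have hI := ii_of hM
  have hT := hI.fct.tw
  obtain ⟨I, p, η, hp, hη, hηo, -, rfl⟩ := hd
  have ht0 : ∀ i, 0 ≤ (τ (p i)).re := by
    intro i
    have := hT.re_nonneg (p i)
    rwa [(hp i).1, (hp i).2] at this
  -- a finite subfamily
  obtain ⟨F, hF⟩ : ∃ F : Finset I, (m : ℝ) < n * ∑ i ∈ F, (τ (p i)).re := by
    rw [← ENNReal.tsum_mul_left] at hmn
    rw [ENNReal.tsum_eq_iSup_sum, lt_iSup_iff] at hmn
    obtain ⟨F, hF⟩ := hmn
    refine ⟨F, ?_⟩
    rw [← Finset.mul_sum, ← ENNReal.ofReal_sum_of_nonneg (fun a _ => ht0 a)] at hF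
    have h1 : ((n : ENNReal) * ENNReal.ofReal (∑ i ∈ F, (τ (p i)).re)) =
        ENNReal.ofReal (n * ∑ i ∈ F, (τ (p i)).re) := by
      rw [ENNReal.ofReal_mul (by positivity)]
      simp
    have h2 : (m : ENNReal) = ENNReal.ofReal (m : ℝ) := by simp
    rw [h1, h2] at hF
    exact (ENNReal.ofReal_lt_ofReal_iff_of_nonneg (by positivity)).1 hF
  set T : ℝ := ∑ i ∈ F, (τ (p i)).re with hT'
  -- the common denominator
  obtain ⟨R, hR⟩ := exists_nat_gt ((n : ℝ) * F.card / (n * T - m))
  have hpos : 0 < (n : ℝ) * T - m := by linarith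
  have hR0 : (0 : ℝ) < R := lt_of_le_of_lt (by positivity) hR
  have hRn : 0 < R := by exact_mod_cast hR0
  rw [div_lt_iff₀ hpos] at hR
  have hfl : ∀ i, ((⌊(R : ℝ) * (τ (p i)).re⌋₊ : ℕ) : ℝ) / R ≤ (τ (p i)).re := by
    intro i
    rw [div_le_iff₀ hR0, mul_comm (τ (p i)).re]
    exact Nat.floor_le (mul_nonneg hR0.le (ht0 i))
  choose q hq1 hq2 hq3 hq4 using fun i => exists_pieces hI (hp i) hRn (hfl i)
  obtain ⟨e, he, het⟩ := p_SPLIT p_CMP (Elt M) τ hI 1 ⟨star_one _, mul_one _⟩ R
    (fun _ => 1 / R) hRn (fun _ => by positivity) (by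
      rw [Finset.sum_const, Finset.card_univ, Fintype.card_fin, hT.one, Complex.one_re,
        nsmul_eq_mul]
      field_simp)
  -- counting
  let P : Type := Σ i : F, Fin n × Fin ⌊(R : ℝ) * (τ (p i)).re⌋₊
  have hcard : Fintype.card (Fin m × Fin R) ≤ Fintype.card P := by
    have h1 : Fintype.card P = ∑ i : F, n * ⌊(R : ℝ) * (τ (p i)).re⌋₊ := by
      rw [Fintype.card_sigma]
      refine Finset.sum_congr rfl (fun i _ => ?_)
      rw [Fintype.card_prod, Fintype.card_fin, Fintype.card_fin]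
    rw [h1, Fintype.card_prod, Fintype.card_fin, Fintype.card_fin]
    have h2 : ((m * R : ℕ) : ℝ) ≤ ((∑ i : F, n * ⌊(R : ℝ) * (τ (p i)).re⌋₊ : ℕ) : ℝ) := by
      push_cast
      have h3 : ∑ i : F, (n : ℝ) * (⌊(R : ℝ) * (τ (p i)).re⌋₊ : ℝ) ≥
          ∑ i : F, (n : ℝ) * ((R : ℝ) * (τ (p i)).re - 1) := by
        refine Finset.sum_le_sum (fun i _ => ?_)
        refine mul_le_mul_of_nonneg_left ?_ (by positivity)
        have := Nat.lt_floor_add_one ((R : ℝ) * (τ (p i)).re)
        linarith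
      have h4 : ∑ i : F, (n : ℝ) * ((R : ℝ) * (τ (p i)).re - 1) =
          n * (R * T) - n * F.card := by
        rw [← Finset.mul_sum, Finset.sum_sub_distrib, ← Finset.mul_sum,
          Finset.sum_coe_sort F (fun i => (τ (p i)).re)]
        simp only [Finset.sum_const, Finset.card_univ, Fintype.card_coe, nsmul_eq_mul, mul_one]
        rw [← hT']
        ring
      nlinarith
    exact_mod_cast h2
  obtain ⟨ι⟩ := Function.Embedding.nonempty_of_card_le hcard
  -- partial isometries
  choose s hs1 hs2 _ _ using fun α : Fin m × Fin R => p_CMP (Elt M) τ hI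
    (q (ι α).1 (ι α).2.2) (e α.2) (hq1 _ _) (he.prj _)
    (by rw [het, hq4, Complex.ofReal_re])
  have hps : ∀ α, p (ι α).1 * s α = s α := by
    intro α
    rw [← hs2 α, ← mul_assoc, hq3]
  have hsp : ∀ α, star (s α) * p (ι α).1 = star (s α) := by
    intro α
    have := congrArg star (hps α)
    rw [star_mul, (hp _).1] at this
    exact this
  have hQ : ∀ α β, α ≠ β → (ι α).1 = (ι β).1 → (ι α).2.1 = (ι β).2.1 →
      q (ι β).1 (ι β).2.2 * q (ι α).1 (ι α).2.2 = 0 := by
    intro α β hne h1 h2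
    have hne' : ι α ≠ ι β := fun h => hne (ι.injective h)
    generalize ι α = u at *
    generalize ι β = v at *
    obtain ⟨i, k, l⟩ := u
    obtain ⟨i', k', l'⟩ := v
    dsimp only at h1 h2 ⊢
    subst h1
    subst h2
    refine hq2 _ _ _ (fun hl => hne' ?_)
    rw [hl]
  let a : Fin m × Fin R → Hn H n := fun α =>
    sg (ι α).2.1 (((star (s α) : Elt M) : H →L[ℂ] H) (η (ι α).1))
  have key : ∀ α β (x : Elt M), ⟪a α, amp H n (x : H →L[ℂ] H) (a β)⟫_ℂ =
      if α = β then τ (x * e α.2) else 0 := by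
    intro α β x
    have h0 : ⟪((star (s α) : Elt M) : H →L[ℂ] H) (η (ι α).1), (x : H →L[ℂ] H)
        (((star (s β) : Elt M) : H →L[ℂ] H) (η (ι β).1))⟫_ℂ =
        ⟪η (ι α).1, ((s α * x * star (s β) : Elt M) : H →L[ℂ] H) (η (ι β).1)⟫_ℂ := by
      have e1 : ((star (s α) : Elt M) : H →L[ℂ] H) =
          ContinuousLinearMap.adjoint ((s α : Elt M) : H →L[ℂ] H) := by
        rw [← ContinuousLinearMap.star_eq_adjoint]; rfl
      rw [e1, ContinuousLinearMap.adjoint_inner_left]
      rfl
    show ⟪sg _ _, amp H n (x : H →L[ℂ] H) (sg _ _)⟫_ℂ = _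
    rw [inner_sg_amp, h0]
    by_cases hk : (ι α).2.1 = (ι β).2.1
    · rw [if_pos hk]
      by_cases hi : (ι α).1 = (ι β).1
      · rw [← hi, hη]
        have e2 : s α * x * star (s β) * p (ι α).1 = s α * x * star (s β) := by
          rw [hi, mul_assoc, hsp]
        rw [e2, hT.comm, ← mul_assoc, hT.comm]
        by_cases hαβ : α = β
        · subst hαβ
          rw [if_pos rfl, hs1]
        · rw [if_neg hαβ]
          have e3 : star (s β) * s α = 0 := by
            have h1 := hs2 β
            have h2 := congrArg star h1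
            rw [star_mul, (hq1 _ _).1] at h2
            rw [← h2, ← hs2 α]
            calc star (s β) * q (ι β).1 (ι β).2.2 * (q (ι α).1 (ι α).2.2 * s α) =
                star (s β) * (q (ι β).1 (ι β).2.2 * q (ι α).1 (ι α).2.2) * s α := by
                  simp only [mul_assoc]
              _ = 0 := by rw [hQ α β hαβ hi hk, mul_zero, zero_mul]
          rw [e3, mul_zero, map_zero]
      · rw [if_neg (fun h => hi (by rw [h]))]
        exact hηo _ _ (fun h => hi (Subtype.ext h)) _
    · rw [if_neg hk, if_neg (fun h => hk (by rw [h]))]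
  rw [embeds_iff]
  refine ⟨fun j => ∑ r, a (j, r), fun i j x => ?_⟩
  rw [map_sum, sum_inner]
  have h1 : ∀ r, ⟪a (i, r), ∑ r', amp H n (x : H →L[ℂ] H) (a (j, r'))⟫_ℂ =
      if i = j then τ (x * e r) else 0 := by
    intro r
    rw [inner_sum]
    rw [Finset.sum_eq_single r]
    · rw [key]
      by_cases hij : i = j
      · rw [if_pos hij, if_pos (by rw [hij])]
      · rw [if_neg hij, if_neg (fun h => hij (congrArg Prod.fst h))]
    · intro r' _ hr
      rw [key, if_neg (fun h => hr (congrArg Prod.snd h).symm)]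
    · intro h
      exact absurd (Finset.mem_univ r) h
  rw [Finset.sum_congr rfl (fun r _ => h1 r)]
  split_ifs with hij
  · rw [← map_sum, ← Finset.mul_sum, he.sum, mul_one]
  · exact Finset.sum_const_zero

end Pool.Agent.Y323.KK
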