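import Mathlib
import Pool.Agent.Y323.KK.Low

/-!
Normal functionals are linear.
-/

set_option autoImplicit false

open scoped InnerProductSpace ComplexConjugate ComplexOrder
open Filter Topology

namespace Pool.Agent.Y323.KK

open Pool.Agent.H467F

variable {H : Type} [NormedAddCommGroup H] [InnerProductSpace ℂ H] [CompleteSpace H]

theorem lin_of {N : VonNeumannAlgebra H} {t : Elt N → ℂ} (ht : IsNormalPositive N t) :
    ∃ s : Elt N →ₗ[ℂ] ℂ, (s : Elt N → ℂ) = t := by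
  obtain ⟨ξ, hξ, htξ⟩ := ht
  have hsum : ∀ x : Elt N, Summable (fun k => ⟪ξ k, (x : H →L[ℂ] H) (ξ k)⟫_ℂ) := by
    intro x
    refine Summable.of_norm_bounded (hξ.mul_left ‖(x : H →L[ℂ] H)‖) (fun k => ?_)
    refine (norm_inner_le_norm _ _).trans ?_
    have h1 : ‖(x : H →L[ℂ] H) (ξ k)‖ ≤ ‖(x : H →L[ℂ] H)‖ * ‖ξ k‖ :=
      (x : H →L[ℂ] H).le_opNorm _
    nlinarith [norm_nonneg (ξ k)]
  refine ⟨{ toFun := t, map_add' := fun x y => ?_, map_smul' := fun r x => ?_ }, rfl⟩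
  · rw [htξ, htξ, htξ, ← (hsum x).tsum_add (hsum y)]
    congr 1
    funext k
    show ⟪ξ k, (x : H →L[ℂ] H) (ξ k) + (y : H →L[ℂ] H) (ξ k)⟫_ℂ = _
    rw [inner_add_right]
  · rw [htξ, htξ, RingHom.id_apply, smul_eq_mul, ← tsum_mul_left]
    congr 1
    funext k
    show ⟪ξ k, r • (x : H →L[ℂ] H) (ξ k)⟫_ℂ = _
    rw [inner_smul_right]

/-- Equality of the dimensions, for functions in place of linear maps. -/
theorem dims_eq {M N : VonNeumannAlgebra H} {τ : Elt M → ℂ} {σ : Elt N → ℂ}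
    (hM : IsIIOneFactor M τ) (hN : IsIIOneFactor N σ) (h : kkDist M N < d0) {dM dN : ENNReal}
    (hdM : IsMvNDim M τ dM) (hdN : IsMvNDim N σ dN) : dM = dN := by
  obtain ⟨τ, rfl⟩ := lin_of hM.normal
  obtain ⟨σ, rfl⟩ := lin_of hN.normal
  have hE := embeds_iff_of_close hM hN h
  have key : ∀ (M N : VonNeumannAlgebra H) (τ : Elt M →ₗ[ℂ] ℂ) (σ : Elt N →ₗ[ℂ] ℂ),
      IsIIOneFactor M (τ : Elt M → ℂ) → IsIIOneFactor N (σ : Elt N → ℂ) →
      (∀ m n, Embeds M τ m n → Embeds N σ m n) →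
      ∀ dM dN : ENNReal, IsMvNDim M τ dM → IsMvNDim N σ dN → dM ≤ dN := by
    intro M N τ σ hM hN hE dM dN hdM hdN
    by_contra hlt
    push Not at hlt
    obtain ⟨q, hq0, hq1, hq2⟩ := ENNReal.lt_iff_exists_rat_btwn.1 hlt
    have hn0 : (q.den : ENNReal) ≠ 0 := by exact_mod_cast q.den_nz
    have hnt : (q.den : ENNReal) ≠ ⊤ := ENNReal.natCast_ne_top _
    have hq : ((Real.toNNReal (q : ℝ) : NNReal) : ENNReal) =
        (q.num.toNat : ENNReal) / (q.den : ENNReal) := by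
      have h1 : (q : ℝ) = (q.num.toNat : ℝ) / (q.den : ℝ) := by
        have h2 : ((q.num.toNat : ℤ) : ℝ) = (q.num : ℝ) := by
          rw [Int.toNat_of_nonneg (Rat.num_nonneg.2 hq0)]
        rw [Rat.cast_def, ← h2, Int.cast_natCast]
      show ENNReal.ofReal (q : ℝ) = _
      rw [h1, ENNReal.ofReal_div_of_pos (by exact_mod_cast q.den_pos)]
      simp
    rw [hq] at hq1 hq2
    have h1 : (q.num.toNat : ENNReal) < q.den * dM := by
      rw [mul_comm]
      exact (ENNReal.div_lt_iff (Or.inl hn0) (Or.inl hnt)).1 hq2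
    have h2 : (q.den : ENNReal) * dN < q.num.toNat := by
      rw [mul_comm]
      exact (ENNReal.lt_div_iff_mul_lt (Or.inl hn0) (Or.inl hnt)).1 hq1
    exact absurd (dim_upper hN hdN (hE _ _ (dim_lower hM hdM h1))) (not_le.2 h2)
  exact le_antisymm (key M N τ σ hM hN (fun m n => (hE m n).1) dM dN hdM hdN)
    (key N M σ τ hN hM (fun m n => (hE m n).2) dN dM hdN hdM)

end Pool.Agent.Y323.KK
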